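import Pool.Agent.U5C.Cert

/-!
# The abstract consequence of the certificate
-/

set_option autoImplicit false

noncomputable section

namespace Pool.Agent.U5C

open Polynomial
open Pool.Agent.Helper1.PG (Fill)

/-- data of a certificate -/
structure Dat where
  D : ℕ
  t : ℕ
  cols0 : List (ℕ × Fill)
  cols1 : List (ℕ × Fill)
  GA : List ((ℕ × ℕ) × Fill)
  GB : List ((ℕ × ℕ) × Fill)

/-- what the kernel checks: `tst` is a test for codes -/
structure Chk (R C p n a0 im ii : ℕ) (tst : ℕ → Bool) (z : Dat) : Prop where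
  ring0 : chkT (fun s _ => ringB im ii s)
    (centre neg2 mq2 add2 sm2 cst2 R C p n a0 z.D z.t z.cols0 z.GA) = true
  ring1 : chkT (fun s _ => ringB im ii s)
    (outer neg2 mq2 add2 cst2 R C p n a0 z.cols1 z.GA z.GB) = true
  sym0 : chkT (fun s c => @Bool.rec (fun _ => Bool) false (tst s) (negB c))
    (symT add2 19 R C scR p gs0
      (centre neg2 mq2 add2 sm2 cst2 R C p n a0 z.D z.t z.cols0 z.GA) (Tr.emp K2 n)) = true
  sym1 : chkT (fun s c => @Bool.rec (fun _ => Bool) false (tst s) (negB c))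
    (symT add2 19 R C scR p gs1
      (outer neg2 mq2 add2 cst2 R C p n a0 z.cols1 z.GA z.GB) (Tr.emp K2 n)) = true

/-- the expansion of the flat window, polynomial coefficients -/
abbrev F7X (R C p n a0 : ℕ) : Tr ℤ[X] := F7 negX mqX addX cstX R C p n a0

theorem allT_centre {R C p n a0 : ℕ} (h : PW 19 R C) (ha : VOK 19 vs7 a0) (hA : VOK 19 vsA a0)
    (D t : ℕ) (cols0 : List (ℕ × Fill)) (GA : List ((ℕ × ℕ) × Fill)) :
    AllT (Eqv 19) (centre negX mqX addX smX cstX R C p n a0 D t cols0 GA) := by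
  refine allT_addTs (fun s hs => hs) _ p (allT_expand h p n (allT_flux h (by decide) GA) hA) ?_
  refine allT_addCols h cols0 (allT_ins _ eqv_idp ?_ _)
  exact allT_addTs (fun s hs => hs) _ p
    (allT_expand h p n (allT_ins _ eqv_idp (allT_emp _ _) _) ha) (allT_emp _ _)

theorem allT_outer {R C p n a0 : ℕ} (h : PW 19 R C) (hA' : VOK 19 vsA' a0)
    (hB : VOK 19 vsB a0) (hB' : VOK 19 vsB' a0)
    (cols1 : List (ℕ × Fill)) (GA GB : List ((ℕ × ℕ) × Fill)) :
    AllT (Eqv 19) (outer negX mqX addX cstX R C p n a0 cols1 GA GB) := by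
  refine allT_addTs (fun s _ => eqv_relab h (getN_lt (by norm_num) (by decide)) scR s) _ p
    (allT_expand h p n (allT_addTs (fun s _ => eqv_relab h (getN_lt (by norm_num) (by decide))
      scA s) _ p (allT_flux h (by decide) GB) (allT_emp _ _)) hB') ?_
  refine allT_addTs (fun s hs => hs) _ p (allT_expand h p n (allT_flux h (by decide) GB) hB) ?_
  refine allT_addTs (fun s hs => hs) _ p
    (allT_expand h p n (allT_addTs (fun s _ => eqv_relab h (getN_lt (by norm_num) (by decide))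
      scA s) _ p (allT_flux h (by decide) GA) (allT_emp _ _)) hA') ?_
  exact allT_addCols h cols1 (allT_emp _ _)

theorem allT_and {K : Type} {P Q : ℕ → Prop} {T : Tr K} (h : AllT P T) (h' : AllT Q T) :
    AllT (fun s => P s ∧ Q s) T := by
  rw [← allC_iff] at *
  exact h.and h'

/-- THE CONSEQUENCE. For `q` near `5` and any two functionals with the properties below,
`t * Φ0 (id) ≤ D * Φ0 (flat window)`. -/
theorem near5 {R C p n a0 im ii : ℕ} {tst : ℕ → Bool} {z : Dat} (h : PW 19 R C)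
    (ha : VOK 19 vs7 a0) (hA : VOK 19 vsA a0) (hA' : VOK 19 vsA' a0) (hB : VOK 19 vsB a0)
    (hB' : VOK 19 vsB' a0) (hk : Chk R C p n a0 im ii tst z) :
    ∃ δ > 0, ∀ q : ℝ, |q - 5| < δ → ∀ Φ0 Φ1 : ℕ → ℝ,
      (∀ π ∈ gs0, ∀ s, Eqv 19 s → ringB im ii s = true → Φ0 (relab 19 R C π scR s) = Φ0 s) →
      (∀ π ∈ gs1, ∀ s, Eqv 19 s → ringB im ii s = true → Φ1 (relab 19 R C π scR s) = Φ1 s) →
      (∀ s, Eqv 19 s → tst s = true → 0 ≤ Φ0 s) →
      (∀ s, Eqv 19 s → tst s = true → 0 ≤ Φ1 s) →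
      (∀ T : Fill, 0 ≤ colq q Φ0 R C a0 T) →
      (∀ T : Fill, 0 ≤ colq q Φ1 R C a0 T) →
      LT q Φ0 (fluxA negX mqX addX cstX R C p n a0 z.GA) =
        LT q Φ1 (fluxA' negX mqX addX cstX R C p n a0 z.GA) →
      LT q Φ1 (fluxB negX mqX addX cstX R C p n a0 z.GB) =
        LT q (fun s => Φ1 (relab 19 R C rotL scR s))
          (fluxB' negX mqX addX cstX R C p n a0 z.GB) →
      (z.t : ℝ) * Φ0 (idp 19 19) ≤ (z.D : ℝ) * LT q Φ0 (F7X R C p n a0) := by
  set TC := centre negX mqX addX smX cstX R C p n a0 z.D z.t z.cols0 z.GA with hTC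
  set TO := outer negX mqX addX cstX R C p n a0 z.cols1 z.GA z.GB with hTO
  set SC := symT addX 19 R C scR p gs0 TC (Tr.emp ℤ[X] n) with hSC
  set SO := symT addX 19 R C scR p gs1 TO (Tr.emp ℤ[X] n) with hSO
  have eC : (centre neg2 mq2 add2 sm2 cst2 R C p n a0 z.D z.t z.cols0 z.GA).map i2 =
      TC.map (fun c => c.eval 5) := by
    rw [map_centre hs2, hTC, map_centre hs5]
  have eO : (outer neg2 mq2 add2 cst2 R C p n a0 z.cols1 z.GA z.GB).map i2 =
      TO.map (fun c => c.eval 5) := by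
    rw [map_outer hs2, hTO, map_outer hs5]
  have eSC : (symT add2 19 R C scR p gs0
      (centre neg2 mq2 add2 sm2 cst2 R C p n a0 z.D z.t z.cols0 z.GA) (Tr.emp K2 n)).map i2 =
      SC.map (fun c => c.eval 5) := by
    rw [map_symT hs2.toHm, map_emp, eC, hSC, map_symT hs5.toHm, map_emp]
  have eSO : (symT add2 19 R C scR p gs1
      (outer neg2 mq2 add2 cst2 R C p n a0 z.cols1 z.GA z.GB) (Tr.emp K2 n)).map i2 =
      SO.map (fun c => c.eval 5) := by
    rw [map_symT hs2.toHm, map_emp, eO, hSO, map_symT hs5.toHm, map_emp]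
  have hf : ∀ (s : ℕ) (c : K2), @Bool.rec (fun _ => Bool) false (tst s) (negB c) = true →
      (tst s = true ∧ i2 c ≤ -1) := by
    intro s c hsc
    cases hn : negB c with
    | true => rw [hn] at hsc; exact ⟨hsc, negB_spec hn⟩
    | false => rw [hn] at hsc; exact absurd hsc Bool.false_ne_true
  have qC := transfer (Q := fun s c => tst s = true ∧ c ≤ -1) eSC hk.sym0 hf
  have qO := transfer (Q := fun s c => tst s = true ∧ c ≤ -1) eSO hk.sym1 hf
  have rC := transfer (Q := fun s _ => ringB im ii s = true) eC hk.ring0 (fun s _ h => h)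
  have rO := transfer (Q := fun s _ => ringB im ii s = true) eO hk.ring1 (fun s _ h => h)
  have aC : AllT (Eqv 19) TC := allT_centre h ha hA _ _ _ _
  have aO : AllT (Eqv 19) TO := allT_outer h hA' hB hB' _ _ _
  have aSC : AllT (Eqv 19) SC := allT_symT h p
    (fun π hπ => getN_lt (by norm_num) (by revert π; decide)) aC (allT_emp _ _)
  have aSO : AllT (Eqv 19) SO := allT_symT h p
    (fun π hπ => getN_lt (by norm_num) (by revert π; decide)) aO (allT_emp _ _)
  obtain ⟨δ0, hδ0, h0⟩ := exists_nearT SC (qC.imp fun _ _ h => h.2)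
  obtain ⟨δ1, hδ1, h1⟩ := exists_nearT SO (qO.imp fun _ _ h => h.2)
  refine ⟨min δ0 δ1, lt_min hδ0 hδ1, ?_⟩
  intro q hq Φ0 Φ1 s0 s1 p0 p1 c0 c1 cA cB
  have n0 : LT q Φ0 SC ≤ 0 := by
    apply LT_nonpos
    have := ((allC_iff SC).2 aSC).and (qC.and (h0 q (hq.trans_le (min_le_left _ _))))
    exact this.imp fun s c hh => ⟨p0 s hh.1 hh.2.1.1, hh.2.2⟩
  have n1 : LT q Φ1 SO ≤ 0 := by
    apply LT_nonpos
    have := ((allC_iff SO).2 aSO).and (qO.and (h1 q (hq.trans_le (min_le_right _ _))))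
    exact this.imp fun s c hh => ⟨p1 s hh.1 hh.2.1.1, hh.2.2⟩
  have e0 : LT q Φ0 SC = 12 * LT q Φ0 TC := by
    have := linT_symT (fun c : ℤ[X] => aeval q c) Φ0 (ipq q) (w := 19) (R := R) (C := C)
      (sc := scR) p (gs := gs0) (P := fun s => Eqv 19 s ∧ ringB im ii s = true)
      (fun π hπ s hs => s0 π hπ s hs.1 hs.2) (allT_and aC ((allC_iff TC).1 rC)) (Tr.emp ℤ[X] n)
    rw [linT_emp, zero_add] at this
    have h12 : gs0.length = 12 := rfl
    rw [h12] at this
    exact_mod_cast this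
  have e1 : LT q Φ1 SO = 2 * LT q Φ1 TO := by
    have := linT_symT (fun c : ℤ[X] => aeval q c) Φ1 (ipq q) (w := 19) (R := R) (C := C)
      (sc := scR) p (gs := gs1) (P := fun s => Eqv 19 s ∧ ringB im ii s = true)
      (fun π hπ s hs => s1 π hπ s hs.1 hs.2) (allT_and aO ((allC_iff TO).1 rO)) (Tr.emp ℤ[X] n)
    rw [linT_emp, zero_add] at this
    have h2 : gs1.length = 2 := rfl
    rw [h2] at this
    exact_mod_cast this
  have l0 := LT_centre (R := R) (C := C) (p := p) (n := n) (a0 := a0) q Φ0 z.D z.t z.cols0 z.GA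
  have l1 := LT_outer (R := R) (C := C) (p := p) (n := n) (a0 := a0) q Φ1 z.cols1 z.GA z.GB
  have m0 : 0 ≤ (z.cols0.map fun e => (e.1 : ℝ) * colq q Φ0 R C a0 e.2).sum := by
    apply List.sum_nonneg
    intro x hx
    rw [List.mem_map] at hx
    obtain ⟨e, _, rfl⟩ := hx
    exact mul_nonneg (Nat.cast_nonneg _) (c0 _)
  have m1 : 0 ≤ (z.cols1.map fun e => (e.1 : ℝ) * colq q Φ1 R C a0 e.2).sum := by
    apply List.sum_nonneg
    intro x hx
    rw [List.mem_map] at hx
    obtain ⟨e, _, rfl⟩ := hx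
    exact mul_nonneg (Nat.cast_nonneg _) (c1 _)
  rw [e0] at n0
  rw [e1] at n1
  rw [← hTC] at l0
  rw [← hTO] at l1
  have k0 : LT q Φ0 TC ≤ 0 := by linarith
  have k1 : LT q Φ1 TO ≤ 0 := by linarith
  rw [l0] at k0
  rw [l1] at k1
  show _ ≤ (z.D : ℝ) * LT q Φ0 (F7 negX mqX addX cstX R C p n a0)
  linarith

end Pool.Agent.U5C
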