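import Pool.Agent.U5C.NearN

/-!
# The two kernel checks
-/

set_option autoImplicit false

noncomputable section

namespace Pool.Agent.U5C

/-- the kernel check for the centre window -/
def chkCN (z : Dat) : Bool :=
  andB (chkT (fun s _ => ringB MN JN s) (rest neg2 mq2 add2 cst2 z.t z.cols0 z.GA))
    (chkT (fun s c => @Bool.rec (fun _ => Bool) false (tstN s) (negB c))
      (finC neg2 mq2 add2 sm2 cst2 z.D z.t z.cols0 z.GA))

/-- the kernel check for the outer window -/
def chkON (z : Dat) : Bool :=
  andB (chkT (fun s _ => ringB MN JN s)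
      (outer neg2 mq2 add2 cst2 RN CN 4093 12 AN z.cols1 z.GA z.GB))
    (chkT (fun s c => @Bool.rec (fun _ => Bool) false (tstN s) (negB c))
      (finO neg2 mq2 add2 cst2 z.cols1 z.GA z.GB))

theorem chkN_of {z : Dat} (h0 : chkCN z = true) (h1 : chkON z = true) : ChkN z :=
  ⟨(andB_eq h0).1, (andB_eq h1).1, (andB_eq h0).2, (andB_eq h1).2⟩

end Pool.Agent.U5C
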