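import Pool.Agent.U5C.DataA
import Pool.Agent.U5C.NearN2

/-!
# Kernel check of the certificate, outer window (about 90 seconds, 4 GB)
-/

set_option autoImplicit false
set_option maxRecDepth 100000

namespace Pool.Agent.U5C

theorem chkON_A : chkON zA = true := by decide +kernel

end Pool.Agent.U5C
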