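import Pool.Agent.U5C.NCFill

/-!
# Noncrossing patterns, kernel check
-/

set_option autoImplicit false

noncomputable section

namespace Pool.Agent.U5C

open Pool.Agent.Helper1.PG (Fill inn out)

/-- the list of the first `m` rows of the code `s` -/
def mkRows (w R m s : ℕ) : List ℕ :=
  @Nat.rec (fun _ => ℕ → List ℕ) (fun _ => []) (fun _ ih s =>
    frc (Nat.land s R) fun r => frc (Nat.shiftRight s w) fun s' => r :: ih s') m s

/-- scan for the next slot in the class with row `r`; `U` is the union of the rows passed,
`k` is the position of the head of `rest` -/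
def scanR (r : ℕ) (rest : List ℕ) (k U : ℕ) : Bool :=
  @List.rec ℕ (fun _ => ℕ → ℕ → Bool) (fun _ _ => true) (fun r' _ ih k U =>
    @Bool.rec (fun _ => Bool)
      (frc (Nat.succ k) fun k' => frc (Nat.lor U r') fun U' => ih k' U')
      (Nat.beq (Nat.shiftRight U k) 0)
      (Nat.beq r r')) rest k U

/-- noncrossing test for a list of rows, `k` is the position of the head -/
def ncR (rows : List ℕ) (k : ℕ) : Bool :=
  @List.rec ℕ (fun _ => ℕ → Bool) (fun _ => true) (fun r rest ih k =>
    frc (Nat.succ k) fun k' =>
      @Bool.rec (fun _ => Bool)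
        (@Bool.rec (fun _ => Bool) false (ih k') (scanR r rest k' 0))
        (ih k')
        (Nat.beq (Nat.shiftRight r k') 0)) rows k

/-- noncrossing test for the first `n` slots of a code, the other slots are free;
`X = shiftRight (idp w w) (w * n)` -/
def okK (w R n X s : ℕ) : Bool :=
  @Bool.rec (fun _ => Bool) false (ncR (mkRows w R n s) 0)
    (Nat.beq (Nat.shiftRight s (Nat.mul w n)) X)

theorem mkRows_succ (w R m s : ℕ) :
    mkRows w R (m + 1) s = Nat.land s R :: mkRows w R m (Nat.shiftRight s w) := by
  show frc (Nat.land s R) (fun r => frc (Nat.shiftRight s w) fun s' => r :: mkRows w R m s') = _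
  rw [frc_eq, frc_eq]

theorem scanR_cons (r r' : ℕ) (rest : List ℕ) (k U : ℕ) : scanR r (r' :: rest) k U =
    @Bool.rec (fun _ => Bool) (scanR r rest (k + 1) (Nat.lor U r'))
      (Nat.beq (Nat.shiftRight U k) 0) (Nat.beq r r') := by
  show @Bool.rec (fun _ => Bool) (frc (Nat.succ k) fun k' => frc (Nat.lor U r') fun U' =>
    scanR r rest k' U') _ _ = _
  rw [frc_eq, frc_eq]

theorem ncR_cons (r : ℕ) (rest : List ℕ) (k : ℕ) : ncR (r :: rest) k =
    @Bool.rec (fun _ => Bool)
        (@Bool.rec (fun _ => Bool) false (ncR rest (k + 1)) (scanR r rest (k + 1) 0))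
        (ncR rest (k + 1)) (Nat.beq (Nat.shiftRight r (k + 1)) 0) := by
  show frc (Nat.succ k) (fun k' => @Bool.rec (fun _ => Bool)
        (@Bool.rec (fun _ => Bool) false (ncR rest k') (scanR r rest k' 0))
        (ncR rest k') (Nat.beq (Nat.shiftRight r k') 0)) = _
  rw [frc_eq]

theorem mkRows_getElem? (w m s j : ℕ) (hj : j < m) :
    (mkRows w (2 ^ w - 1) m s)[j]? = some (row w s j) := by
  induction m generalizing s j with
  | zero => omega
  | succ m ih =>
    rw [mkRows_succ]
    cases j with
    | zero =>
      rw [List.getElem?_cons_zero]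
      rfl
    | succ j =>
      rw [List.getElem?_cons_succ, ih _ _ (by omega)]
      congr 1
      apply Nat.eq_of_testBit_eq
      intro k
      rw [testBit_row, testBit_row]
      congr 1
      show (s >>> w).testBit _ = _
      rw [Nat.testBit_shiftRight]
      congr 1
      ring

theorem shiftRight_zero_bit {U k : ℕ} (h : Nat.beq (Nat.shiftRight U k) 0 = true) {b : ℕ}
    (hb : k ≤ b) : U.testBit b = false := by
  have h1 : U >>> k = 0 := Nat.eq_of_beq_eq_true h
  have h2 : (U >>> k).testBit (b - k) = false := by rw [h1, Nat.zero_testBit]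
  rw [Nat.testBit_shiftRight] at h2
  rwa [show k + (b - k) = b by omega] at h2

theorem scanR_spec (r : ℕ) (rest : List ℕ) (k U : ℕ) (h : scanR r rest k U = true) (j : ℕ)
    (hj : rest[j]? = some r) (hmin : ∀ j', j' < j → rest[j']? ≠ some r) (b : ℕ)
    (hb : k + j ≤ b) :
    U.testBit b = false ∧ ∀ j' r', j' < j → rest[j']? = some r' → r'.testBit b = false := by
  induction rest generalizing k U j with
  | nil => rw [List.getElem?_nil] at hj; exact absurd hj (by simp)
  | cons r' rest ih =>
    rw [scanR_cons] at h
    cases hbq : Nat.beq r r' with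
    | true =>
      rw [hbq] at h
      have hrr : r = r' := Nat.eq_of_beq_eq_true hbq
      have hj0 : j = 0 := by
        by_contra hc
        exact hmin 0 (by omega) (by rw [List.getElem?_cons_zero, hrr])
      subst hj0
      refine ⟨shiftRight_zero_bit h (by omega), ?_⟩
      intro j' _ hj'
      omega
    | false =>
      rw [hbq] at h
      have hrr : r ≠ r' := by
        rintro rfl
        rw [Nat.beq_refl] at hbq
        exact absurd hbq (by simp)
      have hj0 : j ≠ 0 := by
        rintro rfl
        rw [List.getElem?_cons_zero, Option.some_inj] at hj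
        exact hrr hj.symm
      obtain ⟨j, rfl⟩ : ∃ l, j = l + 1 := ⟨j - 1, by omega⟩
      rw [List.getElem?_cons_succ] at hj
      obtain ⟨h1, h2⟩ := ih (k + 1) (Nat.lor U r') h j hj (by
        intro j' hj' hc
        exact hmin (j' + 1) (by omega) (by rw [List.getElem?_cons_succ]; exact hc)) (by omega)
      have h1' : (U ||| r').testBit b = false := h1
      rw [Nat.testBit_or, Bool.or_eq_false_iff] at h1'
      refine ⟨h1'.1, ?_⟩
      intro j' r'' hj' hr''
      cases j' with
      | zero =>
        rw [List.getElem?_cons_zero, Option.some_inj] at hr''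
        rw [← hr'']; exact h1'.2
      | succ j' =>
        rw [List.getElem?_cons_succ] at hr''
        exact h2 j' r'' (by omega) hr''

/-- meaning of the test for the position `i` -/
theorem ncR_spec (rows : List ℕ) (k : ℕ) (h : ncR rows k = true) (i j : ℕ) (r : ℕ)
    (hij : i < j) (hi : rows[i]? = some r) (hj : rows[j]? = some r)
    (hmin : ∀ j', i < j' → j' < j → rows[j']? ≠ some r)
    (hbit : r.testBit (k + j) = true) (b : ℕ) (hb : k + j ≤ b) :
    ∀ j' r', i < j' → j' < j → rows[j']? = some r' → r'.testBit b = false := by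
  induction rows generalizing k i j with
  | nil => rw [List.getElem?_nil] at hj; exact absurd hj (by simp)
  | cons r0 rest ih =>
    rw [ncR_cons] at h
    have hrest : ncR rest (k + 1) = true := by
      cases hq : Nat.beq (Nat.shiftRight r0 (k + 1)) 0 with
      | true => rw [hq] at h; exact h
      | false =>
        rw [hq] at h
        cases hq2 : scanR r0 rest (k + 1) 0 with
        | true => rw [hq2] at h; exact h
        | false => rw [hq2] at h; exact absurd h (by simp)
    obtain ⟨j, rfl⟩ : ∃ l, j = l + 1 := ⟨j - 1, by omega⟩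
    rw [List.getElem?_cons_succ] at hj
    cases i with
    | zero =>
      rw [List.getElem?_cons_zero, Option.some_inj] at hi
      subst hi
      have hscan : scanR r0 rest (k + 1) 0 = true := by
        cases hq : Nat.beq (Nat.shiftRight r0 (k + 1)) 0 with
        | true =>
          have := shiftRight_zero_bit hq (b := k + (j + 1)) (by omega)
          rw [hbit] at this
          exact absurd this (by simp)
        | false =>
          rw [hq] at h
          cases hq2 : scanR r0 rest (k + 1) 0 with
          | true => rfl
          | false => rw [hq2] at h; exact absurd h (by simp)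
      obtain ⟨_, h2⟩ := scanR_spec r0 rest (k + 1) 0 hscan j hj (by
        intro j' hj' hc
        exact hmin (j' + 1) (by omega) (by omega) (by rw [List.getElem?_cons_succ]; exact hc))
        b (by omega)
      intro j' r' h3 h4 h5
      obtain ⟨j', rfl⟩ : ∃ l, j' = l + 1 := ⟨j' - 1, by omega⟩
      rw [List.getElem?_cons_succ] at h5
      exact h2 j' r' (by omega) h5
    | succ i =>
      rw [List.getElem?_cons_succ] at hi
      have := ih (k + 1) hrest i j (by omega) hi hj (by
        intro j' h1 h2 hc
        exact hmin (j' + 1) (by omega) (by omega) (by rw [List.getElem?_cons_succ]; exact hc))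
        (by rw [show k + 1 + j = k + (j + 1) by ring]; exact hbit) (by omega)
      intro j' r' h3 h4 h5
      obtain ⟨j', rfl⟩ : ∃ l, j' = l + 1 := ⟨j' - 1, by omega⟩
      rw [List.getElem?_cons_succ] at h5
      exact this j' r' (by omega) (by omega) h5

theorem ncs_of_ncR {w n s : ℕ} (hs : Eqv w s) (hn : n ≤ w)
    (h : ncR (mkRows w (2 ^ w - 1) n s) 0 = true) : NCs w s (List.range n) := by
  intro i k j l h1 h2 h3 hl hij hkl
  rw [List.length_range] at hl
  simp only [List.getElem_range] at hij hkl ⊢
  by_contra hik
  -- last slot of the class of `i` before `k`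
  classical
  have hrel : ∀ a b, a < n → b < n → (row w s a = row w s b ↔ s.testBit (w * a + b) = true) :=
    fun a b ha hb => row_eq_iff hs (by omega) (by omega)
  obtain ⟨i', hi'k, hi'r, hi'max⟩ : ∃ i', i' < k ∧ row w s i' = row w s i ∧
      ∀ p, i' < p → p < k → row w s p ≠ row w s i := by
    have hP : ∃ t, t < k ∧ row w s (k - 1 - t) = row w s i := ⟨k - 1 - i, by omega, by
      rw [show k - 1 - (k - 1 - i) = i by omega]⟩
    refine ⟨k - 1 - Nat.find hP, by omega, (Nat.find_spec hP).2, ?_⟩
    intro p hp1 hp2 hp3
    have := (Nat.find_spec hP).1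
    exact Nat.find_min hP (m := k - 1 - p) (by omega) ⟨by omega, by
      rw [show k - 1 - (k - 1 - p) = p by omega]; exact hp3⟩
  -- first slot of the class of `i` after `k`
  obtain ⟨j', hj'k, hj'j, hj'r, hj'min⟩ : ∃ j', k < j' ∧ j' ≤ j ∧ row w s j' = row w s i ∧
      ∀ p, k < p → p < j' → row w s p ≠ row w s i := by
    have hP : ∃ t, k < t ∧ row w s t = row w s i :=
      ⟨j, h2, ((hrel i j (by omega) (by omega)).2 hij).symm⟩
    refine ⟨Nat.find hP, (Nat.find_spec hP).1, ?_, (Nat.find_spec hP).2, ?_⟩
    · exact Nat.find_min' hP ⟨h2, ((hrel i j (by omega) (by omega)).2 hij).symm⟩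
    · intro p hp1 hp2 hp3
      exact Nat.find_min hP hp2 ⟨hp1, hp3⟩
  have hkr : row w s k ≠ row w s i := fun hc => hik ((hrel i k (by omega) (by omega)).1 hc.symm)
  have hget : ∀ p, p < n → (mkRows w (2 ^ w - 1) n s)[p]? = some (row w s p) :=
    fun p hp => mkRows_getElem? w n s p hp
  have key := ncR_spec (mkRows w (2 ^ w - 1) n s) 0 h i' j' (row w s i) (by omega)
    (by rw [hget i' (by omega), hi'r]) (by rw [hget j' (by omega), hj'r])
    (by
      intro p hp1 hp2 hp3
      rw [hget p (by omega), Option.some_inj] at hp3
      rcases Nat.lt_trichotomy p k with h4 | h4 | h4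
      · exact hi'max p hp1 h4 hp3
      · subst h4; exact hkr hp3
      · exact hj'min p h4 hp2 hp3)
    (by
      rw [Nat.zero_add, ← hj'r, testBit_row, hs.rfl' j' (by omega)]
      simp only [Bool.true_and, decide_eq_true_eq]
      omega) l (by omega) k (row w s k) (by omega) (by omega) (hget k (by omega))
  rw [testBit_row, hkl] at key
  simp only [Bool.true_and, decide_eq_false_iff_not] at key
  omega

open scoped Classical in
/-- **Codes which pass the kernel test are fillings by merges** of the face with the corners
`0, 1, .., n - 1`. -/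
theorem exists_fill_of_okK {w n s : ℕ} (hs : Eqv w s) (hn : n ≤ w)
    (h : okK w (2 ^ w - 1) n (Nat.shiftRight (idp w w) (Nat.mul w n)) s = true) :
    ∃ T : Fill, MOnly T ∧ ∀ (C : Type) [DecidableEq C] (d : ℕ → C),
      T.val ((List.range n).map d) = if Sat w s d then 1 else 0 := by
  have h1 : ncR (mkRows w (2 ^ w - 1) n s) 0 = true ∧
      s >>> (w * n) = (idp w w) >>> (w * n) := by
    unfold okK at h
    cases hq : Nat.beq (Nat.shiftRight s (Nat.mul w n))
      (Nat.shiftRight (idp w w) (Nat.mul w n)) with
    | true =>
      rw [hq] at h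
      exact ⟨h, Nat.eq_of_beq_eq_true hq⟩
    | false =>
      rw [hq] at h
      exact absurd h (by simp)
  refine exists_fill hs (fun p hp => by rw [List.mem_range] at hp; omega) ?_ (ncs_of_ncR hs hn h1.1)
  intro i j hi hj hij hne
  rw [List.mem_range]
  by_contra hc
  push Not at hc
  have hle : w * n ≤ w * i + j := by
    have := Nat.mul_le_mul_left w hc
    omega
  have h2 : (s >>> (w * n)).testBit (w * i + j - w * n) = true := by
    rw [Nat.testBit_shiftRight, show w * n + (w * i + j - w * n) = w * i + j by omega]
    exact hij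
  rw [h1.2, Nat.testBit_shiftRight, show w * n + (w * i + j - w * n) = w * i + j by omega,
    testBit_idp] at h2
  obtain ⟨a, ha, hb⟩ := h2
  have e1 : w * i + j = w * a + a := by rw [hb]; ring
  have a1 := idx (w := w) (i := i) hj
  have a2 := idx (w := w) (i := a) ha
  rw [e1] at a1
  omega

end Pool.Agent.U5C
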