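import Pool.Agent.U5C.Near5
import Pool.Agent.U5C.NCCheck

/-!
# Concrete parameters of the certificate
-/

set_option autoImplicit false

namespace Pool.Agent.U5C

open Pool.Agent.Helper1.PG (Fill)

/-- `2 ^ 19 - 1` -/
def RN : ℕ := 524287

/-- `cm 19 19` -/
def CN : ℕ := 8958996056640096847297303182376587736776546238637692220891576451570262185080341276681279522035712131073

/-- adjacency matrix of the ring -/
def AN : ℕ := 843325102976059986586032860933786493355703968920692999675720501250

/-- `idp 19 19` -/
def IN : ℕ := 2348544822520711394766649983319243604718292639443139896284737226965508056856758613559727860124747612283731969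

/-- mask of the rows `12, ..., 18` -/
def MN : ℕ := 4697085165547666455778961193578674054750933738669965331177867270823025736138438692616637347609839748299882496

/-- the rows `12, ..., 18` of the identity pattern -/
def JN : ℕ := 2348544822520711394766649983319243604718290954444866259792994067632603168872097690417466337945639659484741632

/-- the same, shifted -/
def XN : ℕ := 5444523063036825715121134756977784655872

theorem pwN : PW 19 RN CN := by
  refine ⟨by norm_num, by decide +kernel, by decide +kernel⟩

theorem AN_eq : AN = adj0 := by decide +kernel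
theorem IN_eq : IN = idp 19 19 := by decide +kernel
theorem XN_eq : XN = Nat.shiftRight (idp 19 19) (Nat.mul 19 12) := by decide +kernel

theorem lt_of_bit {A k : ℕ} (hA : A < 2 ^ 361) (hk : A.testBit k = true) : k < 361 := by
  by_contra hc
  have := Nat.testBit_lt_two_pow (lt_of_lt_of_le hA (Nat.pow_le_pow_right (by norm_num)
    (not_lt.1 hc)))
  rw [this] at hk
  exact absurd hk (by decide)

theorem bits_ok {A v : ℕ} (hA : A < 2 ^ 361)
    (h : ∀ k < 361, A.testBit k = true → k / 19 ≠ v ∧ k % 19 ≠ v) :
    ∀ k, A.testBit k = true → k / 19 ≠ v ∧ k % 19 ≠ v :=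
  fun k hk => h k (lt_of_bit hA hk) hk

theorem vok7 : VOK 19 vs7 AN := by
  refine ⟨by decide, by decide, bits_ok (by decide +kernel) (by decide +kernel), ?_⟩
  refine ⟨by decide, by decide, bits_ok (by decide +kernel) (by decide +kernel), ?_⟩
  refine ⟨by decide, by decide, bits_ok (by decide +kernel) (by decide +kernel), ?_⟩
  refine ⟨by decide, by decide, bits_ok (by decide +kernel) (by decide +kernel), ?_⟩
  refine ⟨by decide, by decide, bits_ok (by decide +kernel) (by decide +kernel), ?_⟩
  refine ⟨by decide, by decide, bits_ok (by decide +kernel) (by decide +kernel), ?_⟩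
  exact ⟨by decide, by decide, bits_ok (by decide +kernel) (by decide +kernel), trivial⟩

theorem vokA : VOK 19 vsA AN := by
  refine ⟨by decide, by decide, bits_ok (by decide +kernel) (by decide +kernel), ?_⟩
  refine ⟨by decide, by decide, bits_ok (by decide +kernel) (by decide +kernel), ?_⟩
  exact ⟨by decide, by decide, bits_ok (by decide +kernel) (by decide +kernel), trivial⟩

theorem vokA' : VOK 19 vsA' AN := by
  refine ⟨by decide, by decide, bits_ok (by decide +kernel) (by decide +kernel), ?_⟩
  refine ⟨by decide, by decide, bits_ok (by decide +kernel) (by decide +kernel), ?_⟩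
  exact ⟨by decide, by decide, bits_ok (by decide +kernel) (by decide +kernel), trivial⟩

theorem vokB : VOK 19 vsB AN := by
  refine ⟨by decide, by decide, bits_ok (by decide +kernel) (by decide +kernel), ?_⟩
  refine ⟨by decide, by decide, bits_ok (by decide +kernel) (by decide +kernel), ?_⟩
  exact ⟨by decide, by decide, bits_ok (by decide +kernel) (by decide +kernel), trivial⟩

theorem vokB' : VOK 19 vsB' AN := by
  refine ⟨by decide, by decide, bits_ok (by decide +kernel) (by decide +kernel), ?_⟩
  refine ⟨by decide, by decide, bits_ok (by decide +kernel) (by decide +kernel), ?_⟩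
  exact ⟨by decide, by decide, bits_ok (by decide +kernel) (by decide +kernel), trivial⟩

/-- the test for codes: noncrossing on the ring, inner slots free -/
noncomputable def tstN (s : ℕ) : Bool := okK 19 RN 12 XN s

open scoped Classical in
theorem tstN_fill {s : ℕ} (hs : Eqv 19 s) (h : tstN s = true) :
    ∃ T : Fill, ∀ (C : Type) [DecidableEq C] (d : ℕ → C),
      T.val (ringL.map d) = if Sat 19 s d then 1 else 0 := by
  have h' : okK 19 (2 ^ 19 - 1) 12 (Nat.shiftRight (idp 19 19) (Nat.mul 19 12)) s = true := by
    rw [← XN_eq]
    exact h
  obtain ⟨T, _, hT⟩ := exists_fill_of_okK hs (by norm_num) h'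
  exact ⟨T, hT⟩

/-- meaning of the ring test -/
theorem ringB_spec {s : ℕ} (h : ringB MN JN s = true) {i j : ℕ} (hi : 12 ≤ i) (hi' : i < 19)
    (hj : j < 19) (hij : s.testBit (19 * i + j) = true) : i = j := by
  have h1 : Nat.land s MN = JN := Nat.eq_of_beq_eq_true h
  have h2 : (s &&& MN).testBit (19 * i + j) = JN.testBit (19 * i + j) :=
    congrArg (fun x => Nat.testBit x (19 * i + j)) h1
  rw [Nat.testBit_and, hij, Bool.true_and] at h2
  have key : ∀ i < 19, 12 ≤ i → ∀ j < 19, MN.testBit (19 * i + j) = JN.testBit (19 * i + j) →
      i = j := by decide +kernel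
  exact key i hi' hi j hj h2

end Pool.Agent.U5C
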