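import Pool.Agent.U5C.NoFlat
import Pool.Agent.U5C.Setup
import Pool.Agent.Helper24.U5P.Ball

/-!
# The certificate excludes flat balls: concrete parameters
-/

set_option autoImplicit false

noncomputable section

namespace Pool.Agent.U5C

open Pool.Agent.U5 Pool.Agent.Helper24.U5P

/-- A certificate (with the concrete parameters of `Setup`) excludes flat balls of radius twelve. -/
theorem noFlat12 {p n : ℕ} {z : Dat} (hcert : Cert RN CN p n AN MN JN z) :
    ∃ c0 : ℝ, 0 < c0 ∧ NoFlat plCls c0 12 := by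
  refine noFlat_of_cert (r := 12) pwN AN_eq vok7 vokA vokA' vokB vokB'
    (fun s _ h => fun i j hi hi' hj hij => ringB_spec h hi hi' hj hij) hcert ?_
  intro V _ H S s hf hS
  obtain ⟨φ, h1, h2⟩ := exists_hex hf hS
  exact ⟨φ, h1, fun a b ha hb _ => h2 a b ha hb⟩

theorem tst_eq : tstK = tstN := by
  funext s
  unfold tstK tstN
  rw [XN_eq]
  rfl

/-- the same for helper50's test -/
theorem noFlat12N {p n : ℕ} {z : Dat}
    (hcert : ∃ δ : ℝ, 0 < δ ∧ ∃ c : ℝ, 0 < c ∧ ∀ q : ℝ, |q - 5| < δ → ∀ (PH PX : ℝ)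
      (Φ0 Φ1 : ℕ → ℝ), 0 ≤ PX → Win RN CN p n AN MN JN tstN z q PH PX Φ0 Φ1 → c * PX ≤ PH) :
    ∃ c0 : ℝ, 0 < c0 ∧ NoFlat plCls c0 12 := by
  rw [← tst_eq] at hcert
  exact noFlat12 hcert

end Pool.Agent.U5C
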