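import Mathlib

/-!
# Calculus of disc contents, executable part

MP_0d034c_co, certificate for flat patches.  A content of a disc is a formal combination of
identification patterns of `w` slots.  A pattern is coded by the bit matrix of an equivalence
relation (bit `w * i + j` is set iff `i ~ j`).  All functions are written with recursors and raw
functions on `ℕ`, for evaluation by the kernel.
-/

set_option autoImplicit false

noncomputable section

namespace Pool.Agent.U5C

/-- force the evaluation of a natural number -/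
def frc {α : Type} (n : ℕ) (f : ℕ → α) : α :=
  @Nat.rec (fun _ => α) (f 0) (fun m _ => f (Nat.succ m)) n

/-- formal combinations -/
inductive FL (K : Type) where
  | nil : FL K
  | cons : ℕ → K → FL K → FL K

/-- binary tries with formal combinations at the leaves -/
inductive Tr (K : Type) where
  | lf : FL K → Tr K
  | nd : Tr K → Tr K → Tr K

/-- `∑_{i < n} 2 ^ (w i)` -/
def cm (w : ℕ) (n : ℕ) : ℕ :=
  @Nat.rec (fun _ => ℕ) 0 (fun _ ih => Nat.add (Nat.mul (Nat.pow 2 w) ih) 1) n

/-- identity pattern: `∑_{i < n} 2 ^ ((w + 1) i)` -/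
def idp (w : ℕ) (n : ℕ) : ℕ :=
  @Nat.rec (fun _ => ℕ) 0 (fun n ih => Nat.add ih (Nat.pow 2 (Nat.mul (Nat.succ w) n))) n

/-- identify slots `a` and `b` -/
def mrg (w R C a b s : ℕ) : ℕ :=
  Nat.lor s (Nat.lor
    (Nat.mul (Nat.land (Nat.shiftRight s a) C) (Nat.land (Nat.shiftRight s (Nat.mul w b)) R))
    (Nat.mul (Nat.land (Nat.shiftRight s b) C) (Nat.land (Nat.shiftRight s (Nat.mul w a)) R)))

/-- bit matrix of the star with centre `v` -/
def star (w v : ℕ) (L : List ℕ) : ℕ :=
  @List.rec ℕ (fun _ => ℕ) 0 (fun u _ ih =>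
    Nat.lor (Nat.pow 2 (Nat.add (Nat.mul w v) u))
      (Nat.lor (Nat.pow 2 (Nat.add (Nat.mul w u) v)) ih)) L

/-- clears row and column `v` except for the diagonal bit -/
def keep (w R C v : ℕ) : ℕ :=
  Nat.lor (Nat.xor (Nat.sub (Nat.pow 2 (Nat.mul w w)) 1)
    (Nat.lor (Nat.shiftLeft R (Nat.mul w v)) (Nat.shiftLeft C v)))
    (Nat.pow 2 (Nat.add (Nat.mul w v) v))

section

variable {K : Type} (neg mq : K → K) (add : K → K → K) (w R C : ℕ)

/-- multiply by `1 - e_ab` -/
def mulNE (adj a b : ℕ) (L : FL K) : FL K :=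
  @FL.rec K (fun _ => FL K) FL.nil (fun s c _ ih =>
    @Bool.rec (fun _ => FL K)
      (frc (mrg w R C a b s) fun s' =>
        @Bool.rec (fun _ => FL K) (FL.cons s c ih) (FL.cons s c (FL.cons s' (neg c) ih))
          (Nat.beq (Nat.land s' adj) 0))
      ih
      (Nat.beq (Nat.land (Nat.shiftRight s (Nat.add (Nat.mul w a) b)) 1) 1)) L

/-- multiply by `∏_{u ∈ us} (1 - e_bu)` -/
def mulNEs (adj b : ℕ) (us : List ℕ) (L : FL K) : FL K :=
  @List.rec ℕ (fun _ => FL K → FL K) (fun L => L)
    (fun u _ ih L => ih (mulNE neg w R C adj b u L)) us L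

/-- add a term to an association list -/
def addA (s : ℕ) (c : K) (L : FL K) : FL K :=
  @FL.rec K (fun _ => FL K) (FL.cons s c FL.nil) (fun t c' tl ih =>
    @Bool.rec (fun _ => FL K) (FL.cons t c' ih) (FL.cons t (add c' c) tl) (Nat.beq s t)) L

/-- add a term to a trie; the path is given by the bits of `h` -/
def Tr.ins (s : ℕ) (c : K) (T : Tr K) (h : ℕ) : Tr K :=
  @Tr.rec K (fun _ => ℕ → Tr K) (fun L _ => Tr.lf (addA add s c L))
    (fun l r ihl ihr h => frc h fun h =>
      @Bool.rec (fun _ => Tr K) (Tr.nd l (ihr (Nat.div h 2)))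
        (Tr.nd (ihl (Nat.div h 2)) r) (Nat.beq (Nat.mod h 2) 0)) T h

/-- empty trie of depth `n` -/
def Tr.emp (K : Type) (n : ℕ) : Tr K :=
  @Nat.rec (fun _ => Tr K) (Tr.lf FL.nil) (fun _ ih => Tr.nd ih ih) n

/-- add all terms of a list -/
def insAll (p : ℕ) (L : FL K) (T : Tr K) : Tr K :=
  @FL.rec K (fun _ => Tr K → Tr K) (fun T => T)
    (fun s c _ ih T => ih (T.ins add s c (Nat.mod s p))) L T

/-- add `- ∑_u ∏_{u' before u} (1 - e_uu')` times the term `(s, c)` -/
def elimGo (adj s : ℕ) (c : K) (nb : List ℕ) (E : List ℕ) (p : ℕ) (T : Tr K) : Tr K :=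
  @List.rec ℕ (fun _ => List ℕ → Tr K → Tr K) (fun _ T => T)
    (fun u _ ih E T =>
      ih (u :: E) (insAll add p (mulNEs neg w R C adj u E (FL.cons s (neg c) FL.nil)) T)) nb E T

/-- eliminate the slot `v` with neighbours `nb` from the term `(s, c)`, add the result to `T` -/
def elimT (adj v kp : ℕ) (nb : List ℕ) (p : ℕ) (s : ℕ) (c : K) (T : Tr K) : Tr K :=
  frc (Nat.xor (Nat.land (Nat.shiftRight s (Nat.mul w v)) R) (Nat.pow 2 v)) fun r =>
    @Bool.rec (fun _ => Tr K)
      (frc (Nat.log2 r) fun b =>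
        insAll add p (mulNEs neg w R C adj b nb (FL.cons (Nat.land s kp) c FL.nil)) T)
      (elimGo neg add w R C adj s c nb [] p (T.ins add s (mq c) (Nat.mod s p)))
      (Nat.beq r 0)

/-- eliminate a slot from all terms of a list -/
def elimL (adj v kp : ℕ) (nb : List ℕ) (p : ℕ) (L : FL K) (T : Tr K) : Tr K :=
  @FL.rec K (fun _ => Tr K → Tr K) (fun T => T)
    (fun s c _ ih T => ih (elimT neg mq add w R C adj v kp nb p s c T)) L T

/-- eliminate a slot from all terms of a trie -/
def elimA (adj v kp : ℕ) (nb : List ℕ) (p : ℕ) (T0 : Tr K) (T : Tr K) : Tr K :=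
  @Tr.rec K (fun _ => Tr K → Tr K) (fun L T => elimL neg mq add w R C adj v kp nb p L T)
    (fun _ _ ihl ihr T => ihr (ihl T)) T0 T

/-- eliminate the slots `vs` (the last one first) from the combination `T0` -/
def expand (p n : ℕ) (T0 : Tr K) (vs : List (ℕ × List ℕ)) (adj : ℕ) : Tr K :=
  @List.rec (ℕ × List ℕ) (fun _ => ℕ → Tr K) (fun _ => T0)
    (fun v _ ih adj => frc adj fun adj => frc (keep w R C v.1) fun kp =>
      elimA neg mq add w R C adj v.1 kp v.2 p (ih (Nat.lor adj (star w v.1 v.2))) (Tr.emp K n))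
    vs adj

end

end Pool.Agent.U5C
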