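import Pool.Agent.U5C.Alg

/-!
# Bit matrices of equivalence relations
-/

set_option autoImplicit false

namespace Pool.Agent.U5C

theorem frc_eq {α : Type} (n : ℕ) (f : ℕ → α) : frc n f = f n := by
  cases n <;> rfl

theorem testBit_one' (k : ℕ) : (1 : ℕ).testBit k = decide (k = 0) := by
  rw [Bool.eq_iff_iff, Nat.testBit_one_eq_true_iff_self_eq_zero, decide_eq_true_eq]

theorem cm_zero (w : ℕ) : cm w 0 = 0 := rfl
theorem cm_succ (w n : ℕ) : cm w (n + 1) = 2 ^ w * cm w n + 1 := rfl

theorem testBit_cm {w : ℕ} (hw : 0 < w) (n k : ℕ) :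
    (cm w n).testBit k = decide (k % w = 0 ∧ k / w < n) := by
  induction n generalizing k with
  | zero => simp [cm_zero]
  | succ n ih =>
    rw [cm_succ, Nat.testBit_two_pow_mul_add (cm w n) (Nat.one_lt_two_pow hw.ne') k]
    by_cases h : k < w
    · rw [if_pos h, Nat.mod_eq_of_lt h, Nat.div_eq_of_lt h, testBit_one']
      simp
    · push Not at h
      rw [if_neg (not_lt.2 h), ih]
      have h1 : (k - w) % w = k % w := by
        conv_rhs => rw [← Nat.sub_add_cancel h, Nat.add_mod_right]
      have h2 : (k - w) / w + 1 = k / w := by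
        conv_rhs => rw [← Nat.sub_add_cancel h, Nat.add_div_right _ hw]
      rw [h1, ← h2]
      simp

/-- the bits of a product of a sparse number and a small number -/
theorem testBit_spread {w : ℕ} (hw : 0 < w) (n X Y : ℕ)
    (hX : ∀ k, X.testBit k = true → k % w = 0 ∧ k / w < n) (hY : Y < 2 ^ w) (k : ℕ) :
    (X * Y).testBit k = (X.testBit (w * (k / w)) && Y.testBit (k % w)) := by
  induction n generalizing X k with
  | zero =>
    have : X = 0 := by
      apply Nat.eq_of_testBit_eq
      intro j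
      rw [Nat.zero_testBit]
      by_contra hc
      rw [Bool.not_eq_false] at hc
      exact absurd (hX j hc).2 (Nat.not_lt_zero _)
    subst this
    simp
  | succ n ih =>
    have hX0 : X % 2 ^ w < 2 := by
      have : X % 2 ^ w = X % 2 := by
        apply Nat.eq_of_testBit_eq
        intro j
        rw [Nat.testBit_mod_two_pow]
        have e2 : X % 2 = X % 2 ^ 1 := rfl
        rw [e2, Nat.testBit_mod_two_pow]
        by_cases hj : j < 1
        · have : j < w := by omega
          simp [hj, this]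
        · simp only [hj, decide_false, Bool.false_and]
          by_cases hjw : j < w
          · simp only [hjw, decide_true, Bool.true_and]
            by_contra hc
            rw [Bool.not_eq_false] at hc
            have := (hX j hc).1
            rw [Nat.mod_eq_of_lt hjw] at this
            omega
          · simp [hjw]
      rw [this]; exact Nat.mod_lt _ (by norm_num)
    have hdec : X = 2 ^ w * (X / 2 ^ w) + X % 2 ^ w := (Nat.div_add_mod X (2 ^ w)).symm
    have hprod : X * Y = 2 ^ w * (X / 2 ^ w * Y) + X % 2 ^ w * Y := by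
      conv_lhs => rw [hdec]
      ring
    have hlt : X % 2 ^ w * Y < 2 ^ w := by
      rcases Nat.lt_or_ge (X % 2 ^ w) 1 with h | h
      · have : X % 2 ^ w = 0 := by omega
        rw [this, zero_mul]; exact Nat.two_pow_pos w
      · have : X % 2 ^ w = 1 := by omega
        rw [this, one_mul]; exact hY
    have hX' : ∀ k, (X / 2 ^ w).testBit k = true → k % w = 0 ∧ k / w < n := by
      intro j hj
      rw [Nat.testBit_div_two_pow] at hj
      have := hX _ hj
      rw [Nat.add_mod_right, Nat.add_div_right _ hw] at this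
      exact ⟨this.1, by omega⟩
    rw [hprod, Nat.testBit_two_pow_mul_add _ hlt k]
    by_cases h : k < w
    · rw [if_pos h, Nat.div_eq_of_lt h, Nat.mod_eq_of_lt h, mul_zero]
      have hb : X.testBit 0 = (X % 2 ^ w).testBit 0 := by
        rw [Nat.testBit_mod_two_pow]; simp [hw]
      rw [hb]
      rcases Nat.lt_or_ge (X % 2 ^ w) 1 with h' | h'
      · have : X % 2 ^ w = 0 := by omega
        rw [this]; simp
      · have : X % 2 ^ w = 1 := by omega
        rw [this]; simp
    · push Not at h
      rw [if_neg (not_lt.2 h), ih _ hX']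
      have h1 : (k - w) % w = k % w := by
        conv_rhs => rw [← Nat.sub_add_cancel h, Nat.add_mod_right]
      have h2 : (k - w) / w + 1 = k / w := by
        conv_rhs => rw [← Nat.sub_add_cancel h, Nat.add_div_right _ hw]
      rw [h1, Nat.testBit_div_two_pow, ← h2]
      congr 2

/-- bit matrix of an equivalence relation on `w` slots -/
structure Eqv (w s : ℕ) : Prop where
  lt : ∀ k, s.testBit k = true → k < w * w
  rfl' : ∀ i, i < w → s.testBit (w * i + i) = true
  symm : ∀ i j, i < w → j < w → s.testBit (w * i + j) = true → s.testBit (w * j + i) = true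
  trans : ∀ i j k, i < w → j < w → k < w → s.testBit (w * i + j) = true →
    s.testBit (w * j + k) = true → s.testBit (w * i + k) = true

/-- the parameters are right -/
structure PW (w R C : ℕ) : Prop where
  pos : 0 < w
  eR : R = 2 ^ w - 1
  eC : C = cm w w

theorem PW.mk' {w : ℕ} (hw : 0 < w) : PW w (2 ^ w - 1) (cm w w) := ⟨hw, rfl, rfl⟩

theorem PW.col {w R C : ℕ} (h : PW w R C) (s a k : ℕ) :
    (Nat.land (Nat.shiftRight s a) C).testBit k =
      (s.testBit (a + k) && decide (k % w = 0 ∧ k / w < w)) := by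
  show ((s >>> a) &&& C).testBit k = _
  rw [Nat.testBit_and, Nat.testBit_shiftRight, h.eC, testBit_cm h.pos]

theorem PW.row {w R C : ℕ} (h : PW w R C) (s a k : ℕ) :
    (Nat.land (Nat.shiftRight s a) R).testBit k = (s.testBit (a + k) && decide (k < w)) := by
  show ((s >>> a) &&& R).testBit k = _
  rw [Nat.testBit_and, Nat.testBit_shiftRight, h.eR, Nat.testBit_two_pow_sub_one]

theorem PW.row_lt {w R C : ℕ} (h : PW w R C) (s a : ℕ) :
    Nat.land (Nat.shiftRight s a) R < 2 ^ w := by
  have h1 : Nat.land (Nat.shiftRight s a) R ≤ R := Nat.and_le_right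
  have h2 : 0 < 2 ^ w := Nat.two_pow_pos w
  have := h.eR
  omega

theorem PW.prod {w R C : ℕ} (h : PW w R C) (s a b k : ℕ) :
    (Nat.mul (Nat.land (Nat.shiftRight s a) C) (Nat.land (Nat.shiftRight s (Nat.mul w b)) R)).testBit k
      = (s.testBit (w * (k / w) + a) && decide (k / w < w) && s.testBit (w * b + k % w)) := by
  have e := testBit_spread h.pos w (Nat.land (Nat.shiftRight s a) C)
    (Nat.land (Nat.shiftRight s (Nat.mul w b)) R)
    (by
      intro j hj
      rw [h.col, Bool.and_eq_true, decide_eq_true_eq] at hj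
      exact hj.2) (h.row_lt _ _) k
  refine e.trans ?_
  rw [h.col, h.row]
  have h1 : w * (k / w) % w = 0 := Nat.mul_mod_right w _
  have h2 : w * (k / w) / w = k / w := Nat.mul_div_cancel_left _ h.pos
  have h3 : k % w < w := Nat.mod_lt _ h.pos
  rw [h1, h2]
  simp only [true_and, h3, decide_true, Bool.and_true]
  rw [Nat.add_comm a]
  rfl

theorem PW.testBit_mrg {w R C : ℕ} (h : PW w R C) (a b s k : ℕ) :
    (mrg w R C a b s).testBit k = true ↔ (s.testBit k = true ∨
      (k / w < w ∧ s.testBit (w * (k / w) + a) = true ∧ s.testBit (w * b + k % w) = true) ∨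
      (k / w < w ∧ s.testBit (w * (k / w) + b) = true ∧ s.testBit (w * a + k % w) = true)) := by
  have e : mrg w R C a b s = s ||| ((Nat.mul (Nat.land (Nat.shiftRight s a) C)
      (Nat.land (Nat.shiftRight s (Nat.mul w b)) R)) ||| (Nat.mul (Nat.land (Nat.shiftRight s b) C)
      (Nat.land (Nat.shiftRight s (Nat.mul w a)) R))) := rfl
  rw [e, Nat.testBit_or, Nat.testBit_or, h.prod, h.prod]
  simp only [Bool.or_eq_true, Bool.and_eq_true, decide_eq_true_eq]
  tauto

theorem idx {w i j : ℕ} (hj : j < w) : (w * i + j) / w = i ∧ (w * i + j) % w = j := by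
  have hw : 0 < w := by omega
  refine ⟨?_, ?_⟩
  · rw [Nat.mul_add_div hw, Nat.div_eq_of_lt hj, add_zero]
  · rw [Nat.mul_add_mod, Nat.mod_eq_of_lt hj]

theorem PW.mrg_ij {w R C : ℕ} (h : PW w R C) (a b s : ℕ) {i j : ℕ} (hi : i < w) (hj : j < w) :
    (mrg w R C a b s).testBit (w * i + j) = true ↔ (s.testBit (w * i + j) = true ∨
      (s.testBit (w * i + a) = true ∧ s.testBit (w * b + j) = true) ∨
      (s.testBit (w * i + b) = true ∧ s.testBit (w * a + j) = true)) := by
  rw [h.testBit_mrg, (idx hj).1, (idx hj).2]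
  simp [hi]

theorem idx_lt {w i j : ℕ} (hi : i < w) (hj : j < w) : w * i + j < w * w := by
  calc w * i + j < w * i + w := by omega
    _ = w * (i + 1) := by ring
    _ ≤ w * w := Nat.mul_le_mul_left _ hi

theorem Eqv.mrg {w R C s : ℕ} (h : PW w R C) (hs : Eqv w s) {a b : ℕ} (ha : a < w) (hb : b < w) :
    Eqv w (mrg w R C a b s) := by
  refine ⟨?_, ?_, ?_, ?_⟩
  · intro k hk
    rw [h.testBit_mrg] at hk
    have key : k / w < w → k < w * w := fun h1 => by
      rwa [Nat.div_lt_iff_lt_mul h.pos] at h1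
    rcases hk with hk | ⟨h1, _⟩ | ⟨h1, _⟩
    · exact hs.lt k hk
    · exact key h1
    · exact key h1
  · intro i hi
    rw [h.mrg_ij a b s hi hi]
    exact Or.inl (hs.rfl' i hi)
  · intro i j hi hj hij
    rw [h.mrg_ij a b s hi hj] at hij
    rw [h.mrg_ij a b s hj hi]
    rcases hij with h1 | ⟨h1, h2⟩ | ⟨h1, h2⟩
    · exact Or.inl (hs.symm _ _ hi hj h1)
    · exact Or.inr (Or.inr ⟨hs.symm _ _ hb hj h2, hs.symm _ _ hi ha h1⟩)
    · exact Or.inr (Or.inl ⟨hs.symm _ _ ha hj h2, hs.symm _ _ hi hb h1⟩)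
  · intro i j k hi hj hk hij hjk
    rw [h.mrg_ij a b s hi hj] at hij
    rw [h.mrg_ij a b s hj hk] at hjk
    rw [h.mrg_ij a b s hi hk]
    have tr := fun (x y z : ℕ) (hx : x < w) (hy : y < w) (hz : z < w) => hs.trans x y z hx hy hz
    rcases hij with h1 | ⟨h1, h2⟩ | ⟨h1, h2⟩ <;> rcases hjk with h3 | ⟨h3, h4⟩ | ⟨h3, h4⟩
    · exact Or.inl (tr _ _ _ hi hj hk h1 h3)
    · exact Or.inr (Or.inl ⟨tr _ _ _ hi hj ha h1 h3, h4⟩)
    · exact Or.inr (Or.inr ⟨tr _ _ _ hi hj hb h1 h3, h4⟩)
    · exact Or.inr (Or.inl ⟨h1, tr _ _ _ hb hj hk h2 h3⟩)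
    · -- i ~ a, b ~ j, j ~ a, b ~ k
      exact Or.inr (Or.inl ⟨h1, h4⟩)
    · -- i ~ a, b ~ j, j ~ b, a ~ k
      exact Or.inl (tr _ _ _ hi ha hk h1 h4)
    · exact Or.inr (Or.inr ⟨h1, tr _ _ _ ha hj hk h2 h3⟩)
    · exact Or.inl (tr _ _ _ hi hb hk h1 h4)
    · exact Or.inr (Or.inr ⟨h1, h4⟩)

/-- the colouring `d` satisfies the identifications of `s` -/
def Sat {κ : Type} (w s : ℕ) (d : ℕ → κ) : Prop :=
  ∀ k, s.testBit k = true → d (k / w) = d (k % w)

/-- `d` is proper on the graph with bit matrix `adj` -/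
def Prp {κ : Type} (w adj : ℕ) (d : ℕ → κ) : Prop :=
  ∀ k, adj.testBit k = true → d (k / w) ≠ d (k % w)

theorem sat_ij {κ : Type} {w s : ℕ} {d : ℕ → κ} (h : Sat w s d) {i j : ℕ} (hj : j < w)
    (hij : s.testBit (w * i + j) = true) : d i = d j := by
  have := h _ hij
  rwa [(idx hj).1, (idx hj).2] at this

theorem sat_iff {κ : Type} {w s : ℕ} (hw : 0 < w) (hs : Eqv w s) (d : ℕ → κ) :
    Sat w s d ↔ ∀ i j, i < w → j < w → s.testBit (w * i + j) = true → d i = d j := by
  constructor
  · intro h i j _ hj hij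
    exact sat_ij h hj hij
  · intro h k hk
    have h1 : k < w * w := hs.lt k hk
    have h2 : k / w < w := by rwa [Nat.div_lt_iff_lt_mul hw]
    have h3 : k % w < w := Nat.mod_lt _ hw
    apply h _ _ h2 h3
    rw [Nat.div_add_mod]; exact hk

theorem sat_mrg {κ : Type} {w R C s : ℕ} (h : PW w R C) (hs : Eqv w s) {a b : ℕ} (ha : a < w)
    (hb : b < w) (d : ℕ → κ) : Sat w (mrg w R C a b s) d ↔ Sat w s d ∧ d a = d b := by
  rw [sat_iff h.pos (hs.mrg h ha hb), sat_iff h.pos hs]
  constructor
  · intro h1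
    refine ⟨?_, ?_⟩
    · intro i j hi hj hij
      exact h1 i j hi hj ((h.mrg_ij a b s hi hj).2 (Or.inl hij))
    · exact h1 a b ha hb ((h.mrg_ij a b s ha hb).2 (Or.inr (Or.inl ⟨hs.rfl' a ha, hs.rfl' b hb⟩)))
  · rintro ⟨h1, h2⟩ i j hi hj hij
    rcases (h.mrg_ij a b s hi hj).1 hij with h3 | ⟨h3, h4⟩ | ⟨h3, h4⟩
    · exact h1 i j hi hj h3
    · exact (h1 i a hi ha h3).trans (h2.trans (h1 b j hb hj h4))
    · exact (h1 i b hi hb h3).trans (h2.symm.trans (h1 a j ha hj h4))

/-- a conflict with the adjacency matrix -/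
theorem not_sat_of_adj {κ : Type} {w s adj : ℕ} {d : ℕ → κ} (hd : Prp w adj d)
    (h : Nat.land s adj ≠ 0) : ¬ Sat w s d := by
  intro hs
  obtain ⟨k, hk⟩ := Nat.exists_testBit_of_ne_zero h
  have hk' : (s &&& adj).testBit k = true := hk
  rw [Nat.testBit_and, Bool.and_eq_true] at hk'
  exact hd k hk'.2 (hs k hk'.1)

theorem idp_succ (w n : ℕ) : idp w (n + 1) = idp w n + 2 ^ ((w + 1) * n) := rfl

theorem idp_lt (w n : ℕ) : idp w n < 2 ^ ((w + 1) * n) ∨ n = 0 := by
  induction n with
  | zero => exact Or.inr rfl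
  | succ n ih =>
    left
    rw [idp_succ]
    have h1 : idp w n < 2 ^ ((w + 1) * n) ∨ idp w n = 0 := by
      rcases ih with h | h
      · exact Or.inl h
      · subst h; exact Or.inr rfl
    have h2 : 0 < 2 ^ ((w + 1) * n) := Nat.two_pow_pos _
    have h3 : 2 * 2 ^ ((w + 1) * n) ≤ 2 ^ ((w + 1) * (n + 1)) := by
      rw [← pow_succ']
      exact Nat.pow_le_pow_right (by norm_num) (by ring_nf; omega)
    omega

theorem testBit_idp (w n k : ℕ) :
    (idp w n).testBit k = true ↔ ∃ i, i < n ∧ k = (w + 1) * i := by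
  induction n generalizing k with
  | zero => simp [idp]
  | succ n ih =>
    have hlt : idp w n < 2 ^ ((w + 1) * n) := by
      rcases idp_lt w n with h | h
      · exact h
      · subst h; show 0 < _; positivity
    rw [idp_succ]
    have e : idp w n + 2 ^ ((w + 1) * n) = 2 ^ ((w + 1) * n) * 1 + idp w n := by ring
    rw [e, Nat.testBit_two_pow_mul_add _ hlt]
    by_cases h : k < (w + 1) * n
    · rw [if_pos h, ih]
      constructor
      · rintro ⟨i, h1, h2⟩; exact ⟨i, by omega, h2⟩
      · rintro ⟨i, h1, h2⟩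
        refine ⟨i, ?_, h2⟩
        subst h2
        exact Nat.lt_of_mul_lt_mul_left h
    · rw [if_neg h, testBit_one']
      push Not at h
      constructor
      · intro h1
        simp only [decide_eq_true_eq] at h1
        exact ⟨n, by omega, by omega⟩
      · rintro ⟨i, h1, h2⟩
        have h3 : i = n := by
          have h4 : n ≤ i := by
            by_contra hc
            push Not at hc
            have h5 : (w + 1) * i < (w + 1) * n := Nat.mul_lt_mul_of_pos_left hc (by omega)
            omega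
          omega
        subst h3
        simp only [decide_eq_true_eq]
        omega

theorem eqv_idp {w : ℕ} : Eqv w (idp w w) := by
  have key : ∀ i j, i < w → j < w → ((idp w w).testBit (w * i + j) = true ↔ i = j) := by
    intro i j hi hj
    rw [testBit_idp]
    constructor
    · rintro ⟨l, h1, h2⟩
      have h3 : w * i + j = w * l + l := by rw [h2]; ring
      have a1 := idx (w := w) (i := i) hj
      have a2 := idx (w := w) (i := l) h1
      rw [h3] at a1
      omega
    · rintro rfl
      exact ⟨i, hi, by ring⟩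
  refine ⟨?_, ?_, ?_, ?_⟩
  · intro k hk
    rw [testBit_idp] at hk
    obtain ⟨i, h1, h2⟩ := hk
    rw [h2]
    have := idx_lt h1 h1
    have e : (w + 1) * i = w * i + i := by ring
    omega
  · intro i hi; exact (key i i hi hi).2 rfl
  · intro i j hi hj h
    rw [key i j hi hj] at h
    exact (key j i hj hi).2 h.symm
  · intro i j k hi hj hk h1 h2
    rw [key i j hi hj] at h1
    rw [key j k hj hk] at h2
    exact (key i k hi hk).2 (h1.trans h2)

theorem sat_idp {κ : Type} (w : ℕ) (d : ℕ → κ) : Sat w (idp w w) d := by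
  intro k hk
  rw [testBit_idp] at hk
  obtain ⟨i, h1, h2⟩ := hk
  have e : k = w * i + i := by rw [h2]; ring
  rw [e, (idx h1).1, (idx h1).2]

end Pool.Agent.U5C
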