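import Pool.Agent.U5C.Final

/-!
# From the kernel check at `5` to an inequality near `5`
-/

set_option autoImplicit false

noncomputable section

namespace Pool.Agent.U5C

open Polynomial
open Pool.Agent.Helper1.PG (Fill)

/-! ### the three coefficient systems -/

def negX (c : ℤ[X]) : ℤ[X] := - c
def mqX (c : ℤ[X]) : ℤ[X] := X * c
def addX (c d : ℤ[X]) : ℤ[X] := c + d
def smX (n : ℕ) (c : ℤ[X]) : ℤ[X] := (n : ℤ[X]) * c
def cstX (n : ℕ) : ℤ[X] := (n : ℤ[X])

def negZ (c : ℤ) : ℤ := - c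
def mqZ (c : ℤ) : ℤ := 5 * c
def addZ (c d : ℤ) : ℤ := c + d
def smZ (n : ℕ) (c : ℤ) : ℤ := (n : ℤ) * c
def cstZ (n : ℕ) : ℤ := (n : ℤ)

def sm2 (n : ℕ) (c : K2) : K2 := (Nat.mul n c.1, Nat.mul n c.2)
def cst2 (n : ℕ) : K2 := (n, 0)

/-- homomorphisms -/
structure HmS {K K' : Type} (neg mq : K → K) (add : K → K → K) (sm : ℕ → K → K) (cst : ℕ → K)
    (neg' mq' : K' → K') (add' : K' → K' → K') (sm' : ℕ → K' → K') (cst' : ℕ → K')
    (φ : K → K') : Prop extends Hm neg mq add neg' mq' add' φ where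
  sm : ∀ n c, φ (sm n c) = sm' n (φ c)
  cst : ∀ n, φ (cst n) = cst' n

theorem hs5 : HmS negX mqX addX smX cstX negZ mqZ addZ smZ cstZ (fun c => c.eval 5) := by
  refine ⟨⟨?_, ?_, ?_⟩, ?_, ?_⟩
  · intro c; simp [negX, negZ]
  · intro c; simp [mqX, mqZ]
  · intro c d; simp [addX, addZ]
  · intro n c; simp [smX, smZ]
  · intro n; simp [cstX, cstZ]

theorem hs2 : HmS neg2 mq2 add2 sm2 cst2 negZ mqZ addZ smZ cstZ i2 := by
  refine ⟨⟨?_, ?_, ?_⟩, ?_, ?_⟩
  · intro c
    show (c.2 : ℤ) - c.1 = -((c.1 : ℤ) - c.2)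
    ring
  · intro c
    show ((5 * c.1 : ℕ) : ℤ) - ((5 * c.2 : ℕ) : ℤ) = 5 * ((c.1 : ℤ) - c.2)
    push_cast; ring
  · intro c d
    show ((c.1 + d.1 : ℕ) : ℤ) - ((c.2 + d.2 : ℕ) : ℤ) = ((c.1 : ℤ) - c.2) + ((d.1 : ℤ) - d.2)
    push_cast; ring
  · intro n c
    show ((n * c.1 : ℕ) : ℤ) - ((n * c.2 : ℕ) : ℤ) = (n : ℤ) * ((c.1 : ℤ) - c.2)
    push_cast; ring
  · intro n
    show (n : ℤ) - ((0 : ℕ) : ℤ) = (n : ℤ)
    simp

theorem ipq (q : ℝ) : Ip negX mqX addX (fun c : ℤ[X] => aeval q c) q := by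
  refine ⟨?_, ?_, ?_⟩
  · intro c; simp [negX]
  · intro c; simp [mqX]
  · intro c d; simp [addX]

/-! ### naturality of the program -/

section

variable {K K' : Type} {neg mq : K → K} {add : K → K → K} {sm : ℕ → K → K} {cst : ℕ → K}
  {neg' mq' : K' → K'} {add' : K' → K' → K'} {sm' : ℕ → K' → K'} {cst' : ℕ → K'} {φ : K → K'}
variable {R C p n a0 : ℕ}

theorem map_colC (h : Hm neg mq add neg' mq' add' φ) (a : ℕ) (l : List ℕ) (c : K) (T : Fill) :
    (colC neg R C a l c T).map φ = colC neg' R C a l (φ c) T := by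
  unfold colC
  rw [map_colF h]; rfl

theorem map_addCols (h : HmS neg mq add sm cst neg' mq' add' sm' cst' φ)
    (cols : List (ℕ × Fill)) (T : Tr K) : (addCols neg add cst R C p a0 cols T).map φ =
      addCols neg' add' cst' R C p a0 cols (T.map φ) := by
  induction cols generalizing T with
  | nil => rfl
  | cons e cols ih =>
    show (addCols neg add cst R C p a0 cols
      (insAll add p (colC neg R C a0 ringL (cst e.1) e.2) T)).map φ =
      addCols neg' add' cst' R C p a0 cols
      (insAll add' p (colC neg' R C a0 ringL (cst' e.1) e.2) (T.map φ))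
    rw [ih, map_insAll h.toHm, map_colC h.toHm, h.cst]

/-- the recursion behind `flux` -/
def fluxGo (neg : K → K) (add : K → K → K) (cst : ℕ → K) (R C p : ℕ) (l : List ℕ)
    (G : List ((ℕ × ℕ) × Fill)) (T : Tr K) : Tr K :=
  @List.rec ((ℕ × ℕ) × Fill) (fun _ => Tr K → Tr K) (fun T => T)
    (fun e _ ih T => ih (insAll add p
      (colC neg R C 0 l (add (cst e.1.1) (neg (cst e.1.2))) e.2) T)) G T

theorem map_fluxGo (h : HmS neg mq add sm cst neg' mq' add' sm' cst' φ) (l : List ℕ)
    (G : List ((ℕ × ℕ) × Fill)) (T : Tr K) : (fluxGo neg add cst R C p l G T).map φ =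
      fluxGo neg' add' cst' R C p l G (T.map φ) := by
  induction G generalizing T with
  | nil => rfl
  | cons e G ih =>
    show (fluxGo neg add cst R C p l G (insAll add p
      (colC neg R C 0 l (add (cst e.1.1) (neg (cst e.1.2))) e.2) T)).map φ =
      fluxGo neg' add' cst' R C p l G (insAll add' p
      (colC neg' R C 0 l (add' (cst' e.1.1) (neg' (cst' e.1.2))) e.2) (T.map φ))
    rw [ih, map_insAll h.toHm, map_colC h.toHm, h.add, h.neg, h.cst, h.cst]

theorem map_flux (h : HmS neg mq add sm cst neg' mq' add' sm' cst' φ) (l : List ℕ)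
    (G : List ((ℕ × ℕ) × Fill)) : (flux neg add cst R C p n l G).map φ =
      flux neg' add' cst' R C p n l G := by
  show (fluxGo neg add cst R C p l G (Tr.emp K n)).map φ =
    fluxGo neg' add' cst' R C p l G (Tr.emp K' n)
  rw [map_fluxGo h, map_emp]

theorem map_F7 (h : HmS neg mq add sm cst neg' mq' add' sm' cst' φ) :
    (F7 neg mq add cst R C p n a0).map φ = F7 neg' mq' add' cst' R C p n a0 := by
  unfold F7
  rw [map_expand h.toHm, map_ins h.toHm, map_emp, h.cst]

theorem map_fluxA (h : HmS neg mq add sm cst neg' mq' add' sm' cst' φ)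
    (G : List ((ℕ × ℕ) × Fill)) : (fluxA neg mq add cst R C p n a0 G).map φ =
      fluxA neg' mq' add' cst' R C p n a0 G := by
  unfold fluxA
  rw [map_expand h.toHm, map_flux h]

theorem map_fluxB (h : HmS neg mq add sm cst neg' mq' add' sm' cst' φ)
    (G : List ((ℕ × ℕ) × Fill)) : (fluxB neg mq add cst R C p n a0 G).map φ =
      fluxB neg' mq' add' cst' R C p n a0 G := by
  unfold fluxB
  rw [map_expand h.toHm, map_flux h]

theorem map_fluxA' (h : HmS neg mq add sm cst neg' mq' add' sm' cst' φ)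
    (G : List ((ℕ × ℕ) × Fill)) : (fluxA' neg mq add cst R C p n a0 G).map φ =
      fluxA' neg' mq' add' cst' R C p n a0 G := by
  unfold fluxA'
  rw [map_expand h.toHm, map_addTs h.toHm _ _ (fun c => c) (fun _ => rfl), map_flux h, map_emp]

theorem map_fluxB' (h : HmS neg mq add sm cst neg' mq' add' sm' cst' φ)
    (G : List ((ℕ × ℕ) × Fill)) : (fluxB' neg mq add cst R C p n a0 G).map φ =
      fluxB' neg' mq' add' cst' R C p n a0 G := by
  unfold fluxB'
  rw [map_expand h.toHm, map_addTs h.toHm _ _ (fun c => c) (fun _ => rfl), map_flux h, map_emp]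

theorem map_centre (h : HmS neg mq add sm cst neg' mq' add' sm' cst' φ) (D t : ℕ)
    (cols0 : List (ℕ × Fill)) (GA : List ((ℕ × ℕ) × Fill)) :
    (centre neg mq add sm cst R C p n a0 D t cols0 GA).map φ =
      centre neg' mq' add' sm' cst' R C p n a0 D t cols0 GA := by
  unfold centre
  rw [map_addTs h.toHm _ _ (fun c => c) (fun _ => rfl), map_fluxA h, map_addCols h,
    map_ins h.toHm, map_addTs h.toHm _ _ (fun c => neg' (sm' D c))
      (fun c => by rw [h.neg, h.sm]), map_F7 h, map_emp, h.cst]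

theorem map_outer (h : HmS neg mq add sm cst neg' mq' add' sm' cst' φ)
    (cols1 : List (ℕ × Fill)) (GA GB : List ((ℕ × ℕ) × Fill)) :
    (outer neg mq add cst R C p n a0 cols1 GA GB).map φ =
      outer neg' mq' add' cst' R C p n a0 cols1 GA GB := by
  unfold outer
  rw [map_addTs h.toHm _ _ neg' (fun c => h.neg c), map_fluxB' h,
    map_addTs h.toHm _ _ (fun c => c) (fun _ => rfl), map_fluxB h,
    map_addTs h.toHm _ _ neg' (fun c => h.neg c), map_fluxA' h, map_addCols h, map_emp]

end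

/-! ### values -/

section

variable {R C p n a0 : ℕ} (q : ℝ) (Λ : ℕ → ℝ)

/-- value of a functional on a trie of polynomials -/
abbrev LT (T : Tr ℤ[X]) : ℝ := linT (fun c : ℤ[X] => aeval q c) Λ T

/-- value of a functional on a column -/
abbrev colq (R C a0 : ℕ) (T : Fill) : ℝ :=
  lin (fun c : ℤ[X] => aeval q c) Λ (colC negX R C a0 ringL (cstX 1) T)

theorem lin_colC (c : ℕ) (T : Fill) :
    lin (fun c : ℤ[X] => aeval q c) Λ (colC negX R C a0 ringL (cstX c) T) =
      (c : ℝ) * colq q Λ R C a0 T := by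
  have h : Hm negX mqX addX negX mqX addX (smX c) := by
    refine ⟨?_, ?_, ?_⟩
    · intro x; unfold negX smX; ring
    · intro x; unfold mqX smX; ring
    · intro x y; unfold addX smX; ring
  have e : cstX c = smX c (cstX 1) := by unfold cstX smX; simp
  rw [e, ← map_colC h, lin_map]
  have key : ∀ L : FL ℤ[X], lin (fun x : ℤ[X] => aeval q (smX c x)) Λ L =
      (c : ℝ) * lin (fun x : ℤ[X] => aeval q x) Λ L := by
    intro L
    induction L with
    | nil => simp
    | cons s x L ih =>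
      rw [lin_cons, lin_cons, ih]
      have : aeval q (smX c x) = (c : ℝ) * aeval q x := by simp [smX]
      rw [this]; ring
  exact key _

theorem LT_addCols (cols : List (ℕ × Fill)) (T : Tr ℤ[X]) :
    LT q Λ (addCols negX addX cstX R C p a0 cols T) =
      LT q Λ T + (cols.map fun e => (e.1 : ℝ) * colq q Λ R C a0 e.2).sum := by
  induction cols generalizing T with
  | nil => show LT q Λ T = _; simp
  | cons e cols ih =>
    show LT q Λ (addCols negX addX cstX R C p a0 cols
      (insAll addX p (colC negX R C a0 ringL (cstX e.1) e.2) T)) = _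
    rw [ih]
    unfold LT
    rw [linT_insAll _ _ (ipq q), lin_colC, List.map_cons, List.sum_cons]
    ring

theorem lin_neg (f : ℤ[X] → ℤ[X]) (a : ℝ) (hf : ∀ c, aeval q (f c) = a * aeval q c)
    (Λ : ℕ → ℝ) (T : Tr ℤ[X]) :
    linT (fun c : ℤ[X] => aeval q (f c)) Λ T = a * LT q Λ T := by
  have key : ∀ L : FL ℤ[X], lin (fun c : ℤ[X] => aeval q (f c)) Λ L =
      a * lin (fun x : ℤ[X] => aeval q x) Λ L := by
    intro L
    induction L with
    | nil => simp
    | cons s x L ih => rw [lin_cons, lin_cons, ih, hf]; ring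
  induction T with
  | lf L => exact key L
  | nd l r ihl ihr => rw [linT_nd, ihl, ihr]; unfold LT; rw [linT_nd]; ring

theorem LT_centre (D t : ℕ) (cols0 : List (ℕ × Fill)) (GA : List ((ℕ × ℕ) × Fill)) :
    LT q Λ (centre negX mqX addX smX cstX R C p n a0 D t cols0 GA) =
      - (D : ℝ) * LT q Λ (F7 negX mqX addX cstX R C p n a0) + (t : ℝ) * Λ (idp 19 19)
      + (cols0.map fun e => (e.1 : ℝ) * colq q Λ R C a0 e.2).sum
      + LT q Λ (fluxA negX mqX addX cstX R C p n a0 GA) := by
  unfold centre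
  unfold LT
  rw [linT_addTs _ _ (ipq q)]
  have h1 := LT_addCols (R := R) (C := C) (p := p) (a0 := a0) q Λ cols0
    ((addTs addX (fun s => s) (fun c => negX (smX D c)) p (F7 negX mqX addX cstX R C p n a0)
        (Tr.emp ℤ[X] n)).ins addX (idp 19 19) (cstX t) (Nat.mod (idp 19 19) p))
  unfold LT at h1
  rw [h1, linT_ins _ _ (ipq q), linT_addTs _ _ (ipq q), linT_emp]
  rw [lin_neg q (fun c => negX (smX D c)) (-(D : ℝ)) (fun c => by simp [negX, smX])]
  have h2 : aeval q (cstX t) = (t : ℝ) := by simp [cstX]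
  rw [h2]
  unfold LT
  ring

theorem LT_outer (cols1 : List (ℕ × Fill)) (GA GB : List ((ℕ × ℕ) × Fill)) :
    LT q Λ (outer negX mqX addX cstX R C p n a0 cols1 GA GB) =
      (cols1.map fun e => (e.1 : ℝ) * colq q Λ R C a0 e.2).sum
      - LT q Λ (fluxA' negX mqX addX cstX R C p n a0 GA)
      + LT q Λ (fluxB negX mqX addX cstX R C p n a0 GB)
      - LT q (fun s => Λ (relab 19 R C rotL scR s))
        (fluxB' negX mqX addX cstX R C p n a0 GB) := by
  unfold outer
  unfold LT
  rw [linT_addTs _ _ (ipq q), linT_addTs _ _ (ipq q), linT_addTs _ _ (ipq q)]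
  have h1 := LT_addCols (R := R) (C := C) (p := p) (a0 := a0) q Λ cols1 (Tr.emp ℤ[X] n)
  unfold LT at h1
  rw [h1, linT_emp]
  rw [lin_neg q negX (-1) (fun c => by simp [negX]), lin_neg q negX (-1) (fun c => by simp [negX])]
  unfold LT
  ring

end

/-! ### codes are equivalence relations -/

section

variable {R C p n a0 : ℕ} {K : Type} {neg mq : K → K} {add : K → K → K} {sm : ℕ → K → K}
  {cst : ℕ → K}

theorem getN_lt {w : ℕ} (hw : 0 < w) {π : List ℕ} (h : ∀ x ∈ π, x < w) (i : ℕ) :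
    getN π i < w := by
  by_cases hi : i < π.length
  · exact h _ (getN_mem hi)
  · rw [getN_eq, List.getD_eq_default _ _ (not_lt.1 hi)]; exact hw

theorem allL_colC (h : PW 19 R C) (a : ℕ) {l : List ℕ} (hl : ∀ x ∈ l, x < 19) (c : K)
    (T : Fill) : AllL (Eqv 19) (colC neg R C a l c T) :=
  allL_colF h T hl (allL_one c eqv_idp)

theorem allT_addCols (h : PW 19 R C) (cols : List (ℕ × Fill)) {T : Tr K}
    (hT : AllT (Eqv 19) T) : AllT (Eqv 19) (addCols neg add cst R C p a0 cols T) := by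
  induction cols generalizing T with
  | nil => exact hT
  | cons e cols ih =>
    exact ih (allT_insAll p (allL_colC h a0 (by decide) _ _) hT)

theorem allT_flux (h : PW 19 R C) {l : List ℕ} (hl : ∀ x ∈ l, x < 19)
    (G : List ((ℕ × ℕ) × Fill)) : AllT (Eqv 19) (flux neg add cst R C p n l G) := by
  have key : ∀ T : Tr K, AllT (Eqv 19) T → AllT (Eqv 19) (fluxGo neg add cst R C p l G T) := by
    induction G with
    | nil => intro T hT; exact hT
    | cons e G ih =>
      intro T hT
      exact ih _ (allT_insAll p (allL_colC h 0 hl _ _) hT)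
  exact key _ (allT_emp _ _)

end

/-! ### the check at `5` gives an inequality near `5` -/

theorem exists_near (L : FL ℤ[X]) (hL : AllCL (fun _ c => c.eval 5 ≤ -1) L) :
    ∃ δ > 0, ∀ q : ℝ, |q - 5| < δ → AllCL (fun _ c => aeval q c ≤ 0) L := by
  induction L with
  | nil => exact ⟨1, one_pos, fun _ _ => trivial⟩
  | cons s c L ih =>
    obtain ⟨δ, hδ, h⟩ := ih hL.2
    have hc : Continuous fun q : ℝ => aeval q c := by
      have : (fun q : ℝ => aeval q c) = fun q => (c.map (Int.castRingHom ℝ)).eval q := by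
        funext q
        rw [aeval_def, eval_map]
        rfl
      rw [this]
      exact Polynomial.continuous _
    have h5 : aeval (5 : ℝ) c ≤ -1 := by
      have e : aeval (5 : ℝ) c = ((c.eval 5 : ℤ) : ℝ) := by
        have := Polynomial.aeval_algebraMap_apply (A := ℤ) ℝ (5 : ℤ) c
        simp only [eq_intCast] at this
        push_cast at this
        rw [this]
        rw [← Polynomial.coe_aeval_eq_eval]
      rw [e]
      have := hL.1
      exact_mod_cast this
    have h6 : ∀ᶠ q in nhds (5 : ℝ), aeval q c < 0 :=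
      hc.continuousAt.eventually_lt continuousAt_const (by linarith)
    obtain ⟨δ', hδ', h'⟩ := Metric.eventually_nhds_iff.1 h6
    refine ⟨min δ δ', lt_min hδ hδ', fun q hq => ⟨?_, h q (hq.trans_le (min_le_left _ _))⟩⟩
    exact (h' (by rw [Real.dist_eq]; exact hq.trans_le (min_le_right _ _))).le

theorem exists_nearT (T : Tr ℤ[X]) (hT : AllC (fun _ c => c.eval 5 ≤ -1) T) :
    ∃ δ > 0, ∀ q : ℝ, |q - 5| < δ → AllC (fun _ c => aeval q c ≤ 0) T := by
  induction T with
  | lf L => exact exists_near L hT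
  | nd l r ihl ihr =>
    obtain ⟨δ, hδ, h⟩ := ihl hT.1
    obtain ⟨δ', hδ', h'⟩ := ihr hT.2
    exact ⟨min δ δ', lt_min hδ hδ', fun q hq =>
      ⟨h q (hq.trans_le (min_le_left _ _)), h' q (hq.trans_le (min_le_right _ _))⟩⟩

theorem lin_nonpos {q : ℝ} {Λ : ℕ → ℝ} {L : FL ℤ[X]}
    (h : AllCL (fun s c => 0 ≤ Λ s ∧ aeval q c ≤ 0) L) :
    lin (fun c : ℤ[X] => aeval q c) Λ L ≤ 0 := by
  induction L with
  | nil => simp
  | cons s c L ih =>
    rw [lin_cons]
    have := ih h.2
    have := mul_nonpos_of_nonpos_of_nonneg h.1.2 h.1.1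
    linarith

theorem LT_nonpos {q : ℝ} {Λ : ℕ → ℝ} {T : Tr ℤ[X]}
    (h : AllC (fun s c => 0 ≤ Λ s ∧ aeval q c ≤ 0) T) : LT q Λ T ≤ 0 := by
  induction T with
  | lf L => exact lin_nonpos h
  | nd l r ihl ihr =>
    have h1 := ihl h.1
    have h2 := ihr h.2
    unfold LT at *
    rw [linT_nd]; linarith

/-- ring codes: the inner slots are not tied -/
def ringB (im ii : ℕ) (s : ℕ) : Bool := Nat.beq (Nat.land s im) ii

/-- coefficient at most `-1` -/
def negB (c : K2) : Bool := Nat.ble (Nat.succ c.1) c.2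

theorem negB_spec {c : K2} (h : negB c = true) : i2 c ≤ -1 := by
  have : c.1 + 1 ≤ c.2 := Nat.le_of_ble_eq_true h
  unfold i2
  have h' : (c.1 : ℤ) + 1 ≤ c.2 := by exact_mod_cast this
  linarith

/-- transfer of a kernel check to the trie of polynomials -/
theorem transfer {T2 : Tr K2} {TX : Tr ℤ[X]} (e : T2.map i2 = TX.map (fun c => c.eval 5))
    {f : ℕ → K2 → Bool} (hf : chkT f T2 = true) {Q : ℕ → ℤ → Prop}
    (hQ : ∀ s c, f s c = true → Q s (i2 c)) : AllC (fun s c => Q s (c.eval 5)) TX := by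
  rw [← allC_map (φ := fun c : ℤ[X] => c.eval 5), ← e, allC_map]
  exact (allC_of_chk hf).imp hQ

end Pool.Agent.U5C
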