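import Pool.Agent.U5C.PosF

/-!
# Consequence of a certificate for the values of the chromatic polynomial
-/

set_option autoImplicit false

noncomputable section

namespace Pool.Agent.U5C

open Polynomial
open Pool.Agent.Helper1.PG (Fill)

/-- what the two window functionals of a flat patch satisfy at `q`; `PH` and `PX` are the values
of the chromatic polynomials of the graph and of the graph without the centre window -/
structure Win (R C p n a0 im ii : ℕ) (tst : ℕ → Bool) (z : Dat) (q PH PX : ℝ) (Φ0 Φ1 : ℕ → ℝ) :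
    Prop where
  sym0 : ∀ π ∈ gs0, ∀ s, Eqv 19 s → ringB im ii s = true → Φ0 (relab 19 R C π scR s) = Φ0 s
  sym1 : ∀ π ∈ gs1, ∀ s, Eqv 19 s → ringB im ii s = true → Φ1 (relab 19 R C π scR s) = Φ1 s
  pos0 : ∀ s, Eqv 19 s → tst s = true → 0 ≤ Φ0 s
  pos1 : ∀ s, Eqv 19 s → tst s = true → 0 ≤ Φ1 s
  col0 : ∀ T : Fill, 0 ≤ colq q Φ0 R C a0 T
  col1 : ∀ T : Fill, 0 ≤ colq q Φ1 R C a0 T
  fA : LT q Φ0 (fluxA negX mqX addX cstX R C p n a0 z.GA) =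
        LT q Φ1 (fluxA' negX mqX addX cstX R C p n a0 z.GA)
  fB : LT q Φ1 (fluxB negX mqX addX cstX R C p n a0 z.GB) =
        LT q (fun s => Φ1 (relab 19 R C rotL scR s))
          (fluxB' negX mqX addX cstX R C p n a0 z.GB)
  one : Φ0 (idp 19 19) = 12 * PX
  all : LT q Φ0 (F7X R C p n a0) = 12 * (q ^ 7 * PH)

/-- The certificate gives `c * PX ≤ PH` for all `q` near `5`. -/
theorem cert5 {R C p n a0 im ii : ℕ} {tst : ℕ → Bool} {z : Dat} (h : PW 19 R C)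
    (ha : VOK 19 vs7 a0) (hA : VOK 19 vsA a0) (hA' : VOK 19 vsA' a0) (hB : VOK 19 vsB a0)
    (hB' : VOK 19 vsB' a0) (hk : Chk R C p n a0 im ii tst z) (hD : 0 < z.D) (ht : 0 < z.t) :
    ∃ δ : ℝ, 0 < δ ∧ ∃ c : ℝ, 0 < c ∧ ∀ q : ℝ, |q - 5| < δ → ∀ (PH PX : ℝ) (Φ0 Φ1 : ℕ → ℝ),
      0 ≤ PX → Win R C p n a0 im ii tst z q PH PX Φ0 Φ1 → c * PX ≤ PH := by
  obtain ⟨δ, hδ, hmain⟩ := near5 h ha hA hA' hB hB' hk
  have hD' : (0 : ℝ) < z.D := by exact_mod_cast hD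
  have ht' : (0 : ℝ) < z.t := by exact_mod_cast ht
  refine ⟨min δ 1, lt_min hδ one_pos, (z.t : ℝ) / (z.D * 6 ^ 7), by positivity, ?_⟩
  intro q hq PH PX Φ0 Φ1 hX w
  have hq1 : |q - 5| < 1 := lt_of_lt_of_le hq (min_le_right _ _)
  rw [abs_lt] at hq1
  have hm := hmain q (lt_of_lt_of_le hq (min_le_left _ _)) Φ0 Φ1 w.sym0 w.sym1 w.pos0 w.pos1
    w.col0 w.col1 w.fA w.fB
  rw [w.one, w.all] at hm
  have hq0 : 0 < q := by linarith
  have h7 : 0 < q ^ 7 := by positivity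
  have h7' : q ^ 7 ≤ 6 ^ 7 := pow_le_pow_left₀ hq0.le (by linarith) 7
  have h1 : (z.t : ℝ) * PX ≤ z.D * (q ^ 7 * PH) := by linarith
  have h2 : 0 ≤ PH := by
    have h3 : 0 ≤ z.D * (q ^ 7 * PH) := le_trans (mul_nonneg ht'.le hX) h1
    have h4 : 0 ≤ q ^ 7 * PH := nonneg_of_mul_nonneg_right h3 hD'
    exact nonneg_of_mul_nonneg_right h4 h7
  have h5 : z.D * (q ^ 7 * PH) ≤ z.D * 6 ^ 7 * PH := by
    rw [mul_assoc]
    exact mul_le_mul_of_nonneg_left (mul_le_mul_of_nonneg_right h7' h2) hD'.le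
  rw [div_mul_eq_mul_div, div_le_iff₀ (by positivity)]
  calc (z.t : ℝ) * PX ≤ z.D * 6 ^ 7 * PH := h1.trans h5
    _ = PH * (z.D * 6 ^ 7) := by ring

end Pool.Agent.U5C
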