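import Pool.Agent.U5C.Nat
import Pool.Agent.Helper1.PG.Fill

/-!
# Columns: fillings of the ring by chords and merges
-/

set_option autoImplicit false

noncomputable section

namespace Pool.Agent.U5C

open Pool.Agent.Helper1.PG (Fill)

/-! ### lists by recursors -/

def getN (l : List ℕ) (i : ℕ) : ℕ :=
  @List.rec ℕ (fun _ => ℕ → ℕ) (fun _ => 0)
    (fun a _ ih i => @Nat.rec (fun _ => ℕ) a (fun k _ => ih k) i) l i

def drp (l : List ℕ) (i : ℕ) : List ℕ :=
  @List.rec ℕ (fun _ => ℕ → List ℕ) (fun _ => [])
    (fun a t ih i => @Nat.rec (fun _ => List ℕ) (a :: t) (fun k _ => ih k) i) l i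

def tk (l : List ℕ) (i : ℕ) : List ℕ :=
  @List.rec ℕ (fun _ => ℕ → List ℕ) (fun _ => [])
    (fun a _ ih i => @Nat.rec (fun _ => List ℕ) [] (fun k _ => a :: ih k) i) l i

def app (l m : List ℕ) : List ℕ := @List.rec ℕ (fun _ => List ℕ) m (fun a _ ih => a :: ih) l

def lenN (l : List ℕ) : ℕ := @List.rec ℕ (fun _ => ℕ) 0 (fun _ _ ih => Nat.succ ih) l

theorem getN_eq (l : List ℕ) (i : ℕ) : getN l i = l.getD i 0 := by
  induction l generalizing i with
  | nil => rfl
  | cons a t ih =>
    cases i with
    | zero => rfl
    | succ i => exact ih i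

theorem drp_eq (l : List ℕ) (i : ℕ) : drp l i = l.drop i := by
  induction l generalizing i with
  | nil => cases i <;> rfl
  | cons a t ih =>
    cases i with
    | zero => rfl
    | succ i => exact ih i

theorem tk_eq (l : List ℕ) (i : ℕ) : tk l i = l.take i := by
  induction l generalizing i with
  | nil => cases i <;> rfl
  | cons a t ih =>
    cases i with
    | zero => rfl
    | succ i => exact congrArg (a :: ·) (ih i)

theorem app_eq (l m : List ℕ) : app l m = l ++ m := by
  induction l with
  | nil => rfl
  | cons a t ih => exact congrArg (a :: ·) ih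

theorem lenN_eq (l : List ℕ) : lenN l = l.length := by
  induction l with
  | nil => rfl
  | cons a t ih => exact congrArg Nat.succ ih

/-- corners `i..j` -/
def innN (i j : ℕ) (l : List ℕ) : List ℕ := tk (drp l i) (Nat.sub (Nat.succ j) i)

/-- corners `0..i` and `j..` -/
def outN (i j : ℕ) (l : List ℕ) : List ℕ := app (tk l (Nat.succ i)) (drp l j)

theorem innN_eq (i j : ℕ) (l : List ℕ) : innN i j l = Pool.Agent.Helper1.PG.inn i j l := by
  unfold innN
  rw [tk_eq, drp_eq]; rfl

theorem outN_eq (i j : ℕ) (l : List ℕ) : outN i j l = Pool.Agent.Helper1.PG.out i j l := by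
  unfold outN
  rw [app_eq, tk_eq, drp_eq]; rfl

/-- `i < j < length l` -/
def okN (i j : ℕ) (l : List ℕ) : Bool :=
  @Bool.rec (fun _ => Bool) false (Nat.ble (Nat.succ j) (lenN l)) (Nat.ble (Nat.succ i) j)

theorem okN_eq (i j : ℕ) (l : List ℕ) : okN i j l = true ↔ (i < j ∧ j < l.length) := by
  unfold okN
  rw [lenN_eq]
  cases h : Nat.ble (Nat.succ i) j with
  | true =>
    have h1 : i < j := Nat.le_of_ble_eq_true h
    simp only [h1, true_and]
    exact ⟨fun h => Nat.le_of_ble_eq_true h, fun h => Nat.ble_eq_true_of_le h⟩
  | false =>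
    have h1 : ¬ i < j := fun h2 => by
      rw [Nat.ble_eq_true_of_le (Nat.succ_le_of_lt h2)] at h; exact absurd h (by decide)
    simp [h1]

section

variable {K : Type} (neg : K → K) (w R C : ℕ)

/-- multiply by `e_ab` -/
def mulEQ (adj a b : ℕ) (L : FL K) : FL K :=
  @FL.rec K (fun _ => FL K) FL.nil (fun s c _ ih =>
    frc (mrg w R C a b s) fun s' =>
      @Bool.rec (fun _ => FL K) ih (FL.cons s' c ih) (Nat.beq (Nat.land s' adj) 0)) L

/-- multiply by the value of a filling of the face with corners `l` -/
def colF (adj : ℕ) (T : Fill) (l : List ℕ) (L : FL K) : FL K :=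
  @Fill.rec (fun _ => List ℕ → FL K → FL K) (fun _ L => L)
    (fun i j _ _ ihA ihB l L =>
      @Bool.rec (fun _ => FL K) FL.nil
        (frc (getN l i) fun a => frc (getN l j) fun b =>
          ihB (outN i j l) (ihA (innN i j l) (mulNE neg w R C adj a b L)))
        (okN i j l))
    (fun i j _ _ ihA ihB l L =>
      @Bool.rec (fun _ => FL K) FL.nil
        (frc (getN l i) fun a => frc (getN l j) fun b =>
          ihB (outN i j l) (ihA (innN i j l) (mulEQ w R C adj a b L)))
        (okN i j l)) T l L

end

section

variable {K A κ : Type} [CommRing A] (ι : K → A) {neg mq : K → K} {add : K → K → K} {q : A}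
variable {w R C : ℕ}

theorem mulEQ_cons (adj a b s : ℕ) (c : K) (L : FL K) :
    mulEQ w R C adj a b (FL.cons s c L) =
      @Bool.rec (fun _ => FL K) (mulEQ w R C adj a b L)
        (FL.cons (mrg w R C a b s) c (mulEQ w R C adj a b L))
          (Nat.beq (Nat.land (mrg w R C a b s) adj) 0) :=
  frc_eq (mrg w R C a b s) fun s' =>
      @Bool.rec (fun _ => FL K) (mulEQ w R C adj a b L) (FL.cons s' c (mulEQ w R C adj a b L))
        (Nat.beq (Nat.land s' adj) 0)

theorem allL_mulEQ (h : PW w R C) {adj a b : ℕ} (ha : a < w) (hb : b < w) {L : FL K}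
    (hL : AllL (Eqv w) L) : AllL (Eqv w) (mulEQ w R C adj a b L) := by
  induction L with
  | nil => trivial
  | cons s c L ih =>
    rw [mulEQ_cons]
    cases Nat.beq (Nat.land (mrg w R C a b s) adj) 0 with
    | true => exact ⟨hL.1.mrg h ha hb, ih hL.2⟩
    | false => exact ih hL.2

open scoped Classical in
theorem lin_mulEQ (h : PW w R C) {adj a b : ℕ} (ha : a < w)
    (hb : b < w) {d : ℕ → κ} (hd : Prp w adj d) {L : FL K} (hL : AllL (Eqv w) L) :
    lin ι (lc A w d) (mulEQ w R C adj a b L) =
      if d a = d b then lin ι (lc A w d) L else 0 := by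
  induction L with
  | nil => show (0 : A) = _; simp
  | cons s c L ih =>
    rw [mulEQ_cons]
    have ih' := ih hL.2
    have e : lc A w d (mrg w R C a b s) = if d a = d b then lc A w d s else 0 := by
      unfold lc
      by_cases hab : d a = d b
      · rw [if_pos hab]
        exact if_congr (by rw [sat_mrg h hL.1 ha hb]; tauto) rfl rfl
      · rw [if_neg hab]
        exact if_neg fun hc => hab ((sat_mrg h hL.1 ha hb d).1 hc).2
    cases h2 : Nat.beq (Nat.land (mrg w R C a b s) adj) 0 with
    | true =>
      simp only [ih', lin_cons, e]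
      by_cases hab : d a = d b
      · simp only [if_pos hab]
      · simp only [if_neg hab]; ring
    | false =>
      simp only [ih', lin_cons]
      have h3 : ¬ Sat w (mrg w R C a b s) d := by
        apply not_sat_of_adj hd
        intro h0
        rw [h0] at h2
        exact absurd h2 (by decide)
      rw [sat_mrg h hL.1 ha hb] at h3
      by_cases hab : d a = d b
      · rw [if_pos hab, if_pos hab]
        have : lc A w d s = 0 := if_neg fun hs => h3 ⟨hs, hab⟩
        rw [this]; ring
      · rw [if_neg hab, if_neg hab]

theorem mem_inn {i j x : ℕ} {l : List ℕ} (h : x ∈ innN i j l) : x ∈ l := by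
  rw [innN_eq] at h
  exact List.mem_of_mem_drop (List.mem_of_mem_take h)

theorem mem_out {i j x : ℕ} {l : List ℕ} (h : x ∈ outN i j l) : x ∈ l := by
  rw [outN_eq] at h
  rcases List.mem_append.1 h with h | h
  · exact List.mem_of_mem_take h
  · exact List.mem_of_mem_drop h

theorem colF_leaf (adj : ℕ) (l : List ℕ) (L : FL K) : colF neg w R C adj Fill.leaf l L = L := rfl

theorem colF_chord (adj i j : ℕ) (S T : Fill) (l : List ℕ) (L : FL K) :
    colF neg w R C adj (Fill.chord i j S T) l L = @Bool.rec (fun _ => FL K) FL.nil
      (colF neg w R C adj T (outN i j l) (colF neg w R C adj S (innN i j l)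
        (mulNE neg w R C adj (getN l i) (getN l j) L))) (okN i j l) := by
  have e : colF neg w R C adj (Fill.chord i j S T) l L = @Bool.rec (fun _ => FL K) FL.nil
        (frc (getN l i) fun a => frc (getN l j) fun b =>
          colF neg w R C adj T (outN i j l) (colF neg w R C adj S (innN i j l)
            (mulNE neg w R C adj a b L)))
        (okN i j l) := rfl
  rw [e, frc_eq, frc_eq]

theorem colF_merge (adj i j : ℕ) (S T : Fill) (l : List ℕ) (L : FL K) :
    colF neg w R C adj (Fill.merge i j S T) l L = @Bool.rec (fun _ => FL K) FL.nil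
      (colF neg w R C adj T (outN i j l) (colF neg w R C adj S (innN i j l)
        (mulEQ w R C adj (getN l i) (getN l j) L))) (okN i j l) := by
  have e : colF neg w R C adj (Fill.merge i j S T) l L = @Bool.rec (fun _ => FL K) FL.nil
        (frc (getN l i) fun a => frc (getN l j) fun b =>
          colF neg w R C adj T (outN i j l) (colF neg w R C adj S (innN i j l)
            (mulEQ w R C adj a b L)))
        (okN i j l) := rfl
  rw [e, frc_eq, frc_eq]

theorem getN_mem {l : List ℕ} {i : ℕ} (h : i < l.length) : getN l i ∈ l := by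
  rw [getN_eq, List.getD_eq_getElem _ _ h]
  exact List.getElem_mem h

theorem getN_some {l : List ℕ} {i : ℕ} (h : i < l.length) : l[i]? = some (getN l i) := by
  rw [getN_eq, List.getD_eq_getElem _ _ h, List.getElem?_eq_getElem h]

theorem allL_colF (h : PW w R C) {adj : ℕ} (T : Fill) {l : List ℕ} (hl : ∀ x ∈ l, x < w)
    {L : FL K} (hL : AllL (Eqv w) L) : AllL (Eqv w) (colF neg w R C adj T l L) := by
  induction T generalizing l L with
  | leaf => exact hL
  | chord i j S T ihS ihT =>
    rw [colF_chord]
    cases hok : okN i j l with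
    | false => trivial
    | true =>
      rw [okN_eq] at hok
      exact ihT (fun x hx => hl x (mem_out hx)) (ihS (fun x hx => hl x (mem_inn hx))
        (allL_mulNE h (hl _ (getN_mem (hok.1.trans hok.2))) (hl _ (getN_mem hok.2)) hL))
  | merge i j S T ihS ihT =>
    rw [colF_merge]
    cases hok : okN i j l with
    | false => trivial
    | true =>
      rw [okN_eq] at hok
      exact ihT (fun x hx => hl x (mem_out hx)) (ihS (fun x hx => hl x (mem_inn hx))
        (allL_mulEQ h (hl _ (getN_mem (hok.1.trans hok.2))) (hl _ (getN_mem hok.2)) hL))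

theorem lin_colF [DecidableEq κ] (h : PW w R C) (hI : Ip neg mq add ι q) {adj : ℕ} (T : Fill)
    {l : List ℕ} (hl : ∀ x ∈ l, x < w) {d : ℕ → κ} (hd : Prp w adj d) {L : FL K}
    (hL : AllL (Eqv w) L) :
    lin ι (lc A w d) (colF neg w R C adj T l L) = (T.val (l.map d) : A) * lin ι (lc A w d) L := by
  induction T generalizing l L with
  | leaf => simp [colF_leaf, Fill.val]
  | chord i j S T ihS ihT =>
    rw [colF_chord]
    cases hok : okN i j l with
    | false =>
      have : ¬ (i < j ∧ j < l.length) := fun h => by
        rw [(okN_eq i j l).2 h] at hok; exact absurd hok (by decide)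
      have e : (Fill.chord i j S T).val (l.map d) = 0 := by
        rw [Fill.val, if_neg]
        rw [List.length_map]
        tauto
      rw [e]; simp
    | true =>
      rw [okN_eq] at hok
      have hi := hok.1.trans hok.2
      have hwi := hl _ (getN_mem hi)
      have hwj := hl _ (getN_mem hok.2)
      simp only
      rw [ihT (fun x hx => hl x (mem_out hx))
        (allL_colF h S (fun x hx => hl x (mem_inn hx)) (allL_mulNE h hwi hwj hL)),
        ihS (fun x hx => hl x (mem_inn hx)) (allL_mulNE h hwi hwj hL),
        lin_mulNE ι h hI hwi hwj hd hL]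
      rw [Fill.val, innN_eq, outN_eq, Pool.Agent.Helper1.PG.inn_map,
        Pool.Agent.Helper1.PG.out_map]
      have hc : (i < j ∧ j < (l.map d).length ∧ (l.map d)[i]? ≠ (l.map d)[j]?) ↔
          ¬ (d (getN l i) = d (getN l j)) := by
        rw [List.length_map, List.getElem?_map, List.getElem?_map, getN_some hi,
          getN_some hok.2]
        simp [hok.1, hok.2]
      by_cases hab : d (getN l i) = d (getN l j)
      · rw [if_pos hab, if_neg (by rw [hc]; exact not_not.2 hab)]
        simp
      · rw [if_neg hab, if_pos (by rw [hc]; exact hab)]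
        push_cast; ring
  | merge i j S T ihS ihT =>
    rw [colF_merge]
    cases hok : okN i j l with
    | false =>
      have : ¬ (i < j ∧ j < l.length) := fun h => by
        rw [(okN_eq i j l).2 h] at hok; exact absurd hok (by decide)
      have e : (Fill.merge i j S T).val (l.map d) = 0 := by
        rw [Fill.val, if_neg]
        rw [List.length_map]
        tauto
      rw [e]; simp
    | true =>
      rw [okN_eq] at hok
      have hi := hok.1.trans hok.2
      have hwi := hl _ (getN_mem hi)
      have hwj := hl _ (getN_mem hok.2)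
      simp only
      rw [ihT (fun x hx => hl x (mem_out hx))
        (allL_colF h S (fun x hx => hl x (mem_inn hx)) (allL_mulEQ h hwi hwj hL)),
        ihS (fun x hx => hl x (mem_inn hx)) (allL_mulEQ h hwi hwj hL),
        lin_mulEQ ι h hwi hwj hd hL]
      rw [Fill.val, innN_eq, outN_eq, Pool.Agent.Helper1.PG.inn_map,
        Pool.Agent.Helper1.PG.out_map]
      have hc : (i < j ∧ j < (l.map d).length ∧ (l.map d)[i]? = (l.map d)[j]?) ↔
          (d (getN l i) = d (getN l j)) := by
        rw [List.length_map, List.getElem?_map, List.getElem?_map, getN_some hi,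
          getN_some hok.2]
        simp [hok.1, hok.2]
      by_cases hab : d (getN l i) = d (getN l j)
      · rw [if_pos hab, if_pos (by rw [hc]; exact hab)]
        push_cast; ring
      · rw [if_neg hab, if_neg (by rw [hc]; exact hab)]
        simp

end

/-! ### naturality -/

section

variable {K K' : Type} {neg mq : K → K} {add : K → K → K} {neg' mq' : K' → K'}
  {add' : K' → K' → K'} {φ : K → K'} {w R C : ℕ}

theorem map_mulEQ (adj a b : ℕ) (L : FL K) :
    (mulEQ w R C adj a b L).map φ = mulEQ w R C adj a b (L.map φ) := by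
  induction L with
  | nil => rfl
  | cons s c L ih =>
    rw [FL.map_cons, mulEQ_cons, mulEQ_cons]
    cases Nat.beq (Nat.land (mrg w R C a b s) adj) 0 with
    | true => simp only [FL.map_cons, ih]
    | false => exact ih

theorem map_colF (hh : Hm neg mq add neg' mq' add' φ) (adj : ℕ) (T : Fill) (l : List ℕ)
    (L : FL K) : (colF neg w R C adj T l L).map φ = colF neg' w R C adj T l (L.map φ) := by
  induction T generalizing l L with
  | leaf => rfl
  | chord i j S T ihS ihT =>
    rw [colF_chord, colF_chord]
    cases okN i j l with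
    | false => rfl
    | true => simp only [ihT, ihS, map_mulNE hh]
  | merge i j S T ihS ihT =>
    rw [colF_merge, colF_merge]
    cases okN i j l with
    | false => rfl
    | true => simp only [ihT, ihS, map_mulEQ]

end

end Pool.Agent.U5C
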