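import Pool.Agent.U5C.Setup

/-!
# Decoding of the certificate

A filling is coded by a prefix code: `2` bits for the kind (`0` leaf, `1` chord, `2` merge), then
`4 + 4` bits for the two corners, then the two parts.
-/

set_option autoImplicit false

noncomputable section

namespace Pool.Agent.U5C

open Pool.Agent.Helper1.PG (Fill)

/-- decode a filling -/
def decF (fuel : ℕ) (e : ℕ) (k : ℕ → Fill → Fill) : Fill :=
  @Nat.rec (fun _ => ℕ → (ℕ → Fill → Fill) → Fill) (fun _ _ => Fill.leaf)
    (fun _ ih e k =>
      frc (Nat.mod e 4) fun kd =>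
      @Nat.rec (fun _ => Fill) (frc (Nat.div e 4) fun e => k e Fill.leaf)
        (fun kd' _ =>
          frc (Nat.mod (Nat.div e 4) 16) fun i =>
          frc (Nat.mod (Nat.div e 64) 16) fun j =>
          frc (Nat.div e 1024) fun e =>
            ih e fun e A => ih e fun e B =>
              @Nat.rec (fun _ => Fill) (k e (Fill.chord i j A B))
                (fun _ _ => k e (Fill.merge i j A B)) kd') kd) fuel e k

/-- decode a column: `32` bits for the coefficient, then the filling -/
def decC (L : List ℕ) : List (ℕ × Fill) :=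
  @List.rec ℕ (fun _ => List (ℕ × Fill)) []
    (fun e _ ih => frc (Nat.mod e 4294967296) fun c =>
      frc (Nat.div e 4294967296) fun e => (c, decF 64 e (fun _ F => F)) :: ih) L

/-- decode a flux entry: `32 + 32` bits for the coefficient, then the filling -/
def decG (L : List ℕ) : List ((ℕ × ℕ) × Fill) :=
  @List.rec ℕ (fun _ => List ((ℕ × ℕ) × Fill)) []
    (fun e _ ih => frc (Nat.mod e 4294967296) fun c =>
      frc (Nat.mod (Nat.div e 4294967296) 4294967296) fun c' =>
      frc (Nat.div e 18446744073709551616) fun e =>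
        ((c, c'), decF 64 e (fun _ F => F)) :: ih) L

/-- Boolean conjunction -/
def andB (a b : Bool) : Bool := @Bool.rec (fun _ => Bool) false b a

theorem andB_eq {a b : Bool} (h : andB a b = true) : a = true ∧ b = true := by
  cases a with
  | true => exact ⟨rfl, h⟩
  | false => exact absurd h Bool.false_ne_true

/-- the kernel check for the centre window -/
def chkC (z : Dat) : Bool :=
  andB (chkT (fun s _ => ringB MN JN s)
      (centre neg2 mq2 add2 sm2 cst2 RN CN 4093 12 AN z.D z.t z.cols0 z.GA))
    (chkT (fun s c => @Bool.rec (fun _ => Bool) false (tstN s) (negB c))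
      (symT add2 19 RN CN scR 4093 gs0
        (centre neg2 mq2 add2 sm2 cst2 RN CN 4093 12 AN z.D z.t z.cols0 z.GA) (Tr.emp K2 12)))

/-- the kernel check for the outer window -/
def chkO (z : Dat) : Bool :=
  andB (chkT (fun s _ => ringB MN JN s)
      (outer neg2 mq2 add2 cst2 RN CN 4093 12 AN z.cols1 z.GA z.GB))
    (chkT (fun s c => @Bool.rec (fun _ => Bool) false (tstN s) (negB c))
      (symT add2 19 RN CN scR 4093 gs1
        (outer neg2 mq2 add2 cst2 RN CN 4093 12 AN z.cols1 z.GA z.GB) (Tr.emp K2 12)))

theorem chk_of {z : Dat} (h0 : chkC z = true) (h1 : chkO z = true) :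
    Chk RN CN 4093 12 AN MN JN tstN z :=
  ⟨(andB_eq h0).1, (andB_eq h1).1, (andB_eq h0).2, (andB_eq h1).2⟩

end Pool.Agent.U5C
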