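import Pool.Agent.U5C.Sound

/-!
# Elimination of slots
-/

set_option autoImplicit false

namespace Pool.Agent.U5C

section bits

variable {w R C : ℕ}

/-- row and column `v` -/
theorem PW.testBit_keep (h : PW w R C) {v : ℕ} (hv : v < w) {i j : ℕ} (hi : i < w) (hj : j < w) :
    (keep w R C v).testBit (w * i + j) = true ↔ ((i ≠ v ∧ j ≠ v) ∨ (i = v ∧ j = v)) := by
  have e : keep w R C v = ((2 ^ (w * w) - 1) ^^^ ((R <<< (w * v)) ||| (C <<< v))) |||
    2 ^ (w * v + v) := rfl
  have h1 : w * i + j < w * w := idx_lt hi hj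
  have hr : (R <<< (w * v)).testBit (w * i + j) = decide (i = v) := by
    rw [Nat.testBit_shiftLeft, h.eR, Nat.testBit_two_pow_sub_one, Bool.eq_iff_iff]
    simp only [Bool.and_eq_true, decide_eq_true_eq]
    constructor
    · rintro ⟨h2, h3⟩
      have h4 : w * i + j = w * v + (w * i + j - w * v) := by omega
      have h5 := (idx (w := w) (i := v) h3).1
      rw [← h4, (idx hj).1] at h5
      exact h5
    · rintro rfl
      omega
  have hc : (C <<< v).testBit (w * i + j) = decide (j = v) := by
    rw [Nat.testBit_shiftLeft, h.eC, testBit_cm h.pos, Bool.eq_iff_iff]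
    simp only [Bool.and_eq_true, decide_eq_true_eq]
    constructor
    · rintro ⟨h2, h3, h4⟩
      have h5 : w * i + j = w * ((w * i + j - v) / w) + v := by
        have := Nat.div_add_mod (w * i + j - v) w
        omega
      have h6 := (idx (w := w) (i := (w * i + j - v) / w) hv).2
      rw [← h5, (idx hj).2] at h6
      exact h6
    · rintro rfl
      refine ⟨by omega, ?_, ?_⟩
      · rw [Nat.add_sub_cancel]; exact Nat.mul_mod_right w i
      · rw [Nat.add_sub_cancel, Nat.mul_div_cancel_left _ h.pos]; exact hi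
  rw [e, Nat.testBit_or, Nat.testBit_xor, Nat.testBit_two_pow_sub_one, Nat.testBit_or, hr, hc,
    Nat.testBit_two_pow]
  simp only [h1, decide_true, Bool.true_xor, Bool.not_or, Bool.or_eq_true, Bool.and_eq_true,
    Bool.not_eq_true', decide_eq_false_iff_not, decide_eq_true_eq]
  constructor
  · rintro (h2 | h2)
    · exact Or.inl h2
    · right
      have a1 := idx (w := w) (i := i) hj
      have a2 := idx (w := w) (i := v) hv
      rw [← h2] at a1
      omega
  · rintro (h2 | ⟨rfl, rfl⟩)
    · exact Or.inl h2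
    · exact Or.inr rfl

theorem PW.and_keep (h : PW w R C) {v : ℕ} (hv : v < w) (s : ℕ) {i j : ℕ} (hi : i < w)
    (hj : j < w) : (Nat.land s (keep w R C v)).testBit (w * i + j) = true ↔
      (s.testBit (w * i + j) = true ∧ ((i ≠ v ∧ j ≠ v) ∨ (i = v ∧ j = v))) := by
  show (s &&& keep w R C v).testBit _ = true ↔ _
  rw [Nat.testBit_and, Bool.and_eq_true, h.testBit_keep hv hi hj]

theorem Eqv.and_keep (h : PW w R C) {v : ℕ} (hv : v < w) {s : ℕ} (hs : Eqv w s) :
    Eqv w (Nat.land s (keep w R C v)) := by
  refine ⟨?_, ?_, ?_, ?_⟩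
  · intro k hk
    have hk' : (s &&& keep w R C v).testBit k = true := hk
    rw [Nat.testBit_and, Bool.and_eq_true] at hk'
    exact hs.lt k hk'.1
  · intro i hi
    rw [h.and_keep hv s hi hi]
    refine ⟨hs.rfl' i hi, ?_⟩
    by_cases hiv : i = v
    · exact Or.inr ⟨hiv, hiv⟩
    · exact Or.inl ⟨hiv, hiv⟩
  · intro i j hi hj hij
    rw [h.and_keep hv s hi hj] at hij
    rw [h.and_keep hv s hj hi]
    exact ⟨hs.symm _ _ hi hj hij.1, by tauto⟩
  · intro i j k hi hj hk hij hjk
    rw [h.and_keep hv s hi hj] at hij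
    rw [h.and_keep hv s hj hk] at hjk
    rw [h.and_keep hv s hi hk]
    exact ⟨hs.trans _ _ _ hi hj hk hij.1 hjk.1, by
      rcases hij.2 with a | a <;> rcases hjk.2 with b | b
      · exact Or.inl ⟨a.1, b.2⟩
      · exact absurd b.1 a.2
      · exact absurd a.2 b.1
      · exact Or.inr ⟨a.1, b.2⟩⟩

/-- the other members of the block of `v` -/
theorem PW.rest (h : PW w R C) {v : ℕ} (hv : v < w) (s : ℕ) (k : ℕ) :
    (Nat.xor (Nat.land (Nat.shiftRight s (Nat.mul w v)) R) (Nat.pow 2 v)).testBit k = true ↔
      ((k < w ∧ s.testBit (w * v + k) = true ∧ k ≠ v) ∨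
        (k = v ∧ ¬ (s.testBit (w * v + k) = true))) := by
  show ((Nat.land (Nat.shiftRight s (Nat.mul w v)) R) ^^^ 2 ^ v).testBit k = true ↔ _
  rw [Nat.testBit_xor, h.row, Nat.testBit_two_pow]
  have e : s.testBit (Nat.mul w v + k) = s.testBit (w * v + k) := rfl
  rw [e]
  by_cases hk : v = k
  · subst hk
    simp [hv]
  · have hk' : k ≠ v := fun h => hk h.symm
    simp only [hk, decide_false, Bool.xor_false, Bool.and_eq_true, decide_eq_true_eq, hk', ne_eq,
      not_false_eq_true, and_true, false_and, or_false]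
    tauto

theorem testBit_log2' {r : ℕ} (hr : r ≠ 0) : r.testBit (Nat.log2 r) = true := by
  have h1 := Nat.log2_self_le hr
  have h2 : r < 2 ^ (r.log2 + 1) := Nat.lt_log2_self
  by_contra hc
  rw [Bool.not_eq_true] at hc
  have h3 : r < 2 ^ r.log2 := by
    apply Nat.lt_pow_two_of_testBit
    intro j hj
    rcases Nat.lt_or_ge r.log2 j with h4 | h4
    · exact Nat.testBit_lt_two_pow (lt_of_lt_of_le h2 (Nat.pow_le_pow_right (by norm_num) h4))
    · have : j = r.log2 := by omega
      rw [this]; exact hc
  omega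

end bits

section

variable {K A : Type} [CommRing A] (ι : K → A) {neg mq : K → K} {add : K → K → K}
variable {w R C : ℕ}

theorem allL_one {P : ℕ → Prop} {s : ℕ} (c : K) (hs : P s) : AllL P (FL.cons s c FL.nil) :=
  ⟨hs, trivial⟩

open scoped Classical in
/-- number of new colours -/
noncomputable def cntNew {κ : Type} (d : ℕ → κ) : List ℕ → List ℕ → ℕ
  | [], _ => 0
  | u :: us, E => (if ∀ u' ∈ E, d u ≠ d u' then 1 else 0) + cntNew d us (u :: E)

open scoped Classical in
theorem cntNew_eq {κ : Type} (d : ℕ → κ) (nb E : List ℕ) :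
    cntNew d nb E + ((E.map d).toFinset).card = (((E ++ nb).map d).toFinset).card := by
  induction nb generalizing E with
  | nil => simp [cntNew]
  | cons u us ih =>
    have h1 := ih (u :: E)
    have h2 : (((u :: E) ++ us).map d).toFinset = ((E ++ u :: us).map d).toFinset := by
      ext x
      simp only [List.cons_append, List.map_cons, List.map_append, List.toFinset_cons,
        List.toFinset_append, Finset.mem_insert, Finset.mem_union, List.mem_toFinset]
      tauto
    rw [h2] at h1
    have h3 : (((u :: E).map d).toFinset).card = (if ∀ u' ∈ E, d u ≠ d u' then 1 else 0) +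
        ((E.map d).toFinset).card := by
      rw [List.map_cons, List.toFinset_cons]
      by_cases hc : ∀ u' ∈ E, d u ≠ d u'
      · rw [if_pos hc, Finset.card_insert_of_notMem, add_comm]
        intro hm
        rw [List.mem_toFinset, List.mem_map] at hm
        obtain ⟨u', h4, h5⟩ := hm
        exact hc u' h4 h5.symm
      · rw [if_neg hc, zero_add, Finset.insert_eq_of_mem]
        push Not at hc
        obtain ⟨u', h4, h5⟩ := hc
        rw [List.mem_toFinset, List.mem_map]
        exact ⟨u', h4, h5.symm⟩
    rw [cntNew]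
    omega

open scoped Classical in
theorem card_free {N : ℕ} (d : ℕ → Fin N) (nb : List ℕ) :
    (Finset.univ.filter fun x : Fin N => ∀ u ∈ nb, x ≠ d u).card + cntNew d nb [] = N := by
  have h1 : cntNew d nb [] = ((nb.map d).toFinset).card := by
    have h0 := cntNew_eq d nb []
    simp only [List.map_nil, List.toFinset_nil, Finset.card_empty, add_zero,
      List.nil_append] at h0
    refine h0.trans (congrArg Finset.card ?_)
    ext x
    exact (@List.mem_toFinset _ (_) _ x).trans (@List.mem_toFinset _ (_) _ x).symm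
  rw [h1]
  have h2 : (Finset.univ.filter fun x : Fin N => ∀ u ∈ nb, x ≠ d u) =
      ((nb.map d).toFinset)ᶜ := by
    ext x
    simp only [Finset.mem_filter, Finset.mem_univ, true_and, Finset.mem_compl, List.mem_toFinset,
      List.mem_map, not_exists, not_and]
    constructor
    · intro h u hu hx; exact h u hu hx.symm
    · intro h u hu hx; exact h u hu hx.symm
  rw [h2, Finset.card_compl, Fintype.card_fin]
  have : ((nb.map d).toFinset).card ≤ N := by
    have := Finset.card_le_univ ((nb.map d).toFinset)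
    rwa [Fintype.card_fin] at this
  omega

theorem linT_elimGo {κ : Type} {q : A} (h : PW w R C) (hI : Ip neg mq add ι q) {adj : ℕ}
    {d : ℕ → κ} (hd : Prp w adj d) {s : ℕ} (hs : Eqv w s) (c : K) (p : ℕ) {nb E : List ℕ}
    (hnb : ∀ u ∈ nb, u < w) (hE : ∀ u ∈ E, u < w) (T : Tr K) :
    linT ι (lc A w d) (elimGo neg add w R C adj s c nb E p T) =
      linT ι (lc A w d) T - (cntNew d nb E : A) * (ι c * lc A w d s) := by
  induction nb generalizing E T with
  | nil => show linT ι (lc A w d) T = _; simp [cntNew]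
  | cons u us ih =>
    have hu : u < w := hnb u List.mem_cons_self
    show linT ι (lc A w d) (elimGo neg add w R C adj s c us (u :: E) p
      (insAll add p (mulNEs neg w R C adj u E (FL.cons s (neg c) FL.nil)) T)) = _
    rw [ih (fun x hx => hnb x (List.mem_cons_of_mem _ hx))
      (by
        intro x hx
        rcases List.mem_cons.1 hx with h1 | h1
        · rw [h1]; exact hu
        · exact hE x h1), linT_insAll ι _ hI,
      lin_mulNEs ι h hI hu hE hd (allL_one _ hs), cntNew]
    simp only [lin_cons, lin_nil, hI.neg]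
    split_ifs with h1
    · push_cast; ring
    · push_cast; ring

theorem allT_elimGo (h : PW w R C) {adj : ℕ} {s : ℕ} (hs : Eqv w s) (c : K) (p : ℕ)
    {nb E : List ℕ} (hnb : ∀ u ∈ nb, u < w) (hE : ∀ u ∈ E, u < w) {T : Tr K}
    (hT : AllT (Eqv w) T) :
    AllT (Eqv w) (elimGo neg add w R C adj s c nb E p T) := by
  induction nb generalizing E T with
  | nil => exact hT
  | cons u us ih =>
    have hu : u < w := hnb u List.mem_cons_self
    exact ih (fun x hx => hnb x (List.mem_cons_of_mem _ hx))
      (by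
        intro x hx
        rcases List.mem_cons.1 hx with h1 | h1
        · rw [h1]; exact hu
        · exact hE x h1) (allT_insAll p (allL_mulNEs h hu hE (allL_one _ hs)) hT)

theorem elimT_eq (adj v kp : ℕ) (nb : List ℕ) (p : ℕ) (s : ℕ) (c : K) (T : Tr K) :
    elimT neg mq add w R C adj v kp nb p s c T =
    @Bool.rec (fun _ => Tr K)
      (insAll add p (mulNEs neg w R C adj
        (Nat.log2 (Nat.xor (Nat.land (Nat.shiftRight s (Nat.mul w v)) R) (Nat.pow 2 v))) nb
        (FL.cons (Nat.land s kp) c FL.nil)) T)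
      (elimGo neg add w R C adj s c nb [] p (T.ins add s (mq c) (Nat.mod s p)))
      (Nat.beq (Nat.xor (Nat.land (Nat.shiftRight s (Nat.mul w v)) R) (Nat.pow 2 v)) 0) := by
  unfold elimT
  rw [frc_eq, frc_eq]

theorem allT_elimT (h : PW w R C) {adj v : ℕ} (hv : v < w) {nb : List ℕ}
    (hnb : ∀ u ∈ nb, u < w) (p : ℕ) {s : ℕ} (hs : Eqv w s) (c : K) {T : Tr K}
    (hT : AllT (Eqv w) T) :
    AllT (Eqv w) (elimT neg mq add w R C adj v (keep w R C v) nb p s c T) := by
  rw [elimT_eq]
  cases h1 : Nat.beq (Nat.xor (Nat.land (Nat.shiftRight s (Nat.mul w v)) R) (Nat.pow 2 v)) 0 with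
  | true => exact allT_elimGo h hs c p hnb (by simp) (allT_ins _ hs hT _)
  | false =>
    have hr : (Nat.xor (Nat.land (Nat.shiftRight s (Nat.mul w v)) R) (Nat.pow 2 v)) ≠ 0 := by
      intro h0; rw [h0] at h1; exact absurd h1 (by decide)
    have hb := testBit_log2' hr
    rw [h.rest hv] at hb
    have hbw : Nat.log2 (Nat.xor (Nat.land (Nat.shiftRight s (Nat.mul w v)) R) (Nat.pow 2 v)) < w := by
      rcases hb with hb | hb
      · exact hb.1
      · rw [hb.1]; exact hv
    exact allT_insAll p (allL_mulNEs h hbw hnb (allL_one _ (hs.and_keep h hv))) hT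

open scoped Classical in
theorem linT_elimT {N : ℕ} (h : PW w R C) (hI : Ip neg mq add ι (N : A)) {adj v : ℕ} (hv : v < w)
    {nb : List ℕ} (hnb : ∀ u ∈ nb, u < w ∧ u ≠ v) (p : ℕ) {d : ℕ → Fin N} (hd : Prp w adj d)
    {s : ℕ} (hs : Eqv w s) (c : K) (T : Tr K) :
    linT ι (lc A w d) (elimT neg mq add w R C adj v (keep w R C v) nb p s c T) =
      linT ι (lc A w d) T + ∑ x : Fin N, if (∀ u ∈ nb, x ≠ d u) then
        ι c * lc A w (Function.update d v x) s else 0 := by
  have hnb' : ∀ u ∈ nb, u < w := fun u hu => (hnb u hu).1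
  rw [elimT_eq]
  cases h1 : Nat.beq (Nat.xor (Nat.land (Nat.shiftRight s (Nat.mul w v)) R) (Nat.pow 2 v)) 0 with
  | true =>
    have hr : (Nat.xor (Nat.land (Nat.shiftRight s (Nat.mul w v)) R) (Nat.pow 2 v)) = 0 :=
      Nat.eq_of_beq_eq_true h1
    have hrow : ∀ k, k < w → s.testBit (w * v + k) = true → k = v := by
      intro k hk hsk
      by_contra hkv
      have := (h.rest hv s k).2 (Or.inl ⟨hk, hsk, hkv⟩)
      rw [hr, Nat.zero_testBit] at this
      exact absurd this (by decide)
    have hsat : ∀ x : Fin N, lc A w (Function.update d v x) s = lc A w d s := by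
      intro x
      unfold lc
      refine if_congr ?_ rfl rfl
      rw [sat_iff h.pos hs, sat_iff h.pos hs]
      have key : ∀ i j, i < w → j < w → s.testBit (w * i + j) = true →
          (Function.update d v x i = Function.update d v x j ↔ d i = d j) := by
        intro i j hi hj hij
        by_cases hiv : i = v
        · subst hiv
          have := hrow j hj hij
          subst this
          simp
        · by_cases hjv : j = v
          · subst hjv
            exact absurd (hrow i hi (hs.symm _ _ hi hj hij)) hiv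
          · rw [Function.update_of_ne hiv, Function.update_of_ne hjv]
      constructor
      · intro h2 i j hi hj hij
        exact (key i j hi hj hij).1 (h2 i j hi hj hij)
      · intro h2 i j hi hj hij
        exact (key i j hi hj hij).2 (h2 i j hi hj hij)
    simp only
    rw [linT_elimGo ι h hI hd hs c p hnb' (by simp), linT_ins ι _ hI, hI.mq]
    simp only [hsat]
    rw [← Finset.sum_filter, Finset.sum_const, nsmul_eq_mul]
    have hc := card_free d nb
    have hc' : ((Finset.univ.filter fun x : Fin N => ∀ u ∈ nb, x ≠ d u).card : A) +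
        (cntNew d nb [] : A) = (N : A) := by
      exact_mod_cast congrArg (Nat.cast : ℕ → A) hc
    rw [← hc']; ring
  | false =>
    have hr : (Nat.xor (Nat.land (Nat.shiftRight s (Nat.mul w v)) R) (Nat.pow 2 v)) ≠ 0 := by
      intro h0; rw [h0] at h1; exact absurd h1 (by decide)
    have hb := testBit_log2' hr
    rw [h.rest hv] at hb
    generalize hbe : Nat.log2 (Nat.xor (Nat.land (Nat.shiftRight s (Nat.mul w v)) R)
      (Nat.pow 2 v)) = b at hb ⊢
    have hb' : b < w ∧ s.testBit (w * v + b) = true ∧ b ≠ v := by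
      rcases hb with hb | hb
      · exact hb
      · exfalso
        apply hb.2
        rw [hb.1]; exact hs.rfl' v hv
    obtain ⟨hbw, hsb, hbv⟩ := hb'
    have hs' := hs.and_keep h hv
    have hsat : ∀ x : Fin N, Sat w s (Function.update d v x) ↔
        (x = d b ∧ Sat w (Nat.land s (keep w R C v)) d) := by
      intro x
      rw [sat_iff h.pos hs, sat_iff h.pos hs']
      constructor
      · intro h2
        refine ⟨?_, ?_⟩
        · have := h2 v b hv hbw hsb
          rwa [Function.update_self, Function.update_of_ne hbv] at this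
        · intro i j hi hj hij
          rw [h.and_keep hv s hi hj] at hij
          rcases hij.2 with a | a
          · have := h2 i j hi hj hij.1
            rwa [Function.update_of_ne a.1, Function.update_of_ne a.2] at this
          · rw [a.1, a.2]
      · rintro ⟨hx, h2⟩ i j hi hj hij
        have hsb' : s.testBit (w * b + v) = true := hs.symm _ _ hv hbw hsb
        by_cases hiv : i = v
        · by_cases hjv : j = v
          · rw [hiv, hjv]
          · rw [hiv, Function.update_self, Function.update_of_ne hjv, hx]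
            apply h2 b j hbw hj
            rw [h.and_keep hv s hbw hj]
            exact ⟨hs.trans b v j hbw hv hj hsb' (by rw [← hiv]; exact hij), Or.inl ⟨hbv, hjv⟩⟩
        · by_cases hjv : j = v
          · rw [hjv, Function.update_self, Function.update_of_ne hiv, hx]
            apply h2 i b hi hbw
            rw [h.and_keep hv s hi hbw]
            exact ⟨hs.trans i v b hi hv hbw (by rw [← hjv]; exact hij) hsb, Or.inl ⟨hiv, hbv⟩⟩
          · rw [Function.update_of_ne hiv, Function.update_of_ne hjv]
            apply h2 i j hi hj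
            rw [h.and_keep hv s hi hj]
            exact ⟨hij, Or.inl ⟨hiv, hjv⟩⟩
    simp only
    rw [linT_insAll ι _ hI, lin_mulNEs ι h hI hbw hnb' hd (allL_one _ hs')]
    simp only [lin_cons, lin_nil, add_zero]
    congr 1
    have e : ∀ x : Fin N, (if (∀ u ∈ nb, x ≠ d u) then
        ι c * lc A w (Function.update d v x) s else 0) = if x = d b then
          (if (∀ u ∈ nb, d b ≠ d u) then ι c * lc A w d (Nat.land s (keep w R C v)) else 0)
          else 0 := by
      intro x
      unfold lc
      simp only [hsat x]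
      by_cases hx : x = d b
      · subst hx
        simp
      · simp [hx]
    simp only [e]
    rw [Finset.sum_ite_eq' Finset.univ (d b)]
    simp

theorem allT_elimL (h : PW w R C) {adj v : ℕ} (hv : v < w) {nb : List ℕ}
    (hnb : ∀ u ∈ nb, u < w) (p : ℕ) {L : FL K} (hL : AllL (Eqv w) L) {T : Tr K}
    (hT : AllT (Eqv w) T) :
    AllT (Eqv w) (elimL neg mq add w R C adj v (keep w R C v) nb p L T) := by
  induction L generalizing T with
  | nil => exact hT
  | cons s c L ih => exact ih hL.2 (allT_elimT h hv hnb p hL.1 c hT)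

theorem allT_elimA (h : PW w R C) {adj v : ℕ} (hv : v < w) {nb : List ℕ}
    (hnb : ∀ u ∈ nb, u < w) (p : ℕ) {T0 : Tr K} (hT0 : AllT (Eqv w) T0) {T : Tr K}
    (hT : AllT (Eqv w) T) :
    AllT (Eqv w) (elimA neg mq add w R C adj v (keep w R C v) nb p T0 T) := by
  induction T0 generalizing T with
  | lf L => exact allT_elimL h hv hnb p hT0 hT
  | nd l r ihl ihr => exact ihr hT0.2 (ihl hT0.1 hT)

open scoped Classical in
theorem linT_elimL {N : ℕ} (h : PW w R C) (hI : Ip neg mq add ι (N : A)) {adj v : ℕ} (hv : v < w)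
    {nb : List ℕ} (hnb : ∀ u ∈ nb, u < w ∧ u ≠ v) (p : ℕ) {d : ℕ → Fin N} (hd : Prp w adj d)
    {L : FL K} (hL : AllL (Eqv w) L) (T : Tr K) :
    linT ι (lc A w d) (elimL neg mq add w R C adj v (keep w R C v) nb p L T) =
      linT ι (lc A w d) T + ∑ x : Fin N, if (∀ u ∈ nb, x ≠ d u) then
        lin ι (lc A w (Function.update d v x)) L else 0 := by
  induction L generalizing T with
  | nil => show linT ι (lc A w d) T = _; simp
  | cons s c L ih =>
    show linT ι (lc A w d) (elimL neg mq add w R C adj v (keep w R C v) nb p L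
      (elimT neg mq add w R C adj v (keep w R C v) nb p s c T)) = _
    rw [ih hL.2, linT_elimT ι h hI hv hnb p hd hL.1, add_assoc, ← Finset.sum_add_distrib]
    congr 1
    refine Finset.sum_congr rfl fun x _ => ?_
    split_ifs
    · rw [lin_cons]
    · rw [add_zero]

open scoped Classical in
theorem linT_elimA {N : ℕ} (h : PW w R C) (hI : Ip neg mq add ι (N : A)) {adj v : ℕ} (hv : v < w)
    {nb : List ℕ} (hnb : ∀ u ∈ nb, u < w ∧ u ≠ v) (p : ℕ) {d : ℕ → Fin N} (hd : Prp w adj d)
    {T0 : Tr K} (hT0 : AllT (Eqv w) T0) (T : Tr K) :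
    linT ι (lc A w d) (elimA neg mq add w R C adj v (keep w R C v) nb p T0 T) =
      linT ι (lc A w d) T + ∑ x : Fin N, if (∀ u ∈ nb, x ≠ d u) then
        linT ι (lc A w (Function.update d v x)) T0 else 0 := by
  induction T0 generalizing T with
  | lf L => exact linT_elimL ι h hI hv hnb p hd hT0 T
  | nd l r ihl ihr =>
    show linT ι (lc A w d) (elimA neg mq add w R C adj v (keep w R C v) nb p r
      (elimA neg mq add w R C adj v (keep w R C v) nb p l T)) = _
    rw [ihr hT0.2, ihl hT0.1, add_assoc, ← Finset.sum_add_distrib]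
    congr 1
    refine Finset.sum_congr rfl fun x _ => ?_
    split_ifs
    · rw [linT_nd]
    · rw [add_zero]

/-! ### expansion of a content -/

open scoped Classical in
/-- colour sum over the slots `vs` -/
noncomputable def ext {N : ℕ} (g : (ℕ → Fin N) → A) : List (ℕ × List ℕ) → (ℕ → Fin N) → A
  | [], d => g d
  | v :: vs, d => ∑ x : Fin N, if (∀ u ∈ v.2, x ≠ d u) then ext g vs (Function.update d v.1 x) else 0

/-- admissible lists of inner slots -/
def VOK (w : ℕ) : List (ℕ × List ℕ) → ℕ → Prop
  | [], _ => True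
  | v :: vs, adj => v.1 < w ∧ (∀ u ∈ v.2, u < w ∧ u ≠ v.1) ∧
      (∀ k, adj.testBit k = true → k / w ≠ v.1 ∧ k % w ≠ v.1) ∧
      VOK w vs (adj ||| star w v.1 v.2)

theorem testBit_star {w v : ℕ} {nb : List ℕ} {k : ℕ} (hk : (star w v nb).testBit k = true) :
    ∃ u ∈ nb, k = w * v + u ∨ k = w * u + v := by
  induction nb with
  | nil =>
    have : (0 : ℕ).testBit k = true := hk
    simp at this
  | cons u us ih =>
    have e : star w v (u :: us) = 2 ^ (w * v + u) ||| (2 ^ (w * u + v) ||| star w v us) := rfl
    rw [e, Nat.testBit_or, Nat.testBit_or, Nat.testBit_two_pow, Nat.testBit_two_pow,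
      Bool.or_eq_true, Bool.or_eq_true, decide_eq_true_eq, decide_eq_true_eq] at hk
    rcases hk with h1 | h1 | h1
    · exact ⟨u, List.mem_cons_self, Or.inl h1.symm⟩
    · exact ⟨u, List.mem_cons_self, Or.inr h1.symm⟩
    · obtain ⟨u', h2, h3⟩ := ih h1
      exact ⟨u', List.mem_cons_of_mem _ h2, h3⟩

theorem Prp.star {N : ℕ} {w adj v : ℕ} {nb : List ℕ} {d : ℕ → Fin N} (hd : Prp w adj d)
    (hv : v < w) (hnb : ∀ u ∈ nb, u < w ∧ u ≠ v)
    (hadj : ∀ k, adj.testBit k = true → k / w ≠ v ∧ k % w ≠ v) {x : Fin N}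
    (hx : ∀ u ∈ nb, x ≠ d u) :
    Prp w (adj ||| star w v nb) (Function.update d v x) := by
  intro k hk
  rw [Nat.testBit_or, Bool.or_eq_true] at hk
  rcases hk with hk | hk
  · have := hadj k hk
    rw [Function.update_of_ne this.1, Function.update_of_ne this.2]
    exact hd k hk
  · obtain ⟨u, hu, h1⟩ := testBit_star hk
    have hu' := hnb u hu
    rcases h1 with h1 | h1
    · rw [h1, (idx hu'.1).1, (idx hu'.1).2, Function.update_self, Function.update_of_ne hu'.2]
      exact hx u hu
    · rw [h1, (idx hv).1, (idx hv).2, Function.update_self, Function.update_of_ne hu'.2]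
      exact (hx u hu).symm

theorem expand_cons (p n : ℕ) (T0 : Tr K) (v : ℕ × List ℕ) (vs : List (ℕ × List ℕ)) (adj : ℕ) :
    expand neg mq add w R C p n T0 (v :: vs) adj =
      elimA neg mq add w R C adj v.1 (keep w R C v.1) v.2 p
        (expand neg mq add w R C p n T0 vs (adj ||| star w v.1 v.2)) (Tr.emp K n) := by
  exact (frc_eq adj fun adj => frc (keep w R C v.1) fun kp =>
      elimA neg mq add w R C adj v.1 kp v.2 p (expand neg mq add w R C p n T0 vs
        (Nat.lor adj (star w v.1 v.2))) (Tr.emp K n)).trans (frc_eq _ _)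

theorem allT_expand (h : PW w R C) (p n : ℕ) {T0 : Tr K} (hT0 : AllT (Eqv w) T0)
    {vs : List (ℕ × List ℕ)} {adj : ℕ} (hvs : VOK w vs adj) :
    AllT (Eqv w) (expand neg mq add w R C p n T0 vs adj) := by
  induction vs generalizing adj with
  | nil => exact hT0
  | cons v vs ih =>
    rw [expand_cons]
    exact allT_elimA h hvs.1 (fun u hu => (hvs.2.1 u hu).1) p (ih hvs.2.2.2) (allT_emp _ _)

theorem linT_expand {N : ℕ} (h : PW w R C) (hI : Ip neg mq add ι (N : A)) (p n : ℕ) {T0 : Tr K}
    (hT0 : AllT (Eqv w) T0) {vs : List (ℕ × List ℕ)} {adj : ℕ} (hvs : VOK w vs adj)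
    {d : ℕ → Fin N} (hd : Prp w adj d) :
    linT ι (lc A w d) (expand neg mq add w R C p n T0 vs adj) =
      ext (fun d => linT ι (lc A w d) T0) vs d := by
  classical
  induction vs generalizing adj d with
  | nil => rfl
  | cons v vs ih =>
    rw [expand_cons, linT_elimA ι h hI hvs.1 hvs.2.1 p hd (allT_expand h p n hT0 hvs.2.2.2),
      linT_emp, zero_add, ext]
    refine Finset.sum_congr rfl fun x _ => ?_
    by_cases hx : ∀ u ∈ v.2, x ≠ d u
    · rw [if_pos hx, if_pos hx]
      exact ih hvs.2.2.2 (hd.star hvs.1 hvs.2.1 hvs.2.2.1 hx)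
    · rw [if_neg hx, if_neg hx]

end

end Pool.Agent.U5C
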