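import Pool.Agent.U5C.Prog

/-!
# The certificate program

Slots of a window: ring `0, ..., 11` (cyclic), rim `12 + i` (adjacent to the ring slots
`2 i - 1, 2 i, 2 i + 1`), centre `18`.
-/

set_option autoImplicit false

noncomputable section

namespace Pool.Agent.U5C

open Pool.Agent.Helper1.PG (Fill)

/-! ### geometry -/

/-- the ring -/
def ringL : List ℕ := [0, 1, 2, 3, 4, 5, 6, 7, 8, 9, 10, 11]

/-- adjacency matrix of the ring -/
def adj0 : ℕ :=
  Nat.lor (star 19 0 [1, 11]) (Nat.lor (star 19 2 [1, 3]) (Nat.lor (star 19 4 [3, 5])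
    (Nat.lor (star 19 6 [5, 7]) (Nat.lor (star 19 8 [7, 9]) (star 19 10 [9, 11])))))

/-- the inner slots of the window -/
def vs7 : List (ℕ × List ℕ) :=
  [(12, [11, 0, 1]), (13, [12, 1, 2, 3]), (14, [13, 3, 4, 5]), (15, [14, 5, 6, 7]),
    (16, [15, 7, 8, 9]), (17, [16, 9, 10, 11, 12]), (18, [12, 13, 14, 15, 16, 17])]

/-- ring of the rhombus `{w, w + e_0, w + e_1, w + e_5}` in window `w` -/
def rhoA : List ℕ := [14, 15, 16, 9, 10, 11, 0, 1, 2, 3]

/-- slot map from window `w` to window `w + e_0` on `rhoA` -/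
def tauA : List ℕ := [12, 13, 3, 4, 0, 0, 0, 0, 0, 8, 9, 17, 0, 0, 5, 6, 7, 0, 0]

/-- the slots eliminated in window `w`, direction `0` -/
def vsA : List (ℕ × List ℕ) := [(14, [3, 4, 5]), (15, [14, 5, 6, 7]), (16, [15, 7, 8, 9])]

/-- the slots eliminated in window `w + e_0` -/
def vsA' : List (ℕ × List ℕ) := [(17, [9, 10, 11]), (12, [17, 11, 0, 1]), (13, [12, 1, 2, 3])]

/-- direction `2`: ring of the rhombus in window `w` -/
def rhoB : List ℕ := [16, 17, 12, 1, 2, 3, 4, 5, 6, 7]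

/-- slot map from window `w` to window `w + e_2` on `rhoB` -/
def tauB : List ℕ := [0, 0, 1, 13, 14, 15, 7, 8, 0, 0, 0, 0, 11, 0, 0, 0, 9, 10, 0]

/-- the slots eliminated in window `w`, direction `2` -/
def vsB : List (ℕ × List ℕ) := [(16, [7, 8, 9]), (17, [16, 9, 10, 11]), (12, [17, 11, 0, 1])]

/-- the slots eliminated in window `w + e_2` -/
def vsB' : List (ℕ × List ℕ) := [(13, [1, 2, 3]), (14, [13, 3, 4, 5]), (15, [14, 5, 6, 7])]

/-- rotation of the ring by two slots -/
def rotL : List ℕ := [10, 11, 0, 1, 2, 3, 4, 5, 6, 7, 8, 9]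

/-- the symmetries of the centre window -/
def gs0 : List (List ℕ) :=
  [[0, 1, 2, 3, 4, 5, 6, 7, 8, 9, 10, 11], [2, 3, 4, 5, 6, 7, 8, 9, 10, 11, 0, 1],
    [4, 5, 6, 7, 8, 9, 10, 11, 0, 1, 2, 3], [6, 7, 8, 9, 10, 11, 0, 1, 2, 3, 4, 5],
    [8, 9, 10, 11, 0, 1, 2, 3, 4, 5, 6, 7], [10, 11, 0, 1, 2, 3, 4, 5, 6, 7, 8, 9],
    [0, 11, 10, 9, 8, 7, 6, 5, 4, 3, 2, 1], [2, 1, 0, 11, 10, 9, 8, 7, 6, 5, 4, 3],
    [4, 3, 2, 1, 0, 11, 10, 9, 8, 7, 6, 5], [6, 5, 4, 3, 2, 1, 0, 11, 10, 9, 8, 7],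
    [8, 7, 6, 5, 4, 3, 2, 1, 0, 11, 10, 9], [10, 9, 8, 7, 6, 5, 4, 3, 2, 1, 0, 11]]

/-- the symmetries of the outer window -/
def gs1 : List (List ℕ) :=
  [[0, 1, 2, 3, 4, 5, 6, 7, 8, 9, 10, 11], [0, 11, 10, 9, 8, 7, 6, 5, 4, 3, 2, 1]]

/-- ring slots which can be tied to a smaller slot -/
def scR : List ℕ := [1, 2, 3, 4, 5, 6, 7, 8, 9, 10, 11]

/-- all slots which can be tied to a smaller slot -/
def scA : List ℕ := [1, 2, 3, 4, 5, 6, 7, 8, 9, 10, 11, 12, 13, 14, 15, 16, 17, 18]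

/-! ### the program -/

section

variable {K : Type} (neg mq : K → K) (add : K → K → K) (sm : ℕ → K → K) (cst : ℕ → K)
variable (R C p n a0 : ℕ)

/-- one column: the filling `T` of the face `l` with coefficient `c` -/
def colC (a : ℕ) (l : List ℕ) (c : K) (T : Fill) : FL K :=
  colF neg 19 R C a T l (FL.cons (idp 19 19) c FL.nil)

/-- add all columns -/
def addCols (cols : List (ℕ × Fill)) (T : Tr K) : Tr K :=
  @List.rec (ℕ × Fill) (fun _ => Tr K → Tr K) (fun T => T)
    (fun e _ ih T => ih (insAll add p (colC neg R C a0 ringL (cst e.1) e.2) T)) cols T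

/-- a flux vector: signed combination of fillings of the ring `l` of a rhombus -/
def flux (l : List ℕ) (G : List ((ℕ × ℕ) × Fill)) : Tr K :=
  @List.rec ((ℕ × ℕ) × Fill) (fun _ => Tr K → Tr K) (fun T => T)
    (fun e _ ih T => ih (insAll add p
      (colC neg R C 0 l (add (cst e.1.1) (neg (cst e.1.2))) e.2) T)) G (Tr.emp K n)

/-- expansion of the flat window -/
def F7 : Tr K :=
  expand neg mq add 19 R C p n ((Tr.emp K n).ins add (idp 19 19) (cst 1) 0) vs7 a0

/-- flux `A` seen in the centre window -/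
def fluxA (GA : List ((ℕ × ℕ) × Fill)) : Tr K :=
  expand neg mq add 19 R C p n (flux neg add cst R C p n rhoA GA) vsA a0

/-- flux `A` seen in the outer window -/
def fluxA' (GA : List ((ℕ × ℕ) × Fill)) : Tr K :=
  expand neg mq add 19 R C p n (addTs add (relab 19 R C tauA scA) (fun c => c) p
    (flux neg add cst R C p n rhoA GA) (Tr.emp K n)) vsA' a0

/-- flux `B` seen in the outer window `e_0` -/
def fluxB (GB : List ((ℕ × ℕ) × Fill)) : Tr K :=
  expand neg mq add 19 R C p n (flux neg add cst R C p n rhoB GB) vsB a0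

/-- flux `B` seen in the outer window `e_1` -/
def fluxB' (GB : List ((ℕ × ℕ) × Fill)) : Tr K :=
  expand neg mq add 19 R C p n (addTs add (relab 19 R C tauB scA) (fun c => c) p
    (flux neg add cst R C p n rhoB GB) (Tr.emp K n)) vsB' a0

/-- `- D F7 + t id + columns + flux A` -/
def centre (D t : ℕ) (cols0 : List (ℕ × Fill)) (GA : List ((ℕ × ℕ) × Fill)) : Tr K :=
  addTs add (fun s => s) (fun c => c) p (fluxA neg mq add cst R C p n a0 GA)
    (addCols neg add cst R C p a0 cols0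
      ((addTs add (fun s => s) (fun c => neg (sm D c)) p (F7 neg mq add cst R C p n a0)
        (Tr.emp K n)).ins add (idp 19 19) (cst t) (Nat.mod (idp 19 19) p)))

/-- `columns - flux A' + flux B - rotated flux B'` -/
def outer (cols1 : List (ℕ × Fill)) (GA GB : List ((ℕ × ℕ) × Fill)) : Tr K :=
  addTs add (relab 19 R C rotL scR) neg p (fluxB' neg mq add cst R C p n a0 GB)
    (addTs add (fun s => s) (fun c => c) p (fluxB neg mq add cst R C p n a0 GB)
      (addTs add (fun s => s) neg p (fluxA' neg mq add cst R C p n a0 GA)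
        (addCols neg add cst R C p a0 cols1 (Tr.emp K n))))

end

/-! ### kernel checks -/

/-- all codes and coefficients pass the test `f` -/
def chkL {K : Type} (f : ℕ → K → Bool) (L : FL K) : Bool :=
  @FL.rec K (fun _ => Bool) true (fun s c _ ih => @Bool.rec (fun _ => Bool) false ih (f s c)) L

def chkT {K : Type} (f : ℕ → K → Bool) (T : Tr K) : Bool :=
  @Tr.rec K (fun _ => Bool) (fun L => chkL f L)
    (fun _ _ ihl ihr => @Bool.rec (fun _ => Bool) false ihr ihl) T

/-- all pairs satisfy `Q` -/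
def AllCL {K : Type} (Q : ℕ → K → Prop) : FL K → Prop
  | .nil => True
  | .cons s c L => Q s c ∧ AllCL Q L

def AllC {K : Type} (Q : ℕ → K → Prop) : Tr K → Prop
  | .lf L => AllCL Q L
  | .nd l r => AllC Q l ∧ AllC Q r

theorem allCL_of_chk {K : Type} {f : ℕ → K → Bool} {L : FL K} (h : chkL f L = true) :
    AllCL (fun s c => f s c = true) L := by
  induction L with
  | nil => trivial
  | cons s c L ih =>
    have e : chkL f (FL.cons s c L) = @Bool.rec (fun _ => Bool) false (chkL f L) (f s c) := rfl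
    rw [e] at h
    cases hf : f s c with
    | true => rw [hf] at h; exact ⟨hf, ih h⟩
    | false => rw [hf] at h; exact absurd h Bool.false_ne_true

theorem allC_of_chk {K : Type} {f : ℕ → K → Bool} {T : Tr K} (h : chkT f T = true) :
    AllC (fun s c => f s c = true) T := by
  induction T with
  | lf L => exact allCL_of_chk h
  | nd l r ihl ihr =>
    have e : chkT f (Tr.nd l r) = @Bool.rec (fun _ => Bool) false (chkT f r) (chkT f l) := rfl
    rw [e] at h
    cases hf : chkT f l with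
    | true => rw [hf] at h; exact ⟨ihl hf, ihr h⟩
    | false => rw [hf] at h; exact absurd h Bool.false_ne_true

theorem allCL_map {K K' : Type} {φ : K → K'} {Q : ℕ → K' → Prop} (L : FL K) :
    AllCL Q (L.map φ) ↔ AllCL (fun s c => Q s (φ c)) L := by
  induction L with
  | nil => exact Iff.rfl
  | cons s c L ih =>
    show Q s (φ c) ∧ AllCL Q (L.map φ) ↔ Q s (φ c) ∧ AllCL (fun s c => Q s (φ c)) L
    rw [ih]

theorem allC_map {K K' : Type} {φ : K → K'} {Q : ℕ → K' → Prop} (T : Tr K) :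
    AllC Q (T.map φ) ↔ AllC (fun s c => Q s (φ c)) T := by
  induction T with
  | lf L => exact allCL_map L
  | nd l r ihl ihr =>
    show AllC Q (l.map φ) ∧ AllC Q (r.map φ) ↔ _
    rw [ihl, ihr]; rfl

theorem AllCL.imp {K : Type} {Q Q' : ℕ → K → Prop} (h : ∀ s c, Q s c → Q' s c) {L : FL K}
    (hL : AllCL Q L) : AllCL Q' L := by
  induction L with
  | nil => trivial
  | cons s c L ih => exact ⟨h s c hL.1, ih hL.2⟩

theorem AllC.imp {K : Type} {Q Q' : ℕ → K → Prop} (h : ∀ s c, Q s c → Q' s c) {T : Tr K}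
    (hT : AllC Q T) : AllC Q' T := by
  induction T with
  | lf L => exact AllCL.imp h hT
  | nd l r ihl ihr => exact ⟨ihl hT.1, ihr hT.2⟩

theorem AllCL.and {K : Type} {Q Q' : ℕ → K → Prop} {L : FL K} (h : AllCL Q L)
    (h' : AllCL Q' L) : AllCL (fun s c => Q s c ∧ Q' s c) L := by
  induction L with
  | nil => trivial
  | cons s c L ih => exact ⟨⟨h.1, h'.1⟩, ih h.2 h'.2⟩

theorem AllC.and {K : Type} {Q Q' : ℕ → K → Prop} {T : Tr K} (h : AllC Q T)
    (h' : AllC Q' T) : AllC (fun s c => Q s c ∧ Q' s c) T := by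
  induction T with
  | lf L => exact AllCL.and h h'
  | nd l r ihl ihr => exact ⟨ihl h.1 h'.1, ihr h.2 h'.2⟩

theorem allCL_iff {K : Type} {P : ℕ → Prop} (L : FL K) :
    AllCL (fun s (_ : K) => P s) L ↔ AllL P L := by
  induction L with
  | nil => exact Iff.rfl
  | cons s c L ih => exact and_congr Iff.rfl ih

theorem allC_iff {K : Type} {P : ℕ → Prop} (T : Tr K) :
    AllC (fun s (_ : K) => P s) T ↔ AllT P T := by
  induction T with
  | lf L => exact allCL_iff L
  | nd l r ihl ihr => exact and_congr ihl ihr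

end Pool.Agent.U5C
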