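import Pool.Agent.U5C.Bits
import Pool.Agent.Helper1.PG.Fill

/-!
# Noncrossing patterns are fillings by merges

MP_0d034c_co, certificate for flat patches.  A noncrossing identification pattern of the corners of
a face is the value of a filling which uses only merges.
-/

set_option autoImplicit false

namespace Pool.Agent.U5C

open Pool.Agent.Helper1.PG (Fill inn out)

/-- only merges -/
def MOnly : Fill → Prop
  | .leaf => True
  | .chord _ _ _ _ => False
  | .merge _ _ A B => MOnly A ∧ MOnly B

/-- shift of the outer positions by one -/
def shf : Fill → Fill
  | .leaf => .leaf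
  | .chord i j A B => .chord (i + 1) (j + 1) A (shf B)
  | .merge i j A B => .merge (i + 1) (j + 1) A (shf B)

theorem mOnly_shf {T : Fill} (h : MOnly T) : MOnly (shf T) := by
  induction T with
  | leaf => trivial
  | chord i j A B _ _ => exact h
  | merge i j A B _ ihB => exact ⟨h.1, ihB h.2⟩

theorem inn_cons {C : Type} (i j : ℕ) (x : C) (l : List C) :
    inn (i + 1) (j + 1) (x :: l) = inn i j l := by
  unfold inn
  rw [List.drop_succ_cons, Nat.add_sub_add_right]

theorem out_cons {C : Type} (i j : ℕ) (x : C) (l : List C) :
    out (i + 1) (j + 1) (x :: l) = x :: out i j l := by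
  unfold out
  rw [List.drop_succ_cons, List.take_succ_cons, List.cons_append]

theorem val_shf {C : Type} [DecidableEq C] (T : Fill) (x : C) (l : List C) :
    (shf T).val (x :: l) = T.val l := by
  induction T generalizing x l with
  | leaf => rfl
  | chord i j A B _ ihB =>
    show (if i + 1 < j + 1 ∧ j + 1 < (x :: l).length ∧ (x :: l)[i + 1]? ≠ (x :: l)[j + 1]? then
      A.val (inn (i + 1) (j + 1) (x :: l)) * (shf B).val (out (i + 1) (j + 1) (x :: l)) else 0) =
      if i < j ∧ j < l.length ∧ l[i]? ≠ l[j]? then A.val (inn i j l) * B.val (out i j l) else 0
    rw [inn_cons, out_cons, ihB]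
    simp only [List.length_cons, List.getElem?_cons_succ, add_lt_add_iff_right]
  | merge i j A B _ ihB =>
    show (if i + 1 < j + 1 ∧ j + 1 < (x :: l).length ∧ (x :: l)[i + 1]? = (x :: l)[j + 1]? then
      A.val (inn (i + 1) (j + 1) (x :: l)) * (shf B).val (out (i + 1) (j + 1) (x :: l)) else 0) =
      if i < j ∧ j < l.length ∧ l[i]? = l[j]? then A.val (inn i j l) * B.val (out i j l) else 0
    rw [inn_cons, out_cons, ihB]
    simp only [List.length_cons, List.getElem?_cons_succ, add_lt_add_iff_right]

/-- `x` satisfies the identifications of the labels `κ` -/
def Agr {C : Type} (κ : List ℕ) (x : List C) : Prop :=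
  ∀ i j, i < κ.length → j < κ.length → κ[i]? = κ[j]? → x[i]? = x[j]?

/-- noncrossing labels -/
def NC (κ : List ℕ) : Prop :=
  ∀ i k j l, i < k → k < j → j < l → l < κ.length → κ[i]? = κ[j]? → κ[k]? = κ[l]? → κ[i]? = κ[k]?

theorem NC.tail {a : ℕ} {κ : List ℕ} (h : NC (a :: κ)) : NC κ := by
  intro i k j l h1 h2 h3 h4 h5 h6
  have := h (i + 1) (k + 1) (j + 1) (l + 1) (by omega) (by omega) (by omega)
    (by rw [List.length_cons]; omega)
  simp only [List.getElem?_cons_succ] at this
  exact this h5 h6

theorem NC.take {κ : List ℕ} (h : NC κ) (n : ℕ) : NC (κ.take n) := by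
  intro i k j l h1 h2 h3 h4 h5 h6
  rw [List.length_take, lt_min_iff] at h4
  rw [List.getElem?_take_of_lt (by omega), List.getElem?_take_of_lt (by omega)] at h5 h6
  rw [List.getElem?_take_of_lt (by omega), List.getElem?_take_of_lt (by omega)]
  exact h i k j l h1 h2 h3 h4.2 h5 h6

theorem NC.drop {κ : List ℕ} (h : NC κ) (n : ℕ) : NC (κ.drop n) := by
  intro i k j l h1 h2 h3 h4 h5 h6
  rw [List.length_drop] at h4
  simp only [List.getElem?_drop] at h5 h6 ⊢
  exact h (n + i) (n + k) (n + j) (n + l) (by omega) (by omega) (by omega) (by omega) h5 h6

open scoped Classical in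
/-- noncrossing labels are the values of fillings by merges -/
theorem exists_fill_aux (n : ℕ) : ∀ (κ : List ℕ), κ.length ≤ n → NC κ →
    ∃ T : Fill, MOnly T ∧ ∀ (C : Type) [DecidableEq C] (x : List C), x.length = κ.length →
      T.val x = if Agr κ x then 1 else 0 := by
  induction n with
  | zero =>
    intro κ hn _
    have : κ = [] := List.length_eq_zero_iff.1 (by omega)
    subst this
    refine ⟨.leaf, trivial, ?_⟩
    intro C _ x _
    show 1 = _
    rw [if_pos]
    intro i j hi
    exact absurd hi (Nat.not_lt_zero _)
  | succ n ih =>
    intro κ hn hnc
    cases κ with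
    | nil =>
      refine ⟨.leaf, trivial, ?_⟩
      intro C _ x _
      show 1 = _
      rw [if_pos]
      intro i j hi
      exact absurd hi (Nat.not_lt_zero _)
    | cons a κ =>
      rw [List.length_cons] at hn
      by_cases ha : a ∈ κ
      · -- first occurrence
        obtain ⟨j, hj, hfirst⟩ : ∃ j, κ[j]? = some a ∧ ∀ i, i < j → κ[i]? ≠ some a := by
          have hex : ∃ j, κ[j]? = some a := List.mem_iff_getElem?.1 ha
          exact ⟨Nat.find hex, Nat.find_spec hex, fun i hi => Nat.find_min hex hi⟩
        have hjl : j < κ.length := by
          by_contra hc
          rw [List.getElem?_eq_none (by omega)] at hj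
          exact absurd hj (by simp)
        obtain ⟨A, hA1, hA2⟩ := ih (κ.take (j + 1)) (by rw [List.length_take]; omega)
          (hnc.tail.take _)
        obtain ⟨B, hB1, hB2⟩ := ih (κ.drop j) (by rw [List.length_drop]; omega)
          (hnc.tail.drop _)
        refine ⟨.merge 0 (j + 1) (shf A) (shf B), ⟨mOnly_shf hA1, mOnly_shf hB1⟩, ?_⟩
        intro C _ x hc
        cases x with
        | nil => rw [List.length_nil, List.length_cons] at hc; omega
        | cons c0 x =>
          rw [List.length_cons, List.length_cons] at hc
          have hc' : x.length = κ.length := by omega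
          show (if 0 < j + 1 ∧ j + 1 < (c0 :: x).length ∧ (c0 :: x)[0]? = (c0 :: x)[j + 1]? then
            (shf A).val (inn 0 (j + 1) (c0 :: x)) * (shf B).val (out 0 (j + 1) (c0 :: x)) else 0) = _
          have e1 : inn 0 (j + 1) (c0 :: x) = c0 :: x.take (j + 1) := by
            unfold inn
            rw [List.drop_zero, Nat.sub_zero, List.take_succ_cons]
          have e2 : out 0 (j + 1) (c0 :: x) = c0 :: x.drop j := by
            unfold out
            rw [List.drop_succ_cons, List.take_succ_cons, List.take_zero, List.singleton_append]
          rw [e1, e2, val_shf, val_shf,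
            hA2 C (x.take (j + 1)) (by rw [List.length_take, List.length_take, hc']),
            hB2 C (x.drop j) (by rw [List.length_drop, List.length_drop, hc'])]
          have key : Agr (a :: κ) (c0 :: x) ↔ ((c0 :: x)[0]? = (c0 :: x)[j + 1]? ∧
              Agr (κ.take (j + 1)) (x.take (j + 1)) ∧ Agr (κ.drop j) (x.drop j)) := by
            simp only [List.getElem?_cons_succ, List.getElem?_cons_zero]
            constructor
            · intro h
              refine ⟨?_, ?_, ?_⟩
              · have := h 0 (j + 1) (by simp) (by rw [List.length_cons]; omega)
                simp only [List.getElem?_cons_succ, List.getElem?_cons_zero] at this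
                exact this hj.symm
              · intro i l hi hl hil
                rw [List.length_take, lt_min_iff] at hi hl
                rw [List.getElem?_take_of_lt hi.1, List.getElem?_take_of_lt hl.1] at hil ⊢
                have := h (i + 1) (l + 1) (by rw [List.length_cons]; omega)
                  (by rw [List.length_cons]; omega)
                simp only [List.getElem?_cons_succ] at this
                exact this hil
              · intro i l hi hl hil
                rw [List.length_drop] at hi hl
                simp only [List.getElem?_drop] at hil ⊢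
                have := h (j + i + 1) (j + l + 1) (by rw [List.length_cons]; omega)
                  (by rw [List.length_cons]; omega)
                simp only [List.getElem?_cons_succ] at this
                exact this hil
            · rintro ⟨h0, hA, hB⟩
              have hA' : ∀ i l, i ≤ j → l ≤ j → κ[i]? = κ[l]? → x[i]? = x[l]? := by
                intro i l hi hl hil
                have := hA i l (by rw [List.length_take]; omega) (by rw [List.length_take]; omega)
                rw [List.getElem?_take_of_lt (by omega), List.getElem?_take_of_lt (by omega),
                  List.getElem?_take_of_lt (by omega), List.getElem?_take_of_lt (by omega)] at this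
                exact this hil
              have hB' : ∀ i l, j ≤ i → j ≤ l → i < κ.length → l < κ.length → κ[i]? = κ[l]? →
                  x[i]? = x[l]? := by
                intro i l hi hl hi' hl' hil
                have := hB (i - j) (l - j) (by rw [List.length_drop]; omega)
                  (by rw [List.length_drop]; omega)
                simp only [List.getElem?_drop] at this
                rw [show j + (i - j) = i by omega, show j + (l - j) = l by omega] at this
                exact this hil
              -- the case `i ≤ l` suffices
              have hmain : ∀ i l, i ≤ l → l < (a :: κ).length → (a :: κ)[i]? = (a :: κ)[l]? →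
                  (c0 :: x)[i]? = (c0 :: x)[l]? := by
                intro i l hil hl h
                rcases Nat.eq_zero_or_pos i with h1 | h1
                · subst h1
                  rcases Nat.eq_zero_or_pos l with h2 | h2
                  · subst h2; rfl
                  · obtain ⟨l, rfl⟩ : ∃ l', l = l' + 1 := ⟨l - 1, by omega⟩
                    rw [List.length_cons] at hl
                    simp only [List.getElem?_cons_succ, List.getElem?_cons_zero] at h ⊢
                    have h3 : j ≤ l := by
                      by_contra hcon
                      exact hfirst l (by omega) h.symm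
                    rw [h0]
                    exact hB' j l le_rfl h3 hjl (by omega) (by rw [hj]; exact h)
                · obtain ⟨i, rfl⟩ : ∃ i', i = i' + 1 := ⟨i - 1, by omega⟩
                  obtain ⟨l, rfl⟩ : ∃ l', l = l' + 1 := ⟨l - 1, by omega⟩
                  rw [List.length_cons] at hl
                  simp only [List.getElem?_cons_succ] at h ⊢
                  by_cases h2 : l ≤ j
                  · exact hA' i l (by omega) h2 h
                  · by_cases h3 : j ≤ i
                    · exact hB' i l h3 (by omega) (by omega) (by omega) h
                    · exfalso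
                      have := hnc 0 (i + 1) (j + 1) (l + 1) (by omega) (by omega) (by omega)
                        (by rw [List.length_cons]; omega)
                      simp only [List.getElem?_cons_succ, List.getElem?_cons_zero] at this
                      exact hfirst i (by omega) (this hj.symm h).symm
              intro i l hi hl h
              rcases Nat.le_total i l with h1 | h1
              · exact hmain i l h1 hl h
              · exact (hmain l i h1 hi h.symm).symm
          have h1 : 0 < j + 1 ∧ j + 1 < (c0 :: x).length :=
            ⟨by omega, by rw [List.length_cons]; omega⟩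
          by_cases hk1 : (c0 :: x)[0]? = (c0 :: x)[j + 1]?
          · rw [if_pos ⟨h1.1, h1.2, hk1⟩]
            by_cases hk2 : Agr (κ.take (j + 1)) (x.take (j + 1))
            · by_cases hk3 : Agr (κ.drop j) (x.drop j)
              · rw [if_pos hk2, if_pos hk3, if_pos (key.2 ⟨hk1, hk2, hk3⟩)]
              · rw [if_neg hk3, if_neg fun h => hk3 (key.1 h).2.2, mul_zero]
            · rw [if_neg hk2, if_neg fun h => hk2 (key.1 h).2.1, zero_mul]
          · rw [if_neg fun h => hk1 h.2.2, if_neg fun h => hk1 (key.1 h).1]
      · obtain ⟨T, hT1, hT2⟩ := ih κ (by omega) hnc.tail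
        refine ⟨shf T, mOnly_shf hT1, ?_⟩
        intro C _ x hc
        cases x with
        | nil => rw [List.length_nil, List.length_cons] at hc; omega
        | cons c0 x =>
          rw [List.length_cons, List.length_cons] at hc
          rw [val_shf, hT2 C x (by omega)]
          refine if_congr ?_ rfl rfl
          constructor
          · intro h i j hi hj hij
            rcases Nat.eq_zero_or_pos i with h1 | h1 <;> rcases Nat.eq_zero_or_pos j with h2 | h2
            · rw [h1, h2]
            · exfalso
              obtain ⟨j, rfl⟩ : ∃ l', j = l' + 1 := ⟨j - 1, by omega⟩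
              subst h1
              simp only [List.getElem?_cons_succ, List.getElem?_cons_zero] at hij
              exact ha (List.mem_iff_getElem?.2 ⟨j, hij.symm⟩)
            · exfalso
              obtain ⟨i, rfl⟩ : ∃ l', i = l' + 1 := ⟨i - 1, by omega⟩
              subst h2
              simp only [List.getElem?_cons_succ, List.getElem?_cons_zero] at hij
              exact ha (List.mem_iff_getElem?.2 ⟨i, hij⟩)
            · obtain ⟨i, rfl⟩ : ∃ l', i = l' + 1 := ⟨i - 1, by omega⟩
              obtain ⟨j, rfl⟩ : ∃ l', j = l' + 1 := ⟨j - 1, by omega⟩
              rw [List.length_cons] at hi hj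
              simp only [List.getElem?_cons_succ] at hij ⊢
              exact h i j (by omega) (by omega) hij
          · intro h i j hi hj hij
            have := h (i + 1) (j + 1) (by rw [List.length_cons]; omega)
              (by rw [List.length_cons]; omega)
            simp only [List.getElem?_cons_succ] at this
            exact this hij

/-- the row of a slot -/
def row (w s i : ℕ) : ℕ := Nat.land (Nat.shiftRight s (Nat.mul w i)) (2 ^ w - 1)

theorem testBit_row (w s i j : ℕ) :
    (row w s i).testBit j = (s.testBit (w * i + j) && decide (j < w)) := by
  show ((s >>> (w * i)) &&& (2 ^ w - 1)).testBit j = _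
  rw [Nat.testBit_and, Nat.testBit_shiftRight, Nat.testBit_two_pow_sub_one]

theorem row_eq_iff {w s : ℕ} (hs : Eqv w s) {i j : ℕ} (hi : i < w) (hj : j < w) :
    row w s i = row w s j ↔ s.testBit (w * i + j) = true := by
  constructor
  · intro h
    have h1 : (row w s j).testBit j = true := by
      rw [testBit_row, hs.rfl' j hj]; simp [hj]
    rw [← h, testBit_row] at h1
    exact (Bool.and_eq_true_iff.1 h1).1
  · intro h
    apply Nat.eq_of_testBit_eq
    intro k
    rw [testBit_row, testBit_row]
    by_cases hk : k < w
    · simp only [hk, decide_true, Bool.and_true]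
      rw [Bool.eq_iff_iff]
      constructor
      · intro h1; exact hs.trans j i k hj hi hk (hs.symm i j hi hj h) h1
      · intro h1; exact hs.trans i j k hi hj hk h h1
    · simp [hk]

/-- noncrossing pattern along the corner list `L` -/
def NCs (w s : ℕ) (L : List ℕ) : Prop :=
  ∀ i k j l, (h1 : i < k) → (h2 : k < j) → (h3 : j < l) → (hl : l < L.length) →
    s.testBit (w * L[i] + L[j]) = true → s.testBit (w * L[k] + L[l]) = true →
      s.testBit (w * L[i] + L[k]) = true

open scoped Classical in
/-- **Noncrossing patterns are fillings by merges.** -/
theorem exists_fill {w s : ℕ} (hs : Eqv w s) {L : List ℕ} (hL : ∀ p ∈ L, p < w)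
    (hcov : ∀ i j, i < w → j < w → s.testBit (w * i + j) = true → i ≠ j → i ∈ L)
    (hnc : NCs w s L) :
    ∃ T : Fill, MOnly T ∧ ∀ (C : Type) [DecidableEq C] (d : ℕ → C),
      T.val (L.map d) = if Sat w s d then 1 else 0 := by
  have hrow : ∀ i j (hi : i < L.length) (hj : j < L.length),
      (L.map (row w s))[i]? = (L.map (row w s))[j]? ↔ s.testBit (w * L[i] + L[j]) = true := by
    intro i j hi hj
    rw [List.getElem?_eq_getElem (by rwa [List.length_map]),
      List.getElem?_eq_getElem (by rwa [List.length_map]), List.getElem_map, List.getElem_map,
      Option.some_inj, row_eq_iff hs (hL _ (List.getElem_mem hi)) (hL _ (List.getElem_mem hj))]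
  obtain ⟨T, hT1, hT2⟩ := exists_fill_aux L.length (L.map (row w s)) (by rw [List.length_map])
    (by
      intro i k j l h1 h2 h3 h4 h5 h6
      rw [List.length_map] at h4
      rw [hrow _ _ (by omega) (by omega)] at h5 h6 ⊢
      exact hnc i k j l h1 h2 h3 h4 h5 h6)
  refine ⟨T, hT1, ?_⟩
  intro C _ d
  have hw : L.length = 0 ∨ 0 < w := by
    rcases Nat.eq_zero_or_pos L.length with h | h
    · exact Or.inl h
    · right
      have := hL _ (List.getElem_mem h)
      omega
  rw [hT2 C (L.map d) (by rw [List.length_map, List.length_map])]
  refine if_congr ?_ rfl rfl
  rcases Nat.eq_zero_or_pos w with hw0 | hw0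
  · subst hw0
    constructor
    · intro _ k hk
      exact absurd (hs.lt k hk) (by simp)
    · intro _ i j hi
      rw [List.length_map] at hi
      rcases hw with h | h <;> omega
  rw [sat_iff hw0 hs]
  constructor
  · intro h i j hi hj hij
    by_cases hne : i = j
    · rw [hne]
    · have hi' := hcov i j hi hj hij hne
      have hj' := hcov j i hj hi (hs.symm i j hi hj hij) (Ne.symm hne)
      obtain ⟨a, ha, ha'⟩ := List.mem_iff_getElem.1 hi'
      obtain ⟨b, hb, hb'⟩ := List.mem_iff_getElem.1 hj'
      have h1 := h a b (by rwa [List.length_map]) (by rwa [List.length_map])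
        ((hrow a b ha hb).2 (by rw [ha', hb']; exact hij))
      rw [List.getElem?_eq_getElem (by rwa [List.length_map]),
        List.getElem?_eq_getElem (by rwa [List.length_map]), List.getElem_map, List.getElem_map,
        Option.some_inj, ha', hb'] at h1
      exact h1
  · intro h i j hi hj hij
    rw [List.length_map] at hi hj
    rw [hrow i j hi hj] at hij
    rw [List.getElem?_eq_getElem (by rwa [List.length_map]),
      List.getElem?_eq_getElem (by rwa [List.length_map]), List.getElem_map, List.getElem_map,
      Option.some_inj]
    exact h _ _ (hL _ (List.getElem_mem hi)) (hL _ (List.getElem_mem hj)) hij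

end Pool.Agent.U5C
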