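import Pool.Agent.U5C.Elim

/-!
# Naturality in the coefficients
-/

set_option autoImplicit false

noncomputable section

namespace Pool.Agent.U5C

/-- map on coefficients -/
def FL.map {K K' : Type} (φ : K → K') : FL K → FL K'
  | .nil => .nil
  | .cons s c L => .cons s (φ c) (FL.map φ L)

def Tr.map {K K' : Type} (φ : K → K') : Tr K → Tr K'
  | .lf L => .lf (L.map φ)
  | .nd l r => .nd (Tr.map φ l) (Tr.map φ r)

/-- homomorphisms of coefficient structures -/
structure Hm {K K' : Type} (neg mq : K → K) (add : K → K → K) (neg' mq' : K' → K')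
    (add' : K' → K' → K') (φ : K → K') : Prop where
  neg : ∀ c, φ (neg c) = neg' (φ c)
  mq : ∀ c, φ (mq c) = mq' (φ c)
  add : ∀ c d, φ (add c d) = add' (φ c) (φ d)

section

variable {K K' : Type} {neg mq : K → K} {add : K → K → K} {neg' mq' : K' → K'}
  {add' : K' → K' → K'} {φ : K → K'} {w R C : ℕ}

@[simp] theorem FL.map_nil : (FL.nil : FL K).map φ = FL.nil := rfl
@[simp] theorem FL.map_cons (s : ℕ) (c : K) (L : FL K) :
    (FL.cons s c L).map φ = FL.cons s (φ c) (L.map φ) := rfl
@[simp] theorem Tr.map_lf (L : FL K) : (Tr.lf L).map φ = Tr.lf (L.map φ) := rfl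
@[simp] theorem Tr.map_nd (l r : Tr K) : (Tr.nd l r).map φ = Tr.nd (l.map φ) (r.map φ) := rfl

theorem map_addA (h : Hm neg mq add neg' mq' add' φ) (s : ℕ) (c : K) (L : FL K) :
    (addA add s c L).map φ = addA add' s (φ c) (L.map φ) := by
  induction L with
  | nil => rfl
  | cons t c' tl ih =>
    rw [FL.map_cons, addA_cons, addA_cons]
    cases Nat.beq s t with
    | true => simp only [FL.map_cons, h.add]
    | false => simp only [FL.map_cons, ih]

theorem map_ins (hh : Hm neg mq add neg' mq' add' φ) (s : ℕ) (c : K) (T : Tr K) (h : ℕ) :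
    (T.ins add s c h).map φ = (T.map φ).ins add' s (φ c) h := by
  induction T generalizing h with
  | lf L => exact congrArg Tr.lf (map_addA hh s c L)
  | nd l r ihl ihr =>
    rw [Tr.map_nd, ins_nd, ins_nd]
    cases Nat.beq (Nat.mod h 2) 0 with
    | true => simp only [Tr.map_nd, ihl]
    | false => simp only [Tr.map_nd, ihr]

theorem map_insAll (hh : Hm neg mq add neg' mq' add' φ) (p : ℕ) (L : FL K) (T : Tr K) :
    (insAll add p L T).map φ = insAll add' p (L.map φ) (T.map φ) := by
  induction L generalizing T with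
  | nil => rfl
  | cons s c L ih =>
    show (insAll add p L (T.ins add s c (Nat.mod s p))).map φ =
      insAll add' p (L.map φ) ((T.map φ).ins add' s (φ c) (Nat.mod s p))
    rw [ih, map_ins hh]

theorem map_emp (n : ℕ) : (Tr.emp K n).map φ = Tr.emp K' n := by
  induction n with
  | zero => rfl
  | succ n ih =>
    show Tr.nd ((Tr.emp K n).map φ) ((Tr.emp K n).map φ) = Tr.nd (Tr.emp K' n) (Tr.emp K' n)
    rw [ih]

theorem map_mulNE (hh : Hm neg mq add neg' mq' add' φ) (adj a b : ℕ) (L : FL K) :
    (mulNE neg w R C adj a b L).map φ = mulNE neg' w R C adj a b (L.map φ) := by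
  induction L with
  | nil => rfl
  | cons s c L ih =>
    rw [FL.map_cons, mulNE_cons, mulNE_cons]
    cases Nat.beq (Nat.land (Nat.shiftRight s (Nat.add (Nat.mul w a) b)) 1) 1 with
    | true => exact ih
    | false =>
      cases Nat.beq (Nat.land (mrg w R C a b s) adj) 0 with
      | true => simp only [FL.map_cons, ih, hh.neg]
      | false => simp only [FL.map_cons, ih]

theorem map_mulNEs (hh : Hm neg mq add neg' mq' add' φ) (adj b : ℕ) (us : List ℕ) (L : FL K) :
    (mulNEs neg w R C adj b us L).map φ = mulNEs neg' w R C adj b us (L.map φ) := by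
  induction us generalizing L with
  | nil => rfl
  | cons u us ih =>
    show (mulNEs neg w R C adj b us (mulNE neg w R C adj b u L)).map φ =
      mulNEs neg' w R C adj b us (mulNE neg' w R C adj b u (L.map φ))
    rw [ih, map_mulNE hh]

theorem map_elimGo (hh : Hm neg mq add neg' mq' add' φ) (adj s : ℕ) (c : K) (nb E : List ℕ)
    (p : ℕ) (T : Tr K) : (elimGo neg add w R C adj s c nb E p T).map φ =
      elimGo neg' add' w R C adj s (φ c) nb E p (T.map φ) := by
  induction nb generalizing E T with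
  | nil => rfl
  | cons u us ih =>
    show (elimGo neg add w R C adj s c us (u :: E) p
      (insAll add p (mulNEs neg w R C adj u E (FL.cons s (neg c) FL.nil)) T)).map φ =
      elimGo neg' add' w R C adj s (φ c) us (u :: E) p
      (insAll add' p (mulNEs neg' w R C adj u E (FL.cons s (neg' (φ c)) FL.nil)) (T.map φ))
    rw [ih, map_insAll hh, map_mulNEs hh, FL.map_cons, hh.neg, FL.map_nil]

theorem map_elimT (hh : Hm neg mq add neg' mq' add' φ) (adj v kp : ℕ) (nb : List ℕ) (p s : ℕ)
    (c : K) (T : Tr K) : (elimT neg mq add w R C adj v kp nb p s c T).map φ =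
      elimT neg' mq' add' w R C adj v kp nb p s (φ c) (T.map φ) := by
  rw [elimT_eq, elimT_eq]
  cases Nat.beq (Nat.xor (Nat.land (Nat.shiftRight s (Nat.mul w v)) R) (Nat.pow 2 v)) 0 with
  | true => simp only [map_elimGo hh, map_ins hh, hh.mq]
  | false => simp only [map_insAll hh, map_mulNEs hh, FL.map_cons, FL.map_nil]

theorem map_elimL (hh : Hm neg mq add neg' mq' add' φ) (adj v kp : ℕ) (nb : List ℕ) (p : ℕ)
    (L : FL K) (T : Tr K) : (elimL neg mq add w R C adj v kp nb p L T).map φ =
      elimL neg' mq' add' w R C adj v kp nb p (L.map φ) (T.map φ) := by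
  induction L generalizing T with
  | nil => rfl
  | cons s c L ih =>
    show (elimL neg mq add w R C adj v kp nb p L
      (elimT neg mq add w R C adj v kp nb p s c T)).map φ =
      elimL neg' mq' add' w R C adj v kp nb p (L.map φ)
      (elimT neg' mq' add' w R C adj v kp nb p s (φ c) (T.map φ))
    rw [ih, map_elimT hh]

theorem map_elimA (hh : Hm neg mq add neg' mq' add' φ) (adj v kp : ℕ) (nb : List ℕ) (p : ℕ)
    (T0 : Tr K) (T : Tr K) : (elimA neg mq add w R C adj v kp nb p T0 T).map φ =
      elimA neg' mq' add' w R C adj v kp nb p (T0.map φ) (T.map φ) := by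
  induction T0 generalizing T with
  | lf L => exact map_elimL hh adj v kp nb p L T
  | nd l r ihl ihr =>
    show (elimA neg mq add w R C adj v kp nb p r
      (elimA neg mq add w R C adj v kp nb p l T)).map φ =
      elimA neg' mq' add' w R C adj v kp nb p (r.map φ)
      (elimA neg' mq' add' w R C adj v kp nb p (l.map φ) (T.map φ))
    rw [ihr, ihl]

theorem map_expand (hh : Hm neg mq add neg' mq' add' φ) (p n : ℕ) (T0 : Tr K)
    (vs : List (ℕ × List ℕ)) (adj : ℕ) : (expand neg mq add w R C p n T0 vs adj).map φ =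
      expand neg' mq' add' w R C p n (T0.map φ) vs adj := by
  induction vs generalizing adj with
  | nil => rfl
  | cons v vs ih =>
    rw [expand_cons, expand_cons, map_elimA hh, ih, map_emp]

variable {A A' : Type} [CommRing A] [CommRing A']

theorem lin_map (ι : K' → A) (Λ : ℕ → A) (L : FL K) :
    lin ι Λ (L.map φ) = lin (fun c => ι (φ c)) Λ L := by
  induction L with
  | nil => rfl
  | cons s c L ih => rw [FL.map_cons, lin_cons, lin_cons, ih]

theorem linT_map (ι : K' → A) (Λ : ℕ → A) (T : Tr K) :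
    linT ι Λ (T.map φ) = linT (fun c => ι (φ c)) Λ T := by
  induction T with
  | lf L => exact lin_map ι Λ L
  | nd l r ihl ihr => rw [Tr.map_nd, linT_nd, linT_nd, ihl, ihr]

end

/-! ### integer coefficients as differences -/

/-- coefficients for the kernel -/
abbrev K2 : Type := ℕ × ℕ

def neg2 (c : K2) : K2 := (c.2, c.1)
def mq2 (c : K2) : K2 := (Nat.mul 5 c.1, Nat.mul 5 c.2)
def add2 (c d : K2) : K2 := (Nat.add c.1 d.1, Nat.add c.2 d.2)

/-- value of a pair -/
def i2 (c : K2) : ℤ := (c.1 : ℤ) - (c.2 : ℤ)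

theorem hm2 : Hm neg2 mq2 add2 (fun c : ℤ => - c) (fun c : ℤ => 5 * c) (fun c d : ℤ => c + d) i2 := by
  refine ⟨?_, ?_, ?_⟩
  · intro c
    show (c.2 : ℤ) - c.1 = -((c.1 : ℤ) - c.2)
    ring
  · intro c
    show ((5 * c.1 : ℕ) : ℤ) - ((5 * c.2 : ℕ) : ℤ) = 5 * ((c.1 : ℤ) - c.2)
    push_cast; ring
  · intro c d
    show ((c.1 + d.1 : ℕ) : ℤ) - ((c.2 + d.2 : ℕ) : ℤ) = ((c.1 : ℤ) - c.2) + ((d.1 : ℤ) - d.2)
    push_cast; ring

open Polynomial in
/-- evaluation at `5` -/
theorem hm5 : Hm (fun c : ℤ[X] => - c) (fun c : ℤ[X] => X * c) (fun c d : ℤ[X] => c + d)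
    (fun c : ℤ => - c) (fun c : ℤ => 5 * c) (fun c d : ℤ => c + d)
    (fun c => c.eval 5) := by
  refine ⟨?_, ?_, ?_⟩
  · intro c; simp
  · intro c; simp
  · intro c d; simp

open Polynomial in
/-- interpretation of `ℤ[X]` in `ℝ` (or any commutative ring) at `q` -/
theorem ipX {A : Type} [CommRing A] (q : A) : Ip (fun c : ℤ[X] => - c) (fun c : ℤ[X] => X * c)
    (fun c d : ℤ[X] => c + d) (fun c => aeval q c) q := by
  refine ⟨?_, ?_, ?_⟩
  · intro c; simp
  · intro c; simp
  · intro c d; simp

end Pool.Agent.U5C
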