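import Pool.Agent.U5C.Nat

/-!
# From `q = 5` to `q` near `5`

A trie with coefficients in `ℤ[X]` whose values at `5` are positive has nonnegative values for all
`q` near `5`; hence a linear functional which is nonnegative on the codes that occur is nonnegative
on it.
-/

set_option autoImplicit false

noncomputable section

namespace Pool.Agent.U5C

open Polynomial

section

variable {K K' : Type}

/-- all coefficients satisfy `P` -/
def CofL (P : K → Prop) : FL K → Prop
  | .nil => True
  | .cons _ c L => P c ∧ CofL P L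

def CofT (P : K → Prop) : Tr K → Prop
  | .lf L => CofL P L
  | .nd l r => CofT P l ∧ CofT P r

theorem CofL.mono {P Q : K → Prop} (h : ∀ c, P c → Q c) {L : FL K} (hL : CofL P L) : CofL Q L := by
  induction L with
  | nil => trivial
  | cons s c L ih => exact ⟨h c hL.1, ih hL.2⟩

theorem CofT.mono {P Q : K → Prop} (h : ∀ c, P c → Q c) {T : Tr K} (hT : CofT P T) : CofT Q T := by
  induction T with
  | lf L => exact CofL.mono h hT
  | nd l r ihl ihr => exact ⟨ihl hT.1, ihr hT.2⟩

theorem cofL_map {P : K' → Prop} {φ : K → K'} {L : FL K} :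
    CofL P (L.map φ) ↔ CofL (fun c => P (φ c)) L := by
  induction L with
  | nil => exact Iff.rfl
  | cons s c L ih => exact and_congr Iff.rfl ih

theorem cofT_map {P : K' → Prop} {φ : K → K'} {T : Tr K} :
    CofT P (T.map φ) ↔ CofT (fun c => P (φ c)) T := by
  induction T with
  | lf L => exact cofL_map
  | nd l r ihl ihr => exact and_congr ihl ihr

theorem allL_map {P : ℕ → Prop} {φ : K → K'} {L : FL K} : AllL P (L.map φ) ↔ AllL P L := by
  induction L with
  | nil => exact Iff.rfl
  | cons s c L ih => exact and_congr Iff.rfl ih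

theorem allT_map {P : ℕ → Prop} {φ : K → K'} {T : Tr K} : AllT P (T.map φ) ↔ AllT P T := by
  induction T with
  | lf L => exact allL_map
  | nd l r ihl ihr => exact and_congr ihl ihr

theorem AllL.mono {P Q : ℕ → Prop} (h : ∀ s, P s → Q s) {L : FL K} (hL : AllL P L) :
    AllL Q L := by
  induction L with
  | nil => trivial
  | cons s c L ih => exact ⟨h s hL.1, ih hL.2⟩

theorem AllT.mono {P Q : ℕ → Prop} (h : ∀ s, P s → Q s) {T : Tr K} (hT : AllT P T) :
    AllT Q T := by
  induction T with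
  | lf L => exact AllL.mono h hT
  | nd l r ihl ihr => exact ⟨ihl hT.1, ihr hT.2⟩

/-! ### nonnegative combinations -/

theorem lin_nonneg {ι : K → ℝ} {Λ : ℕ → ℝ} {L : FL K} (hc : CofL (fun c => 0 ≤ ι c) L)
    (hs : AllL (fun s => 0 ≤ Λ s) L) : 0 ≤ lin ι Λ L := by
  induction L with
  | nil => exact le_refl _
  | cons s c L ih =>
    rw [lin_cons]
    exact add_nonneg (mul_nonneg hc.1 hs.1) (ih hc.2 hs.2)

theorem linT_nonneg {ι : K → ℝ} {Λ : ℕ → ℝ} {T : Tr K} (hc : CofT (fun c => 0 ≤ ι c) T)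
    (hs : AllT (fun s => 0 ≤ Λ s) T) : 0 ≤ linT ι Λ T := by
  induction T with
  | lf L => exact lin_nonneg hc hs
  | nd l r ihl ihr => exact add_nonneg (ihl hc.1 hs.1) (ihr hc.2 hs.2)

/-! ### continuity -/

theorem near_one (c : ℤ[X]) (h : 0 < c.eval 5) :
    ∃ δ : ℝ, 0 < δ ∧ ∀ q : ℝ, |q - 5| < δ → 0 ≤ aeval q c := by
  have hcont : Continuous fun q : ℝ => aeval q c := by
    simpa [aeval_def] using (c.continuous_eval₂ (Int.castRingHom ℝ))
  have h5 : (0 : ℝ) < aeval (5 : ℝ) c := by
    have e : aeval (5 : ℝ) c = ((c.eval 5 : ℤ) : ℝ) := by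
      have := Polynomial.eval_intCast_map (Int.castRingHom ℝ) c 5
      rw [aeval_def, ← eval_map]
      simpa using this
    rw [e]
    exact_mod_cast h
  have hev := (hcont.tendsto 5).eventually (lt_mem_nhds h5)
  rw [Metric.eventually_nhds_iff] at hev
  obtain ⟨δ, hδ, hball⟩ := hev
  refine ⟨δ, hδ, fun q hq => (hball ?_).le⟩
  rw [Real.dist_eq]
  exact hq

theorem near_L (L : FL ℤ[X]) (h : CofL (fun c => 0 < c.eval 5) L) :
    ∃ δ : ℝ, 0 < δ ∧ ∀ q : ℝ, |q - 5| < δ → CofL (fun c => 0 ≤ aeval q c) L := by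
  induction L with
  | nil => exact ⟨1, one_pos, fun _ _ => trivial⟩
  | cons s c L ih =>
    obtain ⟨δ, hδ, h1⟩ := near_one c h.1
    obtain ⟨δ', hδ', h2⟩ := ih h.2
    exact ⟨min δ δ', lt_min hδ hδ', fun q hq =>
      ⟨h1 q (lt_of_lt_of_le hq (min_le_left _ _)), h2 q (lt_of_lt_of_le hq (min_le_right _ _))⟩⟩

theorem near_T (T : Tr ℤ[X]) (h : CofT (fun c => 0 < c.eval 5) T) :
    ∃ δ : ℝ, 0 < δ ∧ ∀ q : ℝ, |q - 5| < δ → CofT (fun c => 0 ≤ aeval q c) T := by
  induction T with
  | lf L => exact near_L L h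
  | nd l r ihl ihr =>
    obtain ⟨δ, hδ, h1⟩ := ihl h.1
    obtain ⟨δ', hδ', h2⟩ := ihr h.2
    exact ⟨min δ δ', lt_min hδ hδ', fun q hq =>
      ⟨h1 q (lt_of_lt_of_le hq (min_le_left _ _)), h2 q (lt_of_lt_of_le hq (min_le_right _ _))⟩⟩

/-! ### the kernel test -/

/-- all coefficients are positive and all codes pass the test -/
def posL (tst : ℕ → Bool) (L : FL K2) : Bool :=
  @FL.rec K2 (fun _ => Bool) true (fun s c _ ih =>
    @Bool.rec (fun _ => Bool) false
      (@Bool.rec (fun _ => Bool) false ih (tst s)) (Nat.ble (Nat.succ c.2) c.1)) L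

def posT (tst : ℕ → Bool) (T : Tr K2) : Bool :=
  @Tr.rec K2 (fun _ => Bool) (fun L => posL tst L)
    (fun _ _ ihl ihr => @Bool.rec (fun _ => Bool) false ihr ihl) T

theorem posL_cons (tst : ℕ → Bool) (s : ℕ) (c : K2) (L : FL K2) :
    posL tst (FL.cons s c L) = @Bool.rec (fun _ => Bool) false
      (@Bool.rec (fun _ => Bool) false (posL tst L) (tst s)) (Nat.ble (Nat.succ c.2) c.1) := rfl

theorem posL_sound {tst : ℕ → Bool} {L : FL K2} (h : posL tst L = true) :
    CofL (fun c => 0 < i2 c) L ∧ AllL (fun s => tst s = true) L := by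
  induction L with
  | nil => exact ⟨trivial, trivial⟩
  | cons s c L ih =>
    rw [posL_cons] at h
    cases h1 : Nat.ble (Nat.succ c.2) c.1 with
    | false => rw [h1] at h; exact absurd h Bool.false_ne_true
    | true =>
      rw [h1] at h
      cases h2 : tst s with
      | false => rw [h2] at h; exact absurd h Bool.false_ne_true
      | true =>
        rw [h2] at h
        have h3 : c.2 < c.1 := Nat.le_of_ble_eq_true h1
        have h4 := ih h
        refine ⟨⟨?_, h4.1⟩, ⟨h2, h4.2⟩⟩
        show 0 < (c.1 : ℤ) - (c.2 : ℤ)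
        omega

theorem posT_sound {tst : ℕ → Bool} {T : Tr K2} (h : posT tst T = true) :
    CofT (fun c => 0 < i2 c) T ∧ AllT (fun s => tst s = true) T := by
  induction T with
  | lf L => exact posL_sound h
  | nd l r ihl ihr =>
    have e : posT tst (Tr.nd l r) = @Bool.rec (fun _ => Bool) false (posT tst r) (posT tst l) := rfl
    rw [e] at h
    cases h1 : posT tst l with
    | false => rw [h1] at h; exact absurd h Bool.false_ne_true
    | true =>
      rw [h1] at h
      have a := ihl h1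
      have b := ihr h
      exact ⟨⟨a.1, b.1⟩, ⟨a.2, b.2⟩⟩

/-- The kernel test on the residual at `5` gives a trie over `ℤ[X]` on which every functional that
is nonnegative on tested codes is nonnegative, for all `q` near `5`. -/
theorem near_of_posT {tst : ℕ → Bool} {T : Tr ℤ[X]} {T2 : Tr K2}
    (e : T.map (fun c => c.eval 5) = T2.map i2) (h : posT tst T2 = true) :
    ∃ δ : ℝ, 0 < δ ∧ ∀ q : ℝ, |q - 5| < δ → ∀ Λ : ℕ → ℝ, (∀ s, tst s = true → 0 ≤ Λ s) →
      0 ≤ linT (fun c : ℤ[X] => aeval q c) Λ T := by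
  obtain ⟨h1, h2⟩ := posT_sound h
  have h3 : CofT (fun c : ℤ[X] => 0 < c.eval 5) T := by
    rw [← cofT_map (P := fun c : ℤ => 0 < c) (φ := fun c : ℤ[X] => c.eval 5), e, cofT_map]
    exact h1
  have h4 : AllT (fun s => tst s = true) T := by
    rw [← allT_map (φ := fun c : ℤ[X] => c.eval 5), e, allT_map]
    exact h2
  obtain ⟨δ, hδ, h5⟩ := near_T T h3
  exact ⟨δ, hδ, fun q hq Λ hΛ => linT_nonneg (h5 q hq) (h4.mono hΛ)⟩

end

end Pool.Agent.U5C
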