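import Pool.Agent.U5C.Rot

/-!
# The final form of the certificate and its consequence

The symmetrisation is done by doubling (reflection, rotation by 6) and tripling (rotations by 2
and 4), and the expansion of the flat window is not symmetrised.
-/

set_option autoImplicit false

noncomputable section

namespace Pool.Agent.U5C

open Polynomial
open Pool.Agent.Helper1.PG (Fill)

/-! ### the program -/

section

variable {K : Type} (neg mq : K → K) (add : K → K → K) (sm : ℕ → K → K) (cst : ℕ → K)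

/-- `T + g T` -/
def dbl (g : ℕ → ℕ) (T : Tr K) : Tr K := addTs add g (fun c => c) 4093 T T

/-- `T + g T + g' T` -/
def tri (g g' : ℕ → ℕ) (T : Tr K) : Tr K :=
  addTs add g' (fun c => c) 4093 T (addTs add g (fun c => c) 4093 T T)

/-- the sum over the dihedral group -/
def sym12 (T : Tr K) : Tr K :=
  tri add (bp oRot2) (bp oRot4) (dbl add (bp oRot6) (dbl add reflP T))

/-- `t id + columns + flux A` -/
def rest (t : ℕ) (cols0 : List (ℕ × Fill)) (GA : List ((ℕ × ℕ) × Fill)) : Tr K :=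
  addTs add (fun s => s) (fun c => c) 4093 (fluxA neg mq add cst RN CN 4093 12 AN GA)
    (addCols neg add cst RN CN 4093 AN cols0
      ((Tr.emp K 12).ins add (idp 19 19) (cst t) (Nat.mod (idp 19 19) 4093)))

/-- the symmetrised centre bracket -/
def finC (D t : ℕ) (cols0 : List (ℕ × Fill)) (GA : List ((ℕ × ℕ) × Fill)) : Tr K :=
  addTs add (fun s => s) (fun c => neg (sm (Nat.mul 12 D) c)) 4093
    (F7 neg mq add cst RN CN 4093 12 AN) (sym12 add (rest neg mq add cst t cols0 GA))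

/-- the symmetrised outer bracket -/
def finO (cols1 : List (ℕ × Fill)) (GA GB : List ((ℕ × ℕ) × Fill)) : Tr K :=
  dbl add reflP (outer neg mq add cst RN CN 4093 12 AN cols1 GA GB)

end

/-- what the kernel checks -/
structure ChkN (z : Dat) : Prop where
  ring0 : chkT (fun s _ => ringB MN JN s) (rest neg2 mq2 add2 cst2 z.t z.cols0 z.GA) = true
  ring1 : chkT (fun s _ => ringB MN JN s)
    (outer neg2 mq2 add2 cst2 RN CN 4093 12 AN z.cols1 z.GA z.GB) = true
  sym0 : chkT (fun s c => @Bool.rec (fun _ => Bool) false (tstN s) (negB c))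
    (finC neg2 mq2 add2 sm2 cst2 z.D z.t z.cols0 z.GA) = true
  sym1 : chkT (fun s c => @Bool.rec (fun _ => Bool) false (tstN s) (negB c))
    (finO neg2 mq2 add2 cst2 z.cols1 z.GA z.GB) = true

/-! ### meaning -/

section

variable {K K' : Type} {neg mq : K → K} {add : K → K → K} {sm : ℕ → K → K} {cst : ℕ → K}
  {neg' mq' : K' → K'} {add' : K' → K' → K'} {sm' : ℕ → K' → K'} {cst' : ℕ → K'} {φ : K → K'}

theorem map_dbl (h : HmS neg mq add sm cst neg' mq' add' sm' cst' φ) (g : ℕ → ℕ) (T : Tr K) :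
    (dbl add g T).map φ = dbl add' g (T.map φ) :=
  map_addTs h.toHm g _ (fun c => c) (fun _ => rfl) _ _ _

theorem map_tri (h : HmS neg mq add sm cst neg' mq' add' sm' cst' φ) (g g' : ℕ → ℕ)
    (T : Tr K) : (tri add g g' T).map φ = tri add' g g' (T.map φ) := by
  unfold tri
  rw [map_addTs h.toHm _ _ (fun c => c) (fun _ => rfl),
    map_addTs h.toHm _ _ (fun c => c) (fun _ => rfl)]

theorem map_sym12 (h : HmS neg mq add sm cst neg' mq' add' sm' cst' φ) (T : Tr K) :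
    (sym12 add T).map φ = sym12 add' (T.map φ) := by
  unfold sym12
  rw [map_tri h, map_dbl h, map_dbl h]

theorem map_rest (h : HmS neg mq add sm cst neg' mq' add' sm' cst' φ) (t : ℕ)
    (cols0 : List (ℕ × Fill)) (GA : List ((ℕ × ℕ) × Fill)) :
    (rest neg mq add cst t cols0 GA).map φ = rest neg' mq' add' cst' t cols0 GA := by
  unfold rest
  rw [map_addTs h.toHm _ _ (fun c => c) (fun _ => rfl), map_fluxA h, map_addCols h,
    map_ins h.toHm, map_emp, h.cst]

theorem map_finC (h : HmS neg mq add sm cst neg' mq' add' sm' cst' φ) (D t : ℕ)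
    (cols0 : List (ℕ × Fill)) (GA : List ((ℕ × ℕ) × Fill)) :
    (finC neg mq add sm cst D t cols0 GA).map φ =
      finC neg' mq' add' sm' cst' D t cols0 GA := by
  unfold finC
  rw [map_addTs h.toHm _ _ (fun c => neg' (sm' (Nat.mul 12 D) c))
      (fun c => by rw [h.neg, h.sm]), map_F7 h, map_sym12 h, map_rest h]

theorem map_finO (h : HmS neg mq add sm cst neg' mq' add' sm' cst' φ)
    (cols1 : List (ℕ × Fill)) (GA GB : List ((ℕ × ℕ) × Fill)) :
    (finO neg mq add cst cols1 GA GB).map φ = finO neg' mq' add' cst' cols1 GA GB := by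
  unfold finO
  rw [map_dbl h, map_outer h]

end

section

variable {q : ℝ} {Λ : ℕ → ℝ}

theorem LT_comp_eq {g : ℕ → ℕ} (hg : ∀ s, RP s → Λ (g s) = Λ s) {T : Tr ℤ[X]}
    (hT : AllT RP T) : linT (fun c : ℤ[X] => aeval q ((fun c => c) c)) (fun s => Λ (g s)) T =
      LT q Λ T :=
  linT_congr (fun c : ℤ[X] => aeval q c) hg hT

theorem LT_dbl {g : ℕ → ℕ} (hg : ∀ s, RP s → Λ (g s) = Λ s) {T : Tr ℤ[X]}
    (hT : AllT RP T) : LT q Λ (dbl addX g T) = 2 * LT q Λ T := by
  unfold dbl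
  have h := linT_addTs (fun c : ℤ[X] => aeval q c) Λ (ipq q) g (fun c => c) 4093 T T
  rw [LT_comp_eq hg hT] at h
  show linT (fun c : ℤ[X] => aeval q c) Λ _ = _
  rw [h]; unfold LT; ring

theorem LT_tri {g g' : ℕ → ℕ} (hg : ∀ s, RP s → Λ (g s) = Λ s)
    (hg' : ∀ s, RP s → Λ (g' s) = Λ s) {T : Tr ℤ[X]}
    (hT : AllT RP T) : LT q Λ (tri addX g g' T) = 3 * LT q Λ T := by
  unfold tri
  have h := linT_addTs (fun c : ℤ[X] => aeval q c) Λ (ipq q) g (fun c => c) 4093 T T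
  rw [LT_comp_eq hg hT] at h
  have h' := linT_addTs (fun c : ℤ[X] => aeval q c) Λ (ipq q) g' (fun c => c) 4093 T
    (addTs addX g (fun c => c) 4093 T T)
  rw [LT_comp_eq hg' hT, h] at h'
  show linT (fun c : ℤ[X] => aeval q c) Λ _ = _
  rw [h']; unfold LT; ring

theorem allT_dbl {K : Type} {add : K → K → K} {g : ℕ → ℕ} (hg : ∀ s, RP s → RP (g s))
    {T : Tr K} (hT : AllT RP T) : AllT RP (dbl add g T) := allT_addTs hg _ _ hT hT

theorem allT_tri {K : Type} {add : K → K → K} {g g' : ℕ → ℕ} (hg : ∀ s, RP s → RP (g s))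
    (hg' : ∀ s, RP s → RP (g' s)) {T : Tr K} (hT : AllT RP T) :
    AllT RP (tri add g g' T) := allT_addTs hg' _ _ hT (allT_addTs hg _ _ hT hT)

end

theorem perm_rot2 : permOk [2, 3, 4, 5, 6, 7, 8, 9, 10, 11, 0, 1]
    [10, 11, 0, 1, 2, 3, 4, 5, 6, 7, 8, 9] := by decide +kernel
theorem perm_rot4 : permOk [4, 5, 6, 7, 8, 9, 10, 11, 0, 1, 2, 3]
    [8, 9, 10, 11, 0, 1, 2, 3, 4, 5, 6, 7] := by decide +kernel
theorem perm_rot6 : permOk [6, 7, 8, 9, 10, 11, 0, 1, 2, 3, 4, 5]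
    [6, 7, 8, 9, 10, 11, 0, 1, 2, 3, 4, 5] := by decide +kernel
theorem perm_refl : permOk [0, 11, 10, 9, 8, 7, 6, 5, 4, 3, 2, 1]
    [0, 11, 10, 9, 8, 7, 6, 5, 4, 3, 2, 1] := by decide +kernel

theorem rp_rot2 (s : ℕ) (hs : RP s) : RP (bp oRot2 s) := rp_bp isBP_rot2 perm_rot2 hs
theorem rp_rot4 (s : ℕ) (hs : RP s) : RP (bp oRot4 s) := rp_bp isBP_rot4 perm_rot4 hs
theorem rp_rot6 (s : ℕ) (hs : RP s) : RP (bp oRot6 s) := rp_bp isBP_rot6 perm_rot6 hs
theorem rp_refl (s : ℕ) (hs : RP s) : RP (reflP s) := rp_bp isBP_refl perm_refl hs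

theorem allT_sym12 {K : Type} {add : K → K → K} {T : Tr K} (hT : AllT RP T) :
    AllT RP (sym12 add T) :=
  allT_tri rp_rot2 rp_rot4 (allT_dbl rp_rot6 (allT_dbl rp_refl hT))

theorem LT_sym12 {q : ℝ} {Λ : ℕ → ℝ}
    (h : ∀ π ∈ gs0, ∀ s, Eqv 19 s → ringB MN JN s = true → Λ (relab 19 RN CN π scR s) = Λ s)
    {T : Tr ℤ[X]} (hT : AllT RP T) : LT q Λ (sym12 addX T) = 12 * LT q Λ T := by
  have a2 : ∀ s, RP s → Λ (bp oRot2 s) = Λ s := fun s hs => by
    rw [eq_relab isBP_rot2 perm_rot2 hs]; exact h _ (by decide) s hs.1 hs.2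
  have a4 : ∀ s, RP s → Λ (bp oRot4 s) = Λ s := fun s hs => by
    rw [eq_relab isBP_rot4 perm_rot4 hs]; exact h _ (by decide) s hs.1 hs.2
  have a6 : ∀ s, RP s → Λ (bp oRot6 s) = Λ s := fun s hs => by
    rw [eq_relab isBP_rot6 perm_rot6 hs]; exact h _ (by decide) s hs.1 hs.2
  have ar : ∀ s, RP s → Λ (reflP s) = Λ s := fun s hs => by
    rw [eq_relab isBP_refl perm_refl hs]; exact h _ (by decide) s hs.1 hs.2
  unfold sym12
  rw [LT_tri a2 a4 (allT_dbl rp_rot6 (allT_dbl rp_refl hT)), LT_dbl a6 (allT_dbl rp_refl hT),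
    LT_dbl ar hT]
  ring

theorem allT_rest (t : ℕ) (cols0 : List (ℕ × Fill)) (GA : List ((ℕ × ℕ) × Fill)) :
    AllT (Eqv 19) (rest negX mqX addX cstX t cols0 GA) :=
  allT_addTs (fun s hs => hs) _ _ (allT_expand pwN _ _ (allT_flux pwN (by decide) GA) vokA)
    (allT_addCols pwN cols0 (allT_ins _ eqv_idp (allT_emp _ _) _))

theorem LT_rest (q : ℝ) (Λ : ℕ → ℝ) (t : ℕ) (cols0 : List (ℕ × Fill))
    (GA : List ((ℕ × ℕ) × Fill)) :
    LT q Λ (rest negX mqX addX cstX t cols0 GA) = (t : ℝ) * Λ (idp 19 19)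
      + (cols0.map fun e => (e.1 : ℝ) * colq q Λ RN CN AN e.2).sum
      + LT q Λ (fluxA negX mqX addX cstX RN CN 4093 12 AN GA) := by
  unfold rest
  unfold LT
  rw [linT_addTs _ _ (ipq q)]
  have h1 := LT_addCols (R := RN) (C := CN) (p := 4093) (a0 := AN) q Λ cols0
    ((Tr.emp ℤ[X] 12).ins addX (idp 19 19) (cstX t) (Nat.mod (idp 19 19) 4093))
  unfold LT at h1
  rw [h1, linT_ins _ _ (ipq q), linT_emp]
  have h2 : aeval q (cstX t) = (t : ℝ) := by simp [cstX]
  rw [h2]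
  ring

theorem LT_finC (q : ℝ) (Λ : ℕ → ℝ) (D t : ℕ) (cols0 : List (ℕ × Fill))
    (GA : List ((ℕ × ℕ) × Fill)) :
    LT q Λ (finC negX mqX addX smX cstX D t cols0 GA) =
      LT q Λ (sym12 addX (rest negX mqX addX cstX t cols0 GA))
      - 12 * (D : ℝ) * LT q Λ (F7X RN CN 4093 12 AN) := by
  unfold finC
  unfold LT
  rw [linT_addTs _ _ (ipq q),
    lin_neg q (fun c => negX (smX (Nat.mul 12 D) c)) (-(12 * (D : ℝ)))
      (fun c => by
        have h : ((Nat.mul 12 D : ℕ) : ℤ[X]) = 12 * (D : ℤ[X]) := by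
          show ((12 * D : ℕ) : ℤ[X]) = _
          push_cast; ring
        have h12 : aeval q (12 : ℤ[X]) = (12 : ℝ) := map_ofNat _ _
        simp only [negX, smX, h, map_neg, map_mul, map_natCast, h12]
        ring)]
  unfold LT
  ring

/-- the statement which the certificate proves -/
def Conc (z : Dat) : Prop :=
  ∃ δ > 0, ∀ q : ℝ, |q - 5| < δ → ∀ Φ0 Φ1 : ℕ → ℝ,
      (∀ π ∈ gs0, ∀ s, Eqv 19 s → ringB MN JN s = true →
        Φ0 (relab 19 RN CN π scR s) = Φ0 s) →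
      (∀ π ∈ gs1, ∀ s, Eqv 19 s → ringB MN JN s = true →
        Φ1 (relab 19 RN CN π scR s) = Φ1 s) →
      (∀ s, Eqv 19 s → tstN s = true → 0 ≤ Φ0 s) →
      (∀ s, Eqv 19 s → tstN s = true → 0 ≤ Φ1 s) →
      (∀ T : Fill, 0 ≤ colq q Φ0 RN CN AN T) →
      (∀ T : Fill, 0 ≤ colq q Φ1 RN CN AN T) →
      LT q Φ0 (fluxA negX mqX addX cstX RN CN 4093 12 AN z.GA) =
        LT q Φ1 (fluxA' negX mqX addX cstX RN CN 4093 12 AN z.GA) →
      LT q Φ1 (fluxB negX mqX addX cstX RN CN 4093 12 AN z.GB) =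
        LT q (fun s => Φ1 (relab 19 RN CN rotL scR s))
          (fluxB' negX mqX addX cstX RN CN 4093 12 AN z.GB) →
      (z.t : ℝ) * Φ0 (idp 19 19) ≤ (z.D : ℝ) * LT q Φ0 (F7X RN CN 4093 12 AN)

theorem allT_F7 {R C p n a0 : ℕ} (h : PW 19 R C) (ha : VOK 19 vs7 a0) :
    AllT (Eqv 19) (F7 negX mqX addX cstX R C p n a0) :=
  allT_expand h p n (allT_ins _ eqv_idp (allT_emp _ _) _) ha

theorem allT_sum {p : ℕ} {f : ℤ[X] → ℤ[X]} {A B : Tr ℤ[X]} (hA : AllT (Eqv 19) A)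
    (hB : AllT (Eqv 19) B) : AllT (Eqv 19) (addTs addX (fun s => s) f p A B) :=
  allT_addTs (fun s hs => hs) f p hA hB

section

attribute [local irreducible] F7 rest outer sym12

theorem allT_finC (D t : ℕ) (cols0 : List (ℕ × Fill)) (GA : List ((ℕ × ℕ) × Fill))
    (h : AllT RP (rest negX mqX addX cstX t cols0 GA)) :
    AllT (Eqv 19) (finC negX mqX addX smX cstX D t cols0 GA) := by
  have h1 : AllT (Eqv 19) (sym12 addX (rest negX mqX addX cstX t cols0 GA)) := by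
    rw [← allC_iff]
    exact ((allC_iff _).2 (allT_sym12 h)).imp fun _ _ h => h.1
  exact allT_sum (allT_F7 pwN vok7) h1

theorem allT_finO (cols1 : List (ℕ × Fill)) (GA GB : List ((ℕ × ℕ) × Fill))
    (h : AllT RP (outer negX mqX addX cstX RN CN 4093 12 AN cols1 GA GB)) :
    AllT (Eqv 19) (finO negX mqX addX cstX cols1 GA GB) := by
  rw [← allC_iff]
  exact ((allC_iff _).2 (allT_dbl rp_refl h)).imp fun _ _ h => h.1

theorem LT_finO {q : ℝ} {Λ : ℕ → ℝ} (ha : ∀ s, RP s → Λ (reflP s) = Λ s)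
    (cols1 : List (ℕ × Fill)) (GA GB : List ((ℕ × ℕ) × Fill))
    (h : AllT RP (outer negX mqX addX cstX RN CN 4093 12 AN cols1 GA GB)) :
    LT q Λ (finO negX mqX addX cstX cols1 GA GB) =
      2 * LT q Λ (outer negX mqX addX cstX RN CN 4093 12 AN cols1 GA GB) := LT_dbl ha h

end

section

attribute [local irreducible] finC finO rest outer F7 chkT tstN Tr.map

theorem nearN {z : Dat} (hk : ChkN z) : Conc z := by
  set TC := rest negX mqX addX cstX z.t z.cols0 z.GA with hTC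
  set TO := outer negX mqX addX cstX RN CN 4093 12 AN z.cols1 z.GA z.GB with hTO
  set SC := finC negX mqX addX smX cstX z.D z.t z.cols0 z.GA with hSC
  set SO := finO negX mqX addX cstX z.cols1 z.GA z.GB with hSO
  have eC : (rest neg2 mq2 add2 cst2 z.t z.cols0 z.GA).map i2 =
      TC.map (fun c => c.eval 5) := by
    rw [map_rest hs2, hTC, map_rest hs5]
  have eO : (outer neg2 mq2 add2 cst2 RN CN 4093 12 AN z.cols1 z.GA z.GB).map i2 =
      TO.map (fun c => c.eval 5) := by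
    rw [map_outer hs2, hTO, map_outer hs5]
  have eSC : (finC neg2 mq2 add2 sm2 cst2 z.D z.t z.cols0 z.GA).map i2 =
      SC.map (fun c => c.eval 5) := by
    rw [map_finC hs2, hSC, map_finC hs5]
  have eSO : (finO neg2 mq2 add2 cst2 z.cols1 z.GA z.GB).map i2 =
      SO.map (fun c => c.eval 5) := by
    rw [map_finO hs2, hSO, map_finO hs5]
  have hf : ∀ (s : ℕ) (c : K2), @Bool.rec (fun _ => Bool) false (tstN s) (negB c) = true →
      (tstN s = true ∧ i2 c ≤ -1) := by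
    intro s c hsc
    cases hn : negB c with
    | true => rw [hn] at hsc; exact ⟨hsc, negB_spec hn⟩
    | false => rw [hn] at hsc; exact absurd hsc Bool.false_ne_true
  have qC := transfer (T2 := finC neg2 mq2 add2 sm2 cst2 z.D z.t z.cols0 z.GA) (TX := SC)
    (f := fun s c => @Bool.rec (fun _ => Bool) false (tstN s) (negB c))
    (Q := fun s c => tstN s = true ∧ c ≤ -1) eSC hk.sym0 hf
  have qO := transfer (T2 := finO neg2 mq2 add2 cst2 z.cols1 z.GA z.GB) (TX := SO)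
    (f := fun s c => @Bool.rec (fun _ => Bool) false (tstN s) (negB c))
    (Q := fun s c => tstN s = true ∧ c ≤ -1) eSO hk.sym1 hf
  have rC := transfer (Q := fun s _ => ringB MN JN s = true) eC hk.ring0 (fun s _ h => h)
  have rO := transfer (Q := fun s _ => ringB MN JN s = true) eO hk.ring1 (fun s _ h => h)
  have aC : AllT RP TC := allT_and (allT_rest _ _ _) ((allC_iff TC).1 rC)
  have aO : AllT RP TO := allT_and (allT_outer pwN vokA' vokB vokB' _ _ _) ((allC_iff TO).1 rO)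
  have aSC : AllT (Eqv 19) SC := allT_finC _ _ _ _ aC
  have aSO : AllT (Eqv 19) SO := allT_finO _ _ _ aO
  obtain ⟨δ0, hδ0, h0⟩ := exists_nearT SC (qC.imp fun _ _ h => h.2)
  obtain ⟨δ1, hδ1, h1⟩ := exists_nearT SO (qO.imp fun _ _ h => h.2)
  refine ⟨min δ0 δ1, lt_min hδ0 hδ1, ?_⟩
  intro q hq Φ0 Φ1 s0 s1 p0 p1 c0 c1 cA cB
  have n0 : LT q Φ0 SC ≤ 0 := by
    apply LT_nonpos
    have := ((allC_iff SC).2 aSC).and (qC.and (h0 q (hq.trans_le (min_le_left _ _))))
    exact this.imp fun s c hh => ⟨p0 s hh.1 hh.2.1.1, hh.2.2⟩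
  have n1 : LT q Φ1 SO ≤ 0 := by
    apply LT_nonpos
    have := ((allC_iff SO).2 aSO).and (qO.and (h1 q (hq.trans_le (min_le_right _ _))))
    exact this.imp fun s c hh => ⟨p1 s hh.1 hh.2.1.1, hh.2.2⟩
  have e0 : LT q Φ0 SC = 12 * LT q Φ0 TC - 12 * (z.D : ℝ) * LT q Φ0 (F7X RN CN 4093 12 AN) := by
    rw [hSC, LT_finC, LT_sym12 s0 aC]
  have e1 : LT q Φ1 SO = 2 * LT q Φ1 TO := by
    have ar : ∀ s, RP s → Φ1 (reflP s) = Φ1 s := fun s hs => by
      rw [eq_relab isBP_refl perm_refl hs]; exact s1 _ (by decide) s hs.1 hs.2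
    exact LT_finO ar _ _ _ aO
  have l0 := LT_rest q Φ0 z.t z.cols0 z.GA
  have l1 := LT_outer (R := RN) (C := CN) (p := 4093) (n := 12) (a0 := AN) q Φ1 z.cols1
    z.GA z.GB
  have m0 : 0 ≤ (z.cols0.map fun e => (e.1 : ℝ) * colq q Φ0 RN CN AN e.2).sum := by
    apply List.sum_nonneg
    intro x hx
    rw [List.mem_map] at hx
    obtain ⟨e, _, rfl⟩ := hx
    exact mul_nonneg (Nat.cast_nonneg _) (c0 _)
  have m1 : 0 ≤ (z.cols1.map fun e => (e.1 : ℝ) * colq q Φ1 RN CN AN e.2).sum := by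
    apply List.sum_nonneg
    intro x hx
    rw [List.mem_map] at hx
    obtain ⟨e, _, rfl⟩ := hx
    exact mul_nonneg (Nat.cast_nonneg _) (c1 _)
  rw [e0] at n0
  rw [e1] at n1
  rw [← hTC] at l0
  rw [← hTO] at l1
  have k1 : LT q Φ1 TO ≤ 0 := by linarith
  have k0 : LT q Φ0 TC ≤ (z.D : ℝ) * LT q Φ0 (F7X RN CN 4093 12 AN) := by linarith
  rw [l0] at k0
  rw [l1] at k1
  linarith

end

end Pool.Agent.U5C
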