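import Pool.Agent.U5C.PosAvg
import Pool.Agent.Helper98.U5.TLin
import Pool.Agent.Helper24.U5P.Out

/-!
# A certificate excludes flat balls in critical graphs
-/

set_option autoImplicit false

noncomputable section

namespace Pool.Agent.U5C

open Polynomial Pool.Agent.U5 Pool.Agent.Helper24.U5P
open Pool.Agent.Helper1.PG (Fill Hex HK NoSep Pl wsum)
open Pool.Agent.Helper36.BL (cp cols cp_eval mem_cols poly_ext)

/-- the noncrossing test -/
def tstK (s : ℕ) : Bool :=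
  okK 19 (2 ^ 19 - 1) 12 (Nat.shiftRight (idp 19 19) (Nat.mul 19 12)) s

/-- the identities of the averaged window functionals (no positivity) -/
structure GWin (R C p n a0 im ii : ℕ) (z : Dat) (q PH PX : ℝ) (Φ0 Φ1 : ℕ → ℝ) : Prop where
  sym0 : ∀ π ∈ gs0, ∀ s, Eqv 19 s → ringB im ii s = true → Φ0 (relab 19 R C π scR s) = Φ0 s
  sym1 : ∀ π ∈ gs1, ∀ s, Eqv 19 s → ringB im ii s = true → Φ1 (relab 19 R C π scR s) = Φ1 s
  fA : LT q Φ0 (fluxA negX mqX addX cstX R C p n a0 z.GA) =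
        LT q Φ1 (fluxA' negX mqX addX cstX R C p n a0 z.GA)
  fB : LT q Φ1 (fluxB negX mqX addX cstX R C p n a0 z.GB) =
        LT q (fun s => Φ1 (relab 19 R C rotL scR s))
          (fluxB' negX mqX addX cstX R C p n a0 z.GB)
  one : Φ0 (idp 19 19) = 12 * PX
  all : LT q Φ0 (F7X R C p n a0) = 12 * (q ^ 7 * PH)

/-- the conclusion of a certificate -/
def Cert (R C p n a0 im ii : ℕ) (z : Dat) : Prop :=
  ∃ δ : ℝ, 0 < δ ∧ ∃ c : ℝ, 0 < c ∧ ∀ q : ℝ, |q - 5| < δ → ∀ (PH PX : ℝ) (Φ0 Φ1 : ℕ → ℝ),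
      0 ≤ PX → Win R C p n a0 im ii tstK z q PH PX Φ0 Φ1 → c * PX ≤ PH

theorem cert_of_chk {R C p n a0 im ii : ℕ} {z : Dat} (h : PW 19 R C)
    (ha : VOK 19 vs7 a0) (hA : VOK 19 vsA a0) (hA' : VOK 19 vsA' a0) (hB : VOK 19 vsB a0)
    (hB' : VOK 19 vsB' a0) (hk : Chk R C p n a0 im ii tstK z) (hD : 0 < z.D) (ht : 0 < z.t) :
    Cert R C p n a0 im ii z := cert5 h ha hA hA' hB hB' hk hD ht

/-- helper24's identities -/
theorem gwin {R C p n a0 im ii : ℕ} (z : Dat) (h : PW 19 R C) (h0 : a0 = adj0)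
    (ha : VOK 19 vs7 a0) (hA : VOK 19 vsA a0) (hA' : VOK 19 vsA' a0) (hB : VOK 19 vsB a0)
    (hB' : VOK 19 vsB' a0) (hring : ∀ s, Eqv 19 s → ringB im ii s = true → RC s)
    (q : ℝ) (V : Type) [Fintype V] (H : SimpleGraph V) (φ : ℤ → ℤ → V) (hφ : HexLoc H φ) :
    GWin R C p n a0 im ii z q (P q H) (P q (dl H (Kw (pw φ 0 0)))) (Fav H φ 0 0 q)
      (Fav H φ 1 0 q) where
  sym0 := fun _ hπ s hs hr => Ph0_relab h H φ q hπ hs (hring s hs hr)
  sym1 := fun _ hπ s hs hr => Ph1_relab h H φ q hπ hs (hring s hs hr)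
  fA := fluxA_eq h p n h0 hA hA' hφ z.GA q
  fB := fluxB_eq h p n h0 hB hB' hφ z.GB q
  one := Ph0_idp H φ q
  all := LT_F7 h p n h0 ha hφ q

theorem noFlat_of_cert {R C p n a0 im ii : ℕ} {z : Dat} (h : PW 19 R C) (h0 : a0 = adj0)
    (ha : VOK 19 vs7 a0) (hA : VOK 19 vsA a0) (hA' : VOK 19 vsA' a0) (hB : VOK 19 vsB a0)
    (hB' : VOK 19 vsB' a0) (hring : ∀ s, Eqv 19 s → ringB im ii s = true → RC s)
    (hcert : Cert R C p n a0 im ii z) {r : ℕ}
    (hball : ∀ (V : Type) [Fintype V] (H : SimpleGraph V) (S : Finset V) (s : V), FlatB H s r →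
      (∀ v, (∃ p : H.Walk s v, p.length ≤ r + 1) → v ∈ S) →
      ∃ φ : ℤ → ℤ → V, HexLoc H φ ∧ InS S φ) :
    ∃ c0 : ℝ, 0 < c0 ∧ NoFlat plCls c0 r := by
  have ha0 : ∀ k, a0.testBit k = true → adjR.testBit k = true := by
    intro k hk
    rw [adjR_eq, ← h0]
    exact hk
  obtain ⟨δ, hδ, c, hc, hmain⟩ := hcert
  refine ⟨min δ c, lt_min hδ hc, ?_⟩
  intro q V _ hpar m B H S hcr hd hcut s _ hfl hS
  obtain ⟨φ, hφ, hin⟩ := hball V H S s hfl hS
  have hPl : Pl H := hcr.mem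
  have hqc := hcr.q_close hpar
  have hq5 := hpar.q5
  have hq0 : 0 ≤ q := by linarith [hqc.2]
  have hqδ : |q - 5| < δ := by
    rw [abs_lt]
    have := min_le_left δ c
    constructor <;> linarith [hqc.1]
  have c00 : Ctr 0 0 := by unfold Ctr; norm_num
  have c10 : Ctr 1 0 := by unfold Ctr; norm_num
  have hKS : ∀ x ∈ Kw (pw φ 0 0), x ∈ S := by
    intro x hx
    rw [Kw_eq_wset, mem_wset] at hx
    rcases hx with rfl | ⟨i, rfl⟩
    · exact hin 0 0 (by norm_num) (by norm_num) (by norm_num)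
    · obtain ⟨g1, g2, g3⟩ := e_bd i
      unfold fh
      rw [zero_add, zero_add]
      exact hin _ _ (by linarith) (by linarith) (by linarith)
  have hBX : B ≤ dl H (Kw (pw φ 0 0)) := by
    intro x y hxy
    rw [dl_adj]
    exact ⟨hd.le hxy, fun hx => hd.iso x (hKS x hx) y hxy,
      fun hy => hd.iso y (hKS y hy) x hxy.symm⟩
  have hXH : dl H (Kw (pw φ 0 0)) < H := by
    refine lt_of_le_of_ne (fun x y hxy => ((dl_adj _ _ _ _).1 hxy).1) ?_
    intro he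
    have hw := hφ.win c00
    have h1 : H.Adj (pw φ 0 0 18) (pw φ 0 0 12) :=
      (hw.adj 18 (by norm_num) (by norm_num) _).2 ⟨12, by decide, rfl⟩
    rw [← he, dl_adj] at h1
    exact h1.2.1 ((mem_Kw _ _).2 ⟨18, by norm_num, by norm_num, rfl⟩)
  obtain ⟨hsm, hXpos⟩ := hcr.small_cs hpar hBX hXH
  have hsmall := hcr.small hpar hBX hXH
  have g := gwin (im := im) (ii := ii) (p := p) (n := n) z h h0 ha hA hA' hB hB' hring q V H φ hφ
  have w : Win R C p n a0 im ii tstK z q (P q H) (P q (dl H (Kw (pw φ 0 0))))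
      (Fav H φ 0 0 q) (Fav H φ 1 0 q) :=
    ⟨g.sym0, g.sym1, fun s hs ht => Fav_nonneg hpar hPl hd hcut hq0 hφ hin c00 hs ht,
      fun s hs ht => Fav_nonneg hpar hPl hd hcut hq0 hφ hin c10 hs ht,
      fun T => Fav_colq hpar hPl hd hcut hq0 hφ hin c00 h ha0 T,
      fun T => Fav_colq hpar hPl hd hcut hq0 hφ hin c10 h ha0 T, g.fA, g.fB, g.one, g.all⟩
  have hfin := hmain q hqδ _ _ _ _ hXpos.le w
  have : min δ c * P q (dl H (Kw (pw φ 0 0))) ≤ c * P q (dl H (Kw (pw φ 0 0))) :=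
    mul_le_mul_of_nonneg_right (min_le_right _ _) hXpos.le
  linarith

end Pool.Agent.U5C
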