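import Pool.Agent.U5C.CertA
import Pool.Agent.U5C.NoFlatN

/-!
# No flat balls of radius twelve in critical graphs near `5`
-/

set_option autoImplicit false

noncomputable section

namespace Pool.Agent.U5C

open Pool.Agent.U5 Pool.Agent.Helper24.U5P

/-- **The kernel-checked certificate excludes flat balls of radius twelve.** -/
theorem noFlatA : ∃ c0 : ℝ, 0 < c0 ∧ NoFlat plCls c0 12 := by
  apply noFlat12N (p := 4093) (n := 12) (z := zA)
  obtain ⟨δ, hδ, c, hc, h⟩ := cert5N
  exact ⟨δ, hδ, c, hc, fun q hq PH PX Φ0 Φ1 hX w => h q hq PH PX Φ0 Φ1 hX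
    ⟨w.sym0, w.sym1, w.pos0, w.pos1, w.col0, w.col1, w.fA, w.fB, w.one, w.all⟩⟩

end Pool.Agent.U5C
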