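import Pool.Agent.U5C.Cert5
import Pool.Agent.Helper24.U5P.Flux
import Pool.Agent.Helper1.PG.HexCrt

/-!
# Positivity of the averaged window functionals of a flat patch
-/

set_option autoImplicit false

noncomputable section

namespace Pool.Agent.U5C

open Polynomial Pool.Agent.U5 Pool.Agent.Helper24.U5P
open Pool.Agent.Helper1.PG (Fill Hex HK NoSep Pl wsum)
open Pool.Agent.Helper36.BL (cp cols cp_eval mem_cols poly_ext)

section

variable {V : Type}

/-- the hexagonal ball of radius three lies in `S` -/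
def InS (S : Finset V) (φ : ℤ → ℤ → V) : Prop :=
  ∀ a b : ℤ, |a| ≤ 3 → |b| ≤ 3 → |a + b| ≤ 3 → φ a b ∈ S

theorem InS.rot {S : Finset V} {φ : ℤ → ℤ → V} (h : InS S φ) :
    InS S (Pool.Agent.Helper24.U5P.rot φ) := by
  intro a b ha hb hab
  exact h (-b) (a + b) (by rwa [abs_neg]) hab (by
    rw [show -b + (a + b) = a from by ring]; exact ha)

theorem InS.mir {S : Finset V} {φ : ℤ → ℤ → V} (h : InS S φ) :
    InS S (Pool.Agent.Helper24.U5P.mir φ) := by
  intro a b ha hb hab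
  exact h (a + b) (-b) hab (by rwa [abs_neg]) (by
    rw [show a + b + -b = a from by ring]; exact ha)

/-- averages of nonnegative functions over the symmetric images of `φ` -/
theorem avg_nonneg' {P : (ℤ → ℤ → V) → Prop} (hr : ∀ ψ, P ψ → P (Pool.Agent.Helper24.U5P.rot ψ))
    (hm : ∀ ψ, P ψ → P (Pool.Agent.Helper24.U5P.mir ψ)) {F : (ℤ → ℤ → V) → ℝ}
    {φ : ℤ → ℤ → V} (hφ : P φ) (h : ∀ ψ, P ψ → 0 ≤ F ψ) : 0 ≤ avg F φ := by
  have r1 := hr _ hφ
  have r2 := hr _ r1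
  have r3 := hr _ r2
  have r4 := hr _ r3
  have r5 := hr _ r4
  have m0 := hm _ hφ
  have m1 := hr _ m0
  have m2 := hr _ m1
  have m3 := hr _ m2
  have m4 := hr _ m3
  have m5 := hr _ m4
  have := h _ hφ
  have := h _ r1
  have := h _ r2
  have := h _ r3
  have := h _ r4
  have := h _ r5
  have := h _ m0
  have := h _ m1
  have := h _ m2
  have := h _ m3
  have := h _ m4
  have := h _ m5
  unfold avg
  positivity

theorem Kw_eq_wset (φ : ℤ → ℤ → V) (a b : ℤ) :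
    Kw (pw φ a b) = wset (φ a b) (fh φ a b) := by
  ext y
  rw [mem_Kw, mem_wset]
  unfold HK
  constructor
  · rintro ⟨u, h1, h2, rfl⟩
    interval_cases u
    · exact Or.inr ⟨0, rfl⟩
    · exact Or.inr ⟨1, rfl⟩
    · exact Or.inr ⟨2, rfl⟩
    · exact Or.inr ⟨3, rfl⟩
    · exact Or.inr ⟨4, rfl⟩
    · exact Or.inr ⟨5, rfl⟩
    · exact Or.inl rfl
  · rintro (rfl | ⟨i, rfl⟩)
    · exact ⟨18, by norm_num, by norm_num, rfl⟩
    · have key : ∀ x : ZMod 6, x = 0 ∨ x = 1 ∨ x = 2 ∨ x = 3 ∨ x = 4 ∨ x = 5 := by decide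
      rcases key i with rfl | rfl | rfl | rfl | rfl | rfl
      · exact ⟨12, by norm_num, by norm_num, rfl⟩
      · exact ⟨13, by norm_num, by norm_num, rfl⟩
      · exact ⟨14, by norm_num, by norm_num, rfl⟩
      · exact ⟨15, by norm_num, by norm_num, rfl⟩
      · exact ⟨16, by norm_num, by norm_num, rfl⟩
      · exact ⟨17, by norm_num, by norm_num, rfl⟩

end

section

variable {V : Type} [Fintype V] {c0 q : ℝ} {B H : SimpleGraph V} {S : Finset V}

/-- all fillings of the ring of a window of the flat patch have nonnegative values -/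
theorem wnn_pw (hpar : Par plCls c0 q V) (hPl : Pl H) (hd : Data B H S) (hcut : CutFree 3 H S)
    (hq : 0 ≤ q) {φ : ℤ → ℤ → V} (hf : HexLoc H φ) (hS : InS S φ) {a b : ℤ} (hab : Ctr a b) :
    WNN q H (Kw (pw φ a b)) (pw φ a b) := by
  obtain ⟨h1, h2, h3⟩ := hab
  have L0 : Loc H φ a b := by apply hf <;> linarith
  have L1 : ∀ i, Loc H φ (a + ex i) (b + ey i) := by
    intro i
    obtain ⟨g1, g2, g3⟩ := e_bd i
    apply hf
    · calc |a + ex i| ≤ |a| + |ex i| := abs_add_le _ _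
        _ ≤ 2 := by linarith
    · calc |b + ey i| ≤ |b| + |ey i| := abs_add_le _ _
        _ ≤ 2 := by linarith
    · calc |a + ex i + (b + ey i)| = |(a + b) + (ex i + ey i)| := by ring_nf
        _ ≤ |a + b| + |ex i + ey i| := abs_add_le _ _
        _ ≤ 2 := by linarith
  have X := Pool.Agent.Helper1.PG.Hex.of_loc L0 L1
  have hin : ∀ x y : ℤ, |x| ≤ 2 → |y| ≤ 2 → |x + y| ≤ 2 → φ (a + x) (b + y) ∈ S := by
    intro x y hx hy hxy
    apply hS
    · calc |a + x| ≤ |a| + |x| := abs_add_le _ _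
        _ ≤ 3 := by linarith
    · calc |b + y| ≤ |b| + |y| := abs_add_le _ _
        _ ≤ 3 := by linarith
    · calc |a + x + (b + y)| = |(a + b) + (x + y)| := by ring_nf
        _ ≤ |a + b| + |x + y| := abs_add_le _ _
        _ ≤ 3 := by linarith
  have e2 : ∀ i : ZMod 6, |ex i + ex i| ≤ 2 ∧ |ey i + ey i| ≤ 2 ∧
      |(ex i + ex i) + (ey i + ey i)| ≤ 2 := by decide
  have e3 : ∀ i : ZMod 6, |ex i + ex (i + 1)| ≤ 2 ∧ |ey i + ey (i + 1)| ≤ 2 ∧
      |(ex i + ex (i + 1)) + (ey i + ey (i + 1))| ≤ 2 := by decide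
  intro T
  obtain ⟨p, hp, hpq⟩ := Pool.Agent.Helper1.PG.Hex.nonneg_crt hpar hPl hd hcut hq X
    (by have := hin 0 0 (by simp) (by simp) (by simp); rwa [add_zero, add_zero] at this)
    (fun i => hin _ _ (by linarith [(e_bd i).1]) (by linarith [(e_bd i).2.1])
      (by linarith [(e_bd i).2.2]))
    (fun i => by
      have := hin _ _ (e2 i).1 (e2 i).2.1 (e2 i).2.2
      rw [← add_assoc, ← add_assoc] at this
      exact this)
    (fun i => by
      have := hin _ _ (e3 i).1 (e3 i).2.1 (e3 i).2.2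
      rw [← add_assoc, ← add_assoc] at this
      exact this) T
  refine ⟨p, fun n => ?_, hpq⟩
  rw [hp n, Kw_eq_wset]
  have hpos : ringL.map (pw φ a b) = Pool.Agent.Helper1.PG.ringL
      (fun i => φ (a + ex i + ex i) (b + ey i + ey i))
      (fun i => φ (a + ex i + ex (i + 1)) (b + ey i + ey (i + 1))) := by
    have r1 : (fun i : ZMod 6 => φ (a + ex i + ex i) (b + ey i + ey i)) =
        Pool.Agent.Helper24.U5P.frc φ a b := by
      funext i; show φ _ _ = φ _ _; rw [add_assoc, add_assoc]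
    have r2 : (fun i : ZMod 6 => φ (a + ex i + ex (i + 1)) (b + ey i + ey (i + 1))) =
        frm φ a b := by
      funext i; show φ _ _ = φ _ _; rw [add_assoc, add_assoc]
    rw [r1, r2]
    rfl
  exact wsum_eq_Zs (c := φ a b) (h := fh φ a b) hpos T n

/-- the averaged window functional around `(a, b)` -/
def Fav (H : SimpleGraph V) (φ : ℤ → ℤ → V) (a b : ℤ) (q : ℝ) (s : ℕ) : ℝ :=
  avg (fun ψ => Pool.Agent.Helper24.U5P.Fw H (pw ψ a b) q s) φ

/-- nonnegativity on noncrossing codes -/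
theorem Fav_nonneg (hpar : Par plCls c0 q V) (hPl : Pl H) (hd : Data B H S)
    (hcut : CutFree 3 H S) (hq : 0 ≤ q) {φ : ℤ → ℤ → V} (hf : HexLoc H φ) (hS : InS S φ)
    {a b : ℤ} (hab : Ctr a b) {s : ℕ} (hs : Eqv 19 s)
    (ht : okK 19 (2 ^ 19 - 1) 12 (Nat.shiftRight (idp 19 19) (Nat.mul 19 12)) s = true) :
    0 ≤ Fav H φ a b q s := by
  unfold Fav
  refine avg_nonneg' (P := fun ψ => HexLoc H ψ ∧ InS S ψ) (fun ψ h => ⟨h.1.rot, h.2.rot⟩)
    (fun ψ h => ⟨h.1.mir, h.2.mir⟩) ⟨hf, hS⟩ ?_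
  rintro ψ ⟨h1, h2⟩
  exact Fw_nonneg (wnn_pw hpar hPl hd hcut hq h1 h2 hab) hs ht

/-- nonnegativity on columns -/
theorem Fav_colq (hpar : Par plCls c0 q V) (hPl : Pl H) (hd : Data B H S)
    (hcut : CutFree 3 H S) (hq : 0 ≤ q) {φ : ℤ → ℤ → V} (hf : HexLoc H φ) (hS : InS S φ)
    {a b : ℤ} (hab : Ctr a b) {R C a0 : ℕ} (h : PW 19 R C)
    (ha0 : ∀ k, a0.testBit k = true → adjR.testBit k = true) (T : Fill) :
    0 ≤ colq q (Fav H φ a b q) R C a0 T := by
  have e : colq q (Fav H φ a b q) R C a0 T =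
      avg (fun ψ => colq q (Pool.Agent.Helper24.U5P.Fw H (pw ψ a b) q) R C a0 T) φ :=
    lin_avg _ _ _ _
  rw [e]
  refine avg_nonneg' (P := fun ψ => HexLoc H ψ ∧ InS S ψ) (fun ψ h => ⟨h.1.rot, h.2.rot⟩)
    (fun ψ h => ⟨h.1.mir, h.2.mir⟩) ⟨hf, hS⟩ ?_
  rintro ψ ⟨h1, h2⟩
  exact colq_nonneg (wnn_pw hpar hPl hd hcut hq h1 h2 hab) h
    (fun k hk => (h1.win hab).dl_ring k (ha0 k hk)) T

end

end Pool.Agent.U5C
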