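import Pool.Agent.U5C.Near5
import Pool.Agent.U5C.NCCheck
import Pool.Agent.Helper24.U5P.Fun
import Pool.Agent.Helper1.PG.HexMain

/-!
# Positivity of window functionals

`WNN q H K pos`: every filling of the ring of the window has a nonnegative value at `q`. It gives
nonnegativity of the functional on columns and on noncrossing codes.
-/

set_option autoImplicit false

noncomputable section

set_option exponentiation.threshold 2000

namespace Pool.Agent.U5C

open Polynomial Pool.Agent.U5 Pool.Agent.Helper24.U5P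
open Pool.Agent.Helper1.PG (Fill Hex HK NoSep Pl wsum)
open Pool.Agent.Helper36.BL (cp cols cp_eval mem_cols poly_ext)

variable {V : Type} [Fintype V]

/-- every filling of the ring `0, ..., 11` has a nonnegative value at `q` -/
def WNN (q : ℝ) (H : SimpleGraph V) (K : Finset V) (pos : ℕ → V) : Prop :=
  ∀ T : Fill, ∃ p : ℝ[X], (∀ n : ℕ, p.eval (n : ℝ) =
    Zs H K n (fun c => ((T.val (ringL.map (c ∘ pos)) : ℕ) : ℝ))) ∧ 0 ≤ p.eval q

/-- the window functional -/
def Fw (q : ℝ) (H : SimpleGraph V) (K : Finset V) (pos : ℕ → V) (s : ℕ) : ℝ :=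
  (pl H K 19 pos s).eval q

/-- nonnegativity on noncrossing codes -/
theorem Fw_nonneg {q : ℝ} {H : SimpleGraph V} {K : Finset V} {pos : ℕ → V}
    (hW : WNN q H K pos) {s : ℕ} (hs : Eqv 19 s)
    (ht : okK 19 (2 ^ 19 - 1) 12 (Nat.shiftRight (idp 19 19) (Nat.mul 19 12)) s = true) :
    0 ≤ Fw q H K pos s := by
  classical
  obtain ⟨T, _, hT⟩ := exists_fill_of_okK hs (by norm_num) ht
  obtain ⟨p, hp, hq⟩ := hW T
  have e : pl H K 19 pos s = p := by
    apply poly_ext
    intro N
    rw [pl_eval, hp]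
    unfold Zs
    refine Finset.sum_congr rfl fun c _ => ?_
    have h1 := hT (Fin N) (c ∘ pos)
    have h2 : (List.range 12) = ringL := rfl
    rw [h2] at h1
    show lc ℝ 19 (c ∘ pos) s = ((T.val (ringL.map (c ∘ pos)) : ℕ) : ℝ)
    rw [h1]
    unfold lc
    by_cases hs : Sat 19 s (c ∘ pos)
    · rw [if_pos hs, if_pos hs, Nat.cast_one]
    · rw [if_neg hs, if_neg hs, Nat.cast_zero]
  unfold Fw
  rw [e]
  exact hq

/-- nonnegativity on columns -/
theorem colq_nonneg {q : ℝ} {H : SimpleGraph V} {K : Finset V} {pos : ℕ → V}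
    (hW : WNN q H K pos) {R C a0 : ℕ} (h : PW 19 R C)
    (hadj : ∀ k, a0.testBit k = true → (dl H K).Adj (pos (k / 19)) (pos (k % 19))) (T : Fill) :
    0 ≤ colq q (Fw q H K pos) R C a0 T := by
  classical
  obtain ⟨p, hp, hq⟩ := hW T
  have e : lin (fun c : ℤ[X] => c.map (Int.castRingHom ℝ)) (pl H K 19 pos)
      (colC negX R C a0 ringL (cstX 1) T) = p := by
    apply poly_ext
    intro N
    have h1 := eval_lin (evalRingHom (N : ℝ)) (fun c : ℤ[X] => c.map (Int.castRingHom ℝ))
      (pl H K 19 pos) (colC negX R C a0 ringL (cstX 1) T)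
    simp only [coe_evalRingHom] at h1
    rw [h1, hp]
    unfold Zs
    have h2 : (fun s => (pl H K 19 pos s).eval (N : ℝ)) =
        fun s => ∑ c ∈ cols (dl H K) N, lc ℝ 19 (c ∘ pos) s := by
      funext s
      rw [pl_eval]; rfl
    rw [h2, lin_sum]
    refine Finset.sum_congr rfl fun c hc => ?_
    have hI : Ip negX mqX addX (fun c : ℤ[X] => (c.map (Int.castRingHom ℝ)).eval (N : ℝ))
        (N : ℝ) := by
      refine ⟨?_, ?_, ?_⟩
      · intro x; simp [negX]
      · intro x; simp [mqX]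
      · intro x y; simp [addX]
    have hd : Prp 19 a0 (c ∘ pos) := by
      intro k hk
      exact (mem_cols _ _ _).1 hc _ _ (hadj k hk)
    have h3 := lin_colF (A := ℝ) (fun c : ℤ[X] => (c.map (Int.castRingHom ℝ)).eval (N : ℝ)) h hI T
      (l := ringL) (by decide) hd
      (L := FL.cons (idp 19 19) (cstX 1) FL.nil) ⟨eqv_idp, trivial⟩
    unfold colC
    rw [h3, lin_cons, lin_nil]
    have h4 : lc ℝ 19 (c ∘ pos) (idp 19 19) = 1 := if_pos (sat_idp 19 _)
    rw [h4]
    simp [cstX]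
  have h1 := eval_lin (evalRingHom q) (fun c : ℤ[X] => c.map (Int.castRingHom ℝ))
      (pl H K 19 pos) (colC negX R C a0 ringL (cstX 1) T)
  simp only [coe_evalRingHom] at h1
  rw [e] at h1
  have h2 : (fun c : ℤ[X] => (c.map (Int.castRingHom ℝ)).eval q) =
      fun c : ℤ[X] => aeval q c := by
    funext c
    rw [aeval_def, eval_map]
    rfl
  rw [h2] at h1
  unfold colq Fw
  rw [← h1]
  exact hq

/-! ### finite sums of window functionals -/

theorem colq_sum {I : Type} (S : Finset I) (q : ℝ) (F : I → ℕ → ℝ) (R C a0 : ℕ) (T : Fill) :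
    colq q (fun s => ∑ i ∈ S, F i s) R C a0 T = ∑ i ∈ S, colq q (F i) R C a0 T :=
  lin_sum _ S F _

theorem LT_sum {I : Type} (S : Finset I) (q : ℝ) (F : I → ℕ → ℝ) (T : Tr ℤ[X]) :
    LT q (fun s => ∑ i ∈ S, F i s) T = ∑ i ∈ S, LT q (F i) T :=
  linT_sum _ S F _

/-! ### hexagonal windows -/

open scoped Classical in
/-- the vertices of a window -/
def wset (c : V) (h : ZMod 6 → V) : Finset V := insert c (Finset.univ.image h)

omit [Fintype V] in
open scoped Classical in
theorem mem_wset {c : V} {h : ZMod 6 → V} {x : V} : x ∈ wset c h ↔ HK c h x := by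
  unfold wset HK
  rw [Finset.mem_insert, Finset.mem_image]
  simp only [Finset.mem_univ, true_and]
  exact or_congr Iff.rfl ⟨fun ⟨i, h⟩ => ⟨i, h.symm⟩, fun ⟨i, h⟩ => ⟨i, h.symm⟩⟩

/-- helper1's weighted count is the colour sum -/
theorem wsum_eq_Zs {H : SimpleGraph V} {c : V} {h rc rm : ZMod 6 → V} {pos : ℕ → V}
    (hpos : ringL.map pos = Pool.Agent.Helper1.PG.ringL rc rm) (T : Fill) (n : ℕ) :
    (wsum H (HK c h) (Pool.Agent.Helper1.PG.ringL rc rm) T n : ℝ) =
      Zs H (wset c h) n (fun c => ((T.val (ringL.map (c ∘ pos)) : ℕ) : ℝ)) := by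
  classical
  unfold wsum Zs
  have e : ∀ cc : V → Fin n, (∀ u v, H.Adj u v → ¬ HK c h u → ¬ HK c h v → cc u ≠ cc v) ↔
      cc ∈ cols (dl H (wset c h)) n := by
    intro cc
    rw [mem_cols]
    simp only [dl_adj, mem_wset]
    exact ⟨fun h1 u v h2 => h1 u v h2.1 h2.2.1 h2.2.2, fun h1 u v h2 h3 h4 => h1 u v ⟨h2, h3, h4⟩⟩
  have e2 : ∀ cc : V → Fin n, ringL.map (cc ∘ pos) =
      (Pool.Agent.Helper1.PG.ringL rc rm).map cc := by
    intro cc
    rw [← hpos, List.map_map]
  simp only [e, e2]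
  rw [← Finset.sum_filter]
  have e3 : (Finset.univ.filter fun cc : V → Fin n => cc ∈ cols (dl H (wset c h)) n) =
      cols (dl H (wset c h)) n := by
    ext cc; simp
  rw [e3]
  push_cast
  rfl

/-- nonnegativity of all fillings for a hexagonal window -/
theorem wnn_of_hex {H : SimpleGraph V} {c : V} {h rc rm : ZMod 6 → V}
    (X : Hex H c h rc rm) (hPl : Pl H)
    (hH : ∀ p r, (∃ p', H.Adj p p') → (∃ r', H.Adj r r') → Relation.ReflTransGen H.Adj p r)
    (hsep : NoSep H (HK c h)) {q : ℝ} (hq : 0 ≤ q)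
    (hyp : ∀ (W : Type) [Fintype W] (Y : SimpleGraph W), Pl Y →
      Fintype.card W < Fintype.card V → 0 ≤ (cp Y).eval q)
    {pos : ℕ → V} (hpos : ringL.map pos = Pool.Agent.Helper1.PG.ringL rc rm) :
    WNN q H (wset c h) pos := by
  intro T
  obtain ⟨p, hp, hpq⟩ := X.nonneg hPl hH hsep hq hyp T
  exact ⟨p, fun n => (hp n).trans (wsum_eq_Zs hpos T n), hpq⟩

end Pool.Agent.U5C
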