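import Pool.Agent.U5C.Col

/-!
# Relabelling, symmetrisation, sums of tries
-/

set_option autoImplicit false

noncomputable section

namespace Pool.Agent.U5C

open Pool.Agent.Helper1.PG (Fill)

/-! ### relabelling of codes -/

section

variable (w R C : ℕ)

/-- the code of the pattern `s` transported along the slot map `π`; only the slots in `sc` are
scanned (each of them is tied to the largest smaller member of its block) -/
def relab (π : List ℕ) (sc : List ℕ) (s : ℕ) : ℕ :=
  @List.rec ℕ (fun _ => ℕ → ℕ) (fun acc => acc)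
    (fun i _ ih acc =>
      frc (Nat.land (Nat.shiftRight s (Nat.mul w i)) (Nat.pred (Nat.pow 2 i))) fun r =>
        @Bool.rec (fun _ => ℕ)
          (frc (mrg w R C (getN π i) (getN π (Nat.log2 r)) acc) ih)
          (ih acc) (Nat.beq r 0)) sc (idp w w)

/-- the scan with an arbitrary accumulator -/
def relabGo (π : List ℕ) (sc : List ℕ) (s : ℕ) (acc : ℕ) : ℕ :=
  @List.rec ℕ (fun _ => ℕ → ℕ) (fun acc => acc)
    (fun i _ ih acc =>
      frc (Nat.land (Nat.shiftRight s (Nat.mul w i)) (Nat.pred (Nat.pow 2 i))) fun r =>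
        @Bool.rec (fun _ => ℕ)
          (frc (mrg w R C (getN π i) (getN π (Nat.log2 r)) acc) ih)
          (ih acc) (Nat.beq r 0)) sc acc

end

section

variable {w R C : ℕ}

theorem relab_eq (π sc : List ℕ) (s : ℕ) :
    relab w R C π sc s = relabGo w R C π sc s (idp w w) := rfl

theorem relabGo_cons (π : List ℕ) (i : ℕ) (sc : List ℕ) (s acc : ℕ) :
    relabGo w R C π (i :: sc) s acc =
      @Bool.rec (fun _ => ℕ)
        (relabGo w R C π sc s (mrg w R C (getN π i) (getN π (Nat.log2
          (Nat.land (Nat.shiftRight s (Nat.mul w i)) (Nat.pred (Nat.pow 2 i))))) acc))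
        (relabGo w R C π sc s acc)
        (Nat.beq (Nat.land (Nat.shiftRight s (Nat.mul w i)) (Nat.pred (Nat.pow 2 i))) 0) := by
  have e : relabGo w R C π (i :: sc) s acc =
      frc (Nat.land (Nat.shiftRight s (Nat.mul w i)) (Nat.pred (Nat.pow 2 i))) (fun r =>
        @Bool.rec (fun _ => ℕ)
          (frc (mrg w R C (getN π i) (getN π (Nat.log2 r)) acc) (relabGo w R C π sc s))
          (relabGo w R C π sc s acc) (Nat.beq r 0)) := rfl
  rw [e, frc_eq, frc_eq]

theorem testBit_below (s i k : ℕ) :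
    (Nat.land (Nat.shiftRight s (Nat.mul w i)) (Nat.pred (Nat.pow 2 i))).testBit k = true ↔
      (s.testBit (w * i + k) = true ∧ k < i) := by
  show ((s >>> (w * i)) &&& (2 ^ i - 1)).testBit k = true ↔ _
  rw [Nat.testBit_and, Nat.testBit_shiftRight, Nat.testBit_two_pow_sub_one, Bool.and_eq_true,
    decide_eq_true_eq]

/-- `i` is the smallest member of its block, or `r` is a smaller member -/
theorem below_spec {s i : ℕ} :
    ((Nat.land (Nat.shiftRight s (Nat.mul w i)) (Nat.pred (Nat.pow 2 i))) = 0 ∧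
      ∀ k, k < i → ¬ (s.testBit (w * i + k) = true)) ∨
    ((Nat.land (Nat.shiftRight s (Nat.mul w i)) (Nat.pred (Nat.pow 2 i))) ≠ 0 ∧
      Nat.log2 (Nat.land (Nat.shiftRight s (Nat.mul w i)) (Nat.pred (Nat.pow 2 i))) < i ∧
      s.testBit (w * i + Nat.log2 (Nat.land (Nat.shiftRight s (Nat.mul w i))
        (Nat.pred (Nat.pow 2 i)))) = true ∧
      ∀ k, k < i → s.testBit (w * i + k) = true →
        k ≤ Nat.log2 (Nat.land (Nat.shiftRight s (Nat.mul w i)) (Nat.pred (Nat.pow 2 i)))) := by
  by_cases h : (Nat.land (Nat.shiftRight s (Nat.mul w i)) (Nat.pred (Nat.pow 2 i))) = 0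
  · left
    refine ⟨h, fun k hk hs => ?_⟩
    have := (testBit_below (w := w) s i k).2 ⟨hs, hk⟩
    rw [h, Nat.zero_testBit] at this
    exact absurd this (by decide)
  · right
    have h1 := testBit_log2' h
    rw [testBit_below] at h1
    refine ⟨h, h1.2, h1.1, fun k hk hs => ?_⟩
    have h2 := (testBit_below (w := w) s i k).2 ⟨hs, hk⟩
    have h3 := Nat.ge_two_pow_of_testBit h2
    exact (Nat.le_log2 h).2 h3

theorem eqv_relabGo (h : PW w R C) {π : List ℕ} (hπ : ∀ i, getN π i < w) (sc : List ℕ) (s : ℕ)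
    {acc : ℕ} (hacc : Eqv w acc) : Eqv w (relabGo w R C π sc s acc) := by
  induction sc generalizing acc with
  | nil => exact hacc
  | cons i sc ih =>
    rw [relabGo_cons]
    cases Nat.beq (Nat.land (Nat.shiftRight s (Nat.mul w i)) (Nat.pred (Nat.pow 2 i))) 0 with
    | true => exact ih hacc
    | false => exact ih (hacc.mrg h (hπ _) (hπ _))

theorem eqv_relab (h : PW w R C) {π : List ℕ} (hπ : ∀ i, getN π i < w) (sc : List ℕ) (s : ℕ) :
    Eqv w (relab w R C π sc s) := eqv_relabGo h hπ sc s eqv_idp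

/-- the ties made by the scan -/
def Tie {κ : Type} (w : ℕ) (π sc : List ℕ) (s : ℕ) (d : ℕ → κ) : Prop :=
  ∀ i ∈ sc, (Nat.land (Nat.shiftRight s (Nat.mul w i)) (Nat.pred (Nat.pow 2 i))) ≠ 0 →
    d (getN π i) = d (getN π (Nat.log2
      (Nat.land (Nat.shiftRight s (Nat.mul w i)) (Nat.pred (Nat.pow 2 i)))))

theorem sat_relabGo {κ : Type} (h : PW w R C) {π : List ℕ} (hπ : ∀ i, getN π i < w)
    (sc : List ℕ) (s : ℕ) {acc : ℕ} (hacc : Eqv w acc) (d : ℕ → κ) :
    Sat w (relabGo w R C π sc s acc) d ↔ (Sat w acc d ∧ Tie w π sc s d) := by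
  induction sc generalizing acc with
  | nil =>
    show Sat w acc d ↔ _
    unfold Tie
    simp
  | cons i sc ih =>
    rw [relabGo_cons]
    have ht : Tie w π (i :: sc) s d ↔
        (((Nat.land (Nat.shiftRight s (Nat.mul w i)) (Nat.pred (Nat.pow 2 i))) ≠ 0 →
        d (getN π i) = d (getN π (Nat.log2
        (Nat.land (Nat.shiftRight s (Nat.mul w i)) (Nat.pred (Nat.pow 2 i)))))) ∧
        Tie w π sc s d) := by
      unfold Tie
      rw [List.forall_mem_cons]
    rw [ht]
    cases hb : Nat.beq (Nat.land (Nat.shiftRight s (Nat.mul w i)) (Nat.pred (Nat.pow 2 i))) 0 with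
    | true =>
      have h0 := Nat.eq_of_beq_eq_true hb
      simp only
      rw [ih hacc, h0]
      simp
    | false =>
      have h0 : (Nat.land (Nat.shiftRight s (Nat.mul w i)) (Nat.pred (Nat.pow 2 i))) ≠ 0 := by
        intro h1; rw [h1] at hb; exact absurd hb (by decide)
      simp only
      rw [ih (hacc.mrg h (hπ _) (hπ _)), sat_mrg h hacc (hπ _) (hπ _)]
      simp only [h0, ne_eq, not_false_eq_true, forall_const]
      tauto

/-- transport of patterns: all slots which are tied to a smaller slot have to be scanned -/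
theorem sat_relab {κ : Type} (h : PW w R C) {π : List ℕ} (hπ : ∀ i, getN π i < w)
    {sc : List ℕ} {s : ℕ} (hs : Eqv w s)
    (hsc : ∀ i < w, ∀ k < i, s.testBit (w * i + k) = true → i ∈ sc)
    (hsc' : ∀ i ∈ sc, i < w) (d : ℕ → κ) :
    Sat w (relab w R C π sc s) d ↔ Sat w s (fun i => d (getN π i)) := by
  rw [relab_eq, sat_relabGo h hπ sc s eqv_idp, sat_iff h.pos hs]
  constructor
  · rintro ⟨-, h1⟩
    -- strong induction on `max i j`
    have key : ∀ m, ∀ i j, i < m → j < i → i < w → s.testBit (w * i + j) = true →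
        d (getN π i) = d (getN π j) := by
      intro m
      induction m with
      | zero => intro i j hi; exact absurd hi (Nat.not_lt_zero _)
      | succ m ih =>
        intro i j him hji hi hij
        rcases below_spec (w := w) (s := s) (i := i) with ⟨_, h2⟩ | ⟨h2, h3, h4, h5⟩
        · exact absurd hij (h2 j hji)
        · have h6 := h1 i (hsc i hi j hji hij) h2
          rw [h6]
          generalize Nat.log2 (Nat.land (Nat.shiftRight s (Nat.mul w i))
            (Nat.pred (Nat.pow 2 i))) = r at h3 h4 h5 h6 ⊢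
          rcases Nat.lt_or_eq_of_le (h5 j hji hij) with h7 | h7
          · apply ih r j (by omega) h7 (by omega)
            exact hs.trans r i j (by omega) hi (by omega)
              (hs.symm i r hi (by omega) h4) hij
          · rw [h7]
    intro i j hi hj hij
    rcases Nat.lt_trichotomy i j with h2 | h2 | h2
    · exact (key (j + 1) j i (by omega) h2 hj (hs.symm i j hi hj hij)).symm
    · rw [h2]
    · exact key (i + 1) i j (by omega) h2 hi hij
  · intro h1
    refine ⟨sat_idp w d, ?_⟩
    intro i hi h2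
    rcases below_spec (w := w) (s := s) (i := i) with ⟨h3, _⟩ | ⟨_, h3, h4, _⟩
    · exact absurd h3 h2
    · have hiw := hsc' i hi
      exact h1 i _ hiw (by omega) h4

end

/-! ### sums -/

section

variable {K : Type} (add : K → K → K)

/-- add the terms of `L`, with codes changed by `g` and coefficients by `f` -/
def addLs (g : ℕ → ℕ) (f : K → K) (p : ℕ) (L : FL K) (T : Tr K) : Tr K :=
  @FL.rec K (fun _ => Tr K → Tr K) (fun T => T)
    (fun s c _ ih T => ih (frc (g s) fun s' => T.ins add s' (f c) (Nat.mod s' p))) L T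

/-- add the terms of the trie `T0` -/
def addTs (g : ℕ → ℕ) (f : K → K) (p : ℕ) (T0 : Tr K) (T : Tr K) : Tr K :=
  @Tr.rec K (fun _ => Tr K → Tr K) (fun L T => addLs add g f p L T)
    (fun _ _ ihl ihr T => ihr (ihl T)) T0 T

/-- add all relabelled copies of `T0` -/
def symT (w R C : ℕ) (sc : List ℕ) (p : ℕ) (gs : List (List ℕ)) (T0 : Tr K) (T : Tr K) : Tr K :=
  @List.rec (List ℕ) (fun _ => Tr K → Tr K) (fun T => T)
    (fun π _ ih T => ih (addTs add (relab w R C π sc) (fun c => c) p T0 T)) gs T

end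

section

variable {K A : Type} [CommRing A] (ι : K → A) (Λ : ℕ → A) {neg mq : K → K}
  {add : K → K → K} {q : A}

theorem linT_addLs (hI : Ip neg mq add ι q) (g : ℕ → ℕ) (f : K → K) (p : ℕ) (L : FL K)
    (T : Tr K) : linT ι Λ (addLs add g f p L T) =
      linT ι Λ T + lin (fun c => ι (f c)) (fun s => Λ (g s)) L := by
  induction L generalizing T with
  | nil => show linT ι Λ T = _; simp
  | cons s c L ih =>
    have e : addLs add g f p (FL.cons s c L) T =
      addLs add g f p L (frc (g s) fun s' => T.ins add s' (f c) (Nat.mod s' p)) := rfl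
    rw [e, frc_eq, ih, linT_ins ι Λ hI, lin_cons]; ring

theorem linT_addTs (hI : Ip neg mq add ι q) (g : ℕ → ℕ) (f : K → K) (p : ℕ) (T0 : Tr K)
    (T : Tr K) : linT ι Λ (addTs add g f p T0 T) =
      linT ι Λ T + linT (fun c => ι (f c)) (fun s => Λ (g s)) T0 := by
  induction T0 generalizing T with
  | lf L => exact linT_addLs ι Λ hI g f p L T
  | nd l r ihl ihr =>
    have e : addTs add g f p (Tr.nd l r) T = addTs add g f p r (addTs add g f p l T) := rfl
    rw [e, ihr, ihl, linT_nd]; ring

theorem allT_addLs {P Q : ℕ → Prop} {g : ℕ → ℕ} (hg : ∀ s, P s → Q (g s)) (f : K → K) (p : ℕ)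
    {L : FL K} (hL : AllL P L) {T : Tr K} (hT : AllT Q T) : AllT Q (addLs add g f p L T) := by
  induction L generalizing T with
  | nil => exact hT
  | cons s c L ih =>
    have e : addLs add g f p (FL.cons s c L) T =
      addLs add g f p L (frc (g s) fun s' => T.ins add s' (f c) (Nat.mod s' p)) := rfl
    rw [e, frc_eq]
    exact ih hL.2 (allT_ins _ (hg s hL.1) hT _)

theorem allT_addTs {P Q : ℕ → Prop} {g : ℕ → ℕ} (hg : ∀ s, P s → Q (g s)) (f : K → K) (p : ℕ)
    {T0 : Tr K} (hT0 : AllT P T0) {T : Tr K} (hT : AllT Q T) :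
    AllT Q (addTs add g f p T0 T) := by
  induction T0 generalizing T with
  | lf L => exact allT_addLs hg f p hT0 hT
  | nd l r ihl ihr => exact ihr hT0.2 (ihl hT0.1 hT)

theorem lin_congr {P : ℕ → Prop} {Λ Λ' : ℕ → A} (h : ∀ s, P s → Λ s = Λ' s) {L : FL K}
    (hL : AllL P L) : lin ι Λ L = lin ι Λ' L := by
  induction L with
  | nil => rfl
  | cons s c L ih => rw [lin_cons, lin_cons, h s hL.1, ih hL.2]

theorem linT_congr {P : ℕ → Prop} {Λ Λ' : ℕ → A} (h : ∀ s, P s → Λ s = Λ' s) {T : Tr K}
    (hT : AllT P T) : linT ι Λ T = linT ι Λ' T := by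
  induction T with
  | lf L => exact lin_congr ι h hT
  | nd l r ihl ihr => rw [linT_nd, linT_nd, ihl hT.1, ihr hT.2]

/-- for invariant functionals symmetrisation is multiplication by the number of symmetries -/
theorem linT_symT (hI : Ip neg mq add ι q) {w R C : ℕ} {sc : List ℕ} (p : ℕ)
    {gs : List (List ℕ)} {P : ℕ → Prop} (hΛ : ∀ π ∈ gs, ∀ s, P s → Λ (relab w R C π sc s) = Λ s)
    {T0 : Tr K} (hT0 : AllT P T0) (T : Tr K) :
    linT ι Λ (symT add w R C sc p gs T0 T) = linT ι Λ T + (gs.length : A) * linT ι Λ T0 := by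
  induction gs generalizing T with
  | nil => show linT ι Λ T = _; simp
  | cons π gs ih =>
    have e : symT add w R C sc p (π :: gs) T0 T =
      symT add w R C sc p gs T0 (addTs add (relab w R C π sc) (fun c => c) p T0 T) := rfl
    rw [e, ih (fun π' hπ' => hΛ π' (List.mem_cons_of_mem _ hπ')), linT_addTs ι Λ hI,
      linT_congr (fun c => ι c) (hΛ π List.mem_cons_self) hT0, List.length_cons]
    push_cast; ring

theorem allT_symT {w R C : ℕ} (h : PW w R C) {sc : List ℕ} (p : ℕ) {gs : List (List ℕ)}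
    (hgs : ∀ π ∈ gs, ∀ i, getN π i < w) {T0 : Tr K} (hT0 : AllT (Eqv w) T0) {T : Tr K}
    (hT : AllT (Eqv w) T) : AllT (Eqv w) (symT add w R C sc p gs T0 T) := by
  induction gs generalizing T with
  | nil => exact hT
  | cons π gs ih =>
    exact ih (fun π' hπ' => hgs π' (List.mem_cons_of_mem _ hπ'))
      (allT_addTs (fun s _ => eqv_relab h (hgs π List.mem_cons_self) sc s) _ p hT0 hT)

end

/-! ### naturality -/

section

variable {K K' : Type} {neg mq : K → K} {add : K → K → K} {neg' mq' : K' → K'}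
  {add' : K' → K' → K'} {φ : K → K'}

theorem map_addLs (hh : Hm neg mq add neg' mq' add' φ) (g : ℕ → ℕ) (f : K → K) (f' : K' → K')
    (hf : ∀ c, φ (f c) = f' (φ c)) (p : ℕ) (L : FL K) (T : Tr K) :
    (addLs add g f p L T).map φ = addLs add' g f' p (L.map φ) (T.map φ) := by
  induction L generalizing T with
  | nil => rfl
  | cons s c L ih =>
    have e : addLs add g f p (FL.cons s c L) T =
      addLs add g f p L (frc (g s) fun s' => T.ins add s' (f c) (Nat.mod s' p)) := rfl
    have e' : addLs add' g f' p (FL.cons s (φ c) (L.map φ)) (T.map φ) = addLs add' g f' p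
      (L.map φ) (frc (g s) fun s' => (T.map φ).ins add' s' (f' (φ c)) (Nat.mod s' p)) := rfl
    rw [FL.map_cons, e, e', frc_eq, frc_eq, ih, map_ins hh, hf]

theorem map_addTs (hh : Hm neg mq add neg' mq' add' φ) (g : ℕ → ℕ) (f : K → K) (f' : K' → K')
    (hf : ∀ c, φ (f c) = f' (φ c)) (p : ℕ) (T0 : Tr K) (T : Tr K) :
    (addTs add g f p T0 T).map φ = addTs add' g f' p (T0.map φ) (T.map φ) := by
  induction T0 generalizing T with
  | lf L => exact map_addLs hh g f f' hf p L T
  | nd l r ihl ihr =>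
    have e : addTs add g f p (Tr.nd l r) T = addTs add g f p r (addTs add g f p l T) := rfl
    have e' : addTs add' g f' p (Tr.nd (l.map φ) (r.map φ)) (T.map φ) =
      addTs add' g f' p (r.map φ) (addTs add' g f' p (l.map φ) (T.map φ)) := rfl
    rw [Tr.map_nd, e, e', ihr, ihl]

theorem map_symT (hh : Hm neg mq add neg' mq' add' φ) (w R C : ℕ) (sc : List ℕ) (p : ℕ)
    (gs : List (List ℕ)) (T0 : Tr K) (T : Tr K) : (symT add w R C sc p gs T0 T).map φ =
      symT add' w R C sc p gs (T0.map φ) (T.map φ) := by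
  induction gs generalizing T with
  | nil => rfl
  | cons π gs ih =>
    have e : symT add w R C sc p (π :: gs) T0 T =
      symT add w R C sc p gs T0 (addTs add (relab w R C π sc) (fun c => c) p T0 T) := rfl
    have e' : symT add' w R C sc p (π :: gs) (T0.map φ) (T.map φ) =
      symT add' w R C sc p gs (T0.map φ)
        (addTs add' (relab w R C π sc) (fun c => c) p (T0.map φ) (T.map φ)) := rfl
    rw [e, e', ih, map_addTs hh _ _ (fun c => c) (fun _ => rfl)]

end

end Pool.Agent.U5C
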