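import Pool.Agent.U5C.Dec

/-!
# Permutations of the ring by block shifts
-/

set_option autoImplicit false

noncomputable section

namespace Pool.Agent.U5C

/-! ### the program -/

/-- add the blocks of `s`: an entry `(m, l, r)` moves the bits of the mask `m` by `l - r` -/
def bpG (L : List (ℕ × ℕ × ℕ)) (s acc : ℕ) : ℕ :=
  @List.rec (ℕ × ℕ × ℕ) (fun _ => ℕ → ℕ) (fun acc => acc)
    (fun e _ ih acc => frc (Nat.lor acc
      (Nat.shiftRight (Nat.shiftLeft (Nat.land s e.1) e.2.1) e.2.2)) ih) L acc

/-- block permutation of the ring part of a code; the inner slots are untied -/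
def bp (L : List (ℕ × ℕ × ℕ)) (s : ℕ) : ℕ := bpG L s JN

/-- rotation of the ring by 2 -/
def oRot2 : List (ℕ × ℕ × ℕ) := [
  (2527499820859505257720859290294367399141289856222160018481969364992,
    0, 200),
  (841677186438565715705872087881229768659355313448981021779640188928,
    0, 188),
  (9194990783248432302585962034197849284011636720628927488,
    28, 0),
  (3062003766687222085138489310216275982273406368881312767,
    40, 0)]

/-- rotation of the ring by 4 -/
def oRot4 : List (ℕ × ℕ × ℕ) := [
  (3159374776085875310630092839269190624685512129899085861357826867200,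
    0, 160),
  (209802231224452657346529602607719689920522289876111170480793190400,
    0, 148),
  (41813977001076783847501983628707645420998400,
    68, 0),
  (2776709410227755177373178600343867078738175,
    80, 0)]

/-- rotation of the ring by 6 -/
def oRot6 : List (ℕ × ℕ × ℕ) := [
  (3317343514890169076161641385908501126818547334832329275685094817792,
    0, 120),
  (51833492420158891815025646654820330106539802106755144932579606528,
    0, 108),
  (159724280278644521021768315441088,
    108, 0),
  (2495691879353820640965129928767,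
    120, 0)]

/-- swap of adjacent blocks of 3 slots -/
def oS2 : List (ℕ × ℕ × ℕ) := [
  (2994824006498069284087382431425144555636695465058495319995999846400,
    0, 60),
  (374353000812258660510922803928143069454586933132311914999499980800,
    0, 54),
  (20780766041964474661381135019330327865204995526200,
    54, 0),
  (2597595755245559332672641877416290983150624440775,
    60, 0)]

/-- reversal of blocks of 3 slots -/
def oS3 : List (ℕ × ℕ × ℕ) := [
  (1925240332065811082680352347319884670232307778527838544321105100800,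
    0, 40),
  (962620166032905541340176173659942335116153889263919272160552550400,
    0, 38),
  (481310083016452770670088086829971167558076944631959636080276275200,
    0, 36),
  (3672104515201208272324280447616357174362769658141781891481600,
    0, 2),
  (1836052257600604136162140223808178587181384829070890945740800,
    0, 0),
  (918026128800302068081070111904089293590692414535445472870400,
    2, 0),
  (7003983526613632721565781493408884381032504383357585700,
    36, 0),
  (3501991763306816360782890746704442190516252191678792850,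
    38, 0),
  (1750995881653408180391445373352221095258126095839396425,
    40, 0)]

/-- rotation of the ring by 7 -/
def oS1 : List (ℕ × ℕ × ℕ) := [
  (3343671638024218037083559174685552884054765209332005561605172494336,
    0, 100),
  (25505369286109930893107857877768735089984675563310081793740242944,
    0, 88),
  (307067743867357256598163424,
    128, 0),
  (2342298243082695608893471,
    140, 0)]

/-- reflection of the ring -/
def reflP (s : ℕ) : ℕ := frc (bp oS2 s) fun s => frc (bp oS3 s) fun s => bp oS1 s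


/-! ### bits of a block permutation -/

theorem testBit_bpG (L : List (ℕ × ℕ × ℕ)) (s acc k : ℕ) :
    (bpG L s acc).testBit k = true ↔ (acc.testBit k = true ∨ ∃ e ∈ L, e.2.1 ≤ k + e.2.2 ∧
      s.testBit (k + e.2.2 - e.2.1) = true ∧ e.1.testBit (k + e.2.2 - e.2.1) = true) := by
  induction L generalizing acc with
  | nil =>
    show acc.testBit k = true ↔ _
    simp
  | cons e L ih =>
    have h : bpG (e :: L) s acc = frc (Nat.lor acc
      (Nat.shiftRight (Nat.shiftLeft (Nat.land s e.1) e.2.1) e.2.2)) (bpG L s) := rfl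
    have h2 : (Nat.lor acc (Nat.shiftRight (Nat.shiftLeft (Nat.land s e.1) e.2.1)
        e.2.2)).testBit k = (acc.testBit k || (decide (e.2.1 ≤ k + e.2.2) &&
        (s.testBit (k + e.2.2 - e.2.1) && e.1.testBit (k + e.2.2 - e.2.1)))) := by
      show (acc ||| (((s &&& e.1) <<< e.2.1) >>> e.2.2)).testBit k = _
      rw [Nat.testBit_or, Nat.testBit_shiftRight, Nat.testBit_shiftLeft, Nat.testBit_and,
        Nat.add_comm k e.2.2]
    rw [h, frc_eq, ih, h2]
    simp only [Bool.or_eq_true, Bool.and_eq_true, decide_eq_true_eq, List.mem_cons,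
      exists_eq_or_imp]
    tauto

/-- `g` permutes the ring slots, `inv` is the inverse permutation -/
def IsBP (g : ℕ → ℕ) (inv : ℕ → ℕ) : Prop := ∀ s k, (g s).testBit k = true ↔
  (k < 361 ∧ ((k / 19 < 12 ∧ k % 19 < 12 ∧
    s.testBit (19 * inv (k / 19) + inv (k % 19)) = true) ∨ (12 ≤ k / 19 ∧ k / 19 = k % 19)))

/-- the entry `e` moves bits to the right places -/
def opOk (inv : List ℕ) (e : ℕ × ℕ × ℕ) : Prop :=
  e.1 < 2 ^ 361 ∧ ∀ j < 361, e.1.testBit j = true →
    (e.2.2 ≤ j + e.2.1 ∧ j + e.2.1 - e.2.2 < 361 ∧ (j + e.2.1 - e.2.2) / 19 < 12 ∧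
      (j + e.2.1 - e.2.2) % 19 < 12 ∧ j = 19 * getN inv ((j + e.2.1 - e.2.2) / 19) +
        getN inv ((j + e.2.1 - e.2.2) % 19))

instance (inv : List ℕ) (e : ℕ × ℕ × ℕ) : Decidable (opOk inv e) := by
  unfold opOk; infer_instance

/-- every ring position is reached -/
def covOk (inv : List ℕ) (L : List (ℕ × ℕ × ℕ)) : Prop :=
  ∀ k < 361, k / 19 < 12 → k % 19 < 12 → ∃ e ∈ L, e.2.1 ≤ k + e.2.2 ∧
    e.1.testBit (k + e.2.2 - e.2.1) = true ∧
    k + e.2.2 - e.2.1 = 19 * getN inv (k / 19) + getN inv (k % 19)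

instance (inv : List ℕ) (L : List (ℕ × ℕ × ℕ)) : Decidable (covOk inv L) := by
  unfold covOk; infer_instance

theorem JN_lt : JN < 2 ^ 361 := by decide +kernel
theorem MN_lt : MN < 2 ^ 361 := by decide +kernel

theorem JN_bits (k : ℕ) :
    JN.testBit k = true ↔ (k < 361 ∧ 12 ≤ k / 19 ∧ k / 19 = k % 19) := by
  have key : ∀ k < 361, (JN.testBit k = true ↔ (12 ≤ k / 19 ∧ k / 19 = k % 19)) := by
    decide +kernel
  constructor
  · intro h
    have h1 := lt_of_bit JN_lt h
    exact ⟨h1, (key k h1).1 h⟩
  · rintro ⟨h1, h2⟩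
    exact (key k h1).2 h2

theorem MN_bits (k : ℕ) : MN.testBit k = true ↔ (k < 361 ∧ 12 ≤ k / 19) := by
  have key : ∀ k < 361, (MN.testBit k = true ↔ 12 ≤ k / 19) := by
    decide +kernel
  constructor
  · intro h
    have h1 := lt_of_bit MN_lt h
    exact ⟨h1, (key k h1).1 h⟩
  · rintro ⟨h1, h2⟩
    exact (key k h1).2 h2

theorem isBP_bp {L : List (ℕ × ℕ × ℕ)} {inv : List ℕ} (h1 : ∀ e ∈ L, opOk inv e)
    (h2 : covOk inv L) : IsBP (bp L) (getN inv) := by
  intro s k
  show (bpG L s JN).testBit k = true ↔ _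
  rw [testBit_bpG, JN_bits]
  constructor
  · rintro (⟨h3, h4⟩ | ⟨e, he, h3, h4, h5⟩)
    · exact ⟨h3, Or.inr h4⟩
    · obtain ⟨h6, h7⟩ := h1 e he
      have h8 := lt_of_bit h6 h5
      obtain ⟨h9, h10, h11, h12, h13⟩ := h7 _ h8 h5
      have e1 : k + e.2.2 - e.2.1 + e.2.1 - e.2.2 = k := by omega
      rw [e1] at h10 h11 h12 h13
      rw [h13] at h4
      exact ⟨h10, Or.inl ⟨h11, h12, h4⟩⟩
  · rintro ⟨h3, ⟨h4, h5, h6⟩ | h4⟩
    · obtain ⟨e, he, h7, h8, h9⟩ := h2 k h3 h4 h5
      rw [← h9] at h6
      exact Or.inr ⟨e, he, h7, h6, h8⟩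
    · exact Or.inl ⟨h3, h4⟩

theorem IsBP.comp {g g' : ℕ → ℕ} {inv inv' : ℕ → ℕ} (hg : IsBP g inv) (hg' : IsBP g' inv')
    (hi : ∀ i < 12, inv i < 12) : IsBP (fun s => g (g' s)) (fun i => inv' (inv i)) := by
  intro s k
  show (g (g' s)).testBit k = true ↔ _
  rw [hg (g' s) k]
  refine and_congr_right fun hk => or_congr_left ?_
  refine and_congr_right fun h1 => and_congr_right fun h2 => ?_
  have a1 := hi _ h1
  have a2 := hi _ h2
  rw [hg' s, (idx (w := 19) (by omega)).1, (idx (w := 19) (by omega)).2]
  constructor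
  · rintro ⟨_, ⟨_, _, h⟩ | ⟨h, _⟩⟩
    · exact h
    · omega
  · intro h
    exact ⟨by omega, Or.inl ⟨a1, a2, h⟩⟩

theorem IsBP.congr {g : ℕ → ℕ} {inv inv' : ℕ → ℕ} (hg : IsBP g inv)
    (hi : ∀ i < 12, inv i = inv' i) : IsBP g inv' := by
  intro s k
  rw [hg s k]
  refine and_congr_right fun hk => or_congr_left ?_
  refine and_congr_right fun h1 => and_congr_right fun h2 => ?_
  rw [hi _ h1, hi _ h2]

theorem isBP_rot2 : IsBP (bp oRot2) (getN [10, 11, 0, 1, 2, 3, 4, 5, 6, 7, 8, 9]) :=
  isBP_bp (by decide +kernel) (by decide +kernel)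

theorem isBP_rot4 : IsBP (bp oRot4) (getN [8, 9, 10, 11, 0, 1, 2, 3, 4, 5, 6, 7]) :=
  isBP_bp (by decide +kernel) (by decide +kernel)

theorem isBP_rot6 : IsBP (bp oRot6) (getN [6, 7, 8, 9, 10, 11, 0, 1, 2, 3, 4, 5]) :=
  isBP_bp (by decide +kernel) (by decide +kernel)

theorem isBP_S2 : IsBP (bp oS2) (getN [3, 4, 5, 0, 1, 2, 9, 10, 11, 6, 7, 8]) :=
  isBP_bp (by decide +kernel) (by decide +kernel)

theorem isBP_S3 : IsBP (bp oS3) (getN [2, 1, 0, 5, 4, 3, 8, 7, 6, 11, 10, 9]) :=
  isBP_bp (by decide +kernel) (by decide +kernel)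

theorem isBP_S1 : IsBP (bp oS1) (getN [5, 6, 7, 8, 9, 10, 11, 0, 1, 2, 3, 4]) :=
  isBP_bp (by decide +kernel) (by decide +kernel)

theorem isBP_refl : IsBP reflP (getN [0, 11, 10, 9, 8, 7, 6, 5, 4, 3, 2, 1]) := by
  have h1 : ∀ i < 12, getN [5, 6, 7, 8, 9, 10, 11, 0, 1, 2, 3, 4] i < 12 := by decide
  have h2 : ∀ i < 12, getN [2, 1, 0, 5, 4, 3, 8, 7, 6, 11, 10, 9]
      (getN [5, 6, 7, 8, 9, 10, 11, 0, 1, 2, 3, 4] i) < 12 := by decide
  have h3 := (isBP_S1.comp isBP_S3 h1).comp isBP_S2 h2
  have h4 : (fun s => bp oS1 (bp oS3 (bp oS2 s))) = reflP := by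
    funext s
    unfold reflP
    rw [frc_eq, frc_eq]
  rw [h4] at h3
  exact h3.congr (by decide)

/-! ### comparison with relabelling -/

/-- ring codes -/
def RP (s : ℕ) : Prop := Eqv 19 s ∧ ringB MN JN s = true

/-- `π` is a permutation of the ring with inverse `inv` -/
def permOk (π inv : List ℕ) : Prop :=
  (∀ i < 12, getN inv (getN π i) = i ∧ getN inv i < 12 ∧ getN π (getN inv i) = i) ∧
  (∀ i < 19, getN π i < 12) ∧ ∀ x ∈ π, x < 19

instance (π inv : List ℕ) : Decidable (permOk π inv) := by
  unfold permOk; infer_instance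

theorem bit_iff {t : ℕ} (ht : Eqv 19 t) {i j : ℕ} (hi : i < 19) (hj : j < 19) :
    t.testBit (19 * i + j) = true ↔ ∀ d : ℕ → Bool, Sat 19 t d → d i = d j := by
  constructor
  · intro h d hd
    exact sat_ij hd hj h
  · intro h
    have h1 := h (fun k => t.testBit (19 * k + j)) ((sat_iff (by norm_num) ht _).2 (by
      intro a b ha hb hab
      rw [Bool.eq_iff_iff]
      exact ⟨fun h2 => ht.trans b a j hb ha hj (ht.symm a b ha hb hab) h2,
        fun h2 => ht.trans a b j ha hb hj hab h2⟩))
    show t.testBit (19 * i + j) = true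
    have h2 : t.testBit (19 * i + j) = t.testBit (19 * j + j) := h1
    rw [h2]
    exact ht.rfl' j hj

theorem rp_inner {s : ℕ} (hs : RP s) {a b : ℕ} (ha : a < 19) (hb : b < 19)
    (h : s.testBit (19 * a + b) = true) (hab : 12 ≤ a ∨ 12 ≤ b) : a = b := by
  rcases hab with h1 | h1
  · exact ringB_spec hs.2 h1 ha hb h
  · exact (ringB_spec hs.2 h1 hb ha (hs.1.symm a b ha hb h)).symm

theorem relab_bits {π inv : List ℕ} (hp : permOk π inv) {s : ℕ} (hs : RP s) (k : ℕ) :
    (relab 19 RN CN π scR s).testBit k = true ↔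
    (k < 361 ∧ ((k / 19 < 12 ∧ k % 19 < 12 ∧
      s.testBit (19 * getN inv (k / 19) + getN inv (k % 19)) = true) ∨
      (12 ≤ k / 19 ∧ k / 19 = k % 19))) := by
  obtain ⟨hp1, hp2, hp3⟩ := hp
  have hπ : ∀ i, getN π i < 19 := getN_lt (by norm_num) hp3
  have ht : Eqv 19 (relab 19 RN CN π scR s) := eqv_relab pwN hπ scR s
  have hsat : ∀ d : ℕ → Bool, Sat 19 (relab 19 RN CN π scR s) d ↔
      Sat 19 s (fun i => d (getN π i)) := by
    intro d
    apply sat_relab pwN hπ hs.1
    · intro i hi k _ hik
      have h1 : i < 12 := by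
        by_contra h2
        have := rp_inner hs hi (by omega) hik (Or.inl (by omega))
        omega
      have h2 : ∀ i < 12, 0 < i → i ∈ scR := by decide
      exact h2 i h1 (by omega)
    · decide
  have hsat' : ∀ d : ℕ → Bool, Sat 19 s (fun i => d (getN π i)) ↔ ∀ a b, a < 19 → b < 19 →
      s.testBit (19 * a + b) = true → d (getN π a) = d (getN π b) := fun d =>
    sat_iff (by norm_num) hs.1 _
  by_cases hk : k < 361
  swap
  · have : ¬ ((relab 19 RN CN π scR s).testBit k = true) := fun h => hk (ht.lt k h)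
    simp [hk, this]
  have hk1 : k / 19 < 19 := by omega
  have hk2 : k % 19 < 19 := by omega
  have hk3 : k = 19 * (k / 19) + k % 19 := by omega
  generalize k / 19 = i at *
  generalize k % 19 = j at *
  rw [hk3] at hk ⊢
  rw [bit_iff ht hk1 hk2]
  simp only [hk, true_and, hsat]
  by_cases hij : i < 12 ∧ j < 12
  · obtain ⟨hi, hj⟩ := hij
    have hi' : ¬ (12 ≤ i) := by omega
    simp only [hi, hj, hi', true_and, false_and, or_false]
    constructor
    · intro h
      have h1 := h (fun k => if k < 12 then s.testBit (19 * getN inv k + getN inv j) else false)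
        ((hsat' (fun k => if k < 12 then s.testBit (19 * getN inv k + getN inv j) else false)).2
        (by
          intro a b ha hb hab
          by_cases hab' : 12 ≤ a ∨ 12 ≤ b
          · rw [rp_inner hs ha hb hab hab']
          · have ha' : a < 12 := by omega
            have hb' : b < 12 := by omega
            simp only [hp2 a ha, hp2 b hb, if_true, (hp1 a ha').1, (hp1 b hb').1]
            have hj' := (hp1 j hj).2.1
            rw [Bool.eq_iff_iff]
            exact ⟨fun h2 => hs.1.trans b a _ hb ha (by omega) (hs.1.symm a b ha hb hab) h2,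
              fun h2 => hs.1.trans a b _ ha hb (by omega) hab h2⟩))
      simp only [hi, hj, if_true] at h1
      rw [h1]
      exact hs.1.rfl' _ (by have := (hp1 j hj).2.1; omega)
    · intro h d hd
      have h1 := (hsat' d).1 hd (getN inv i) (getN inv j) (by have := (hp1 i hi).2.1; omega)
        (by have := (hp1 j hj).2.1; omega) h
      rwa [(hp1 i hi).2.2, (hp1 j hj).2.2] at h1
  · have hA : ¬ (i < 12 ∧ j < 12 ∧ s.testBit (19 * getN inv i + getN inv j) = true) :=
      fun h => hij ⟨h.1, h.2.1⟩
    simp only [hA, false_or]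
    constructor
    · intro h
      by_cases hi : 12 ≤ i
      · refine ⟨hi, ?_⟩
        have h1 := h (fun k => decide (k = i)) ((hsat' (fun k => decide (k = i))).2 (by
          intro a b ha hb _
          have h2 := hp2 a ha
          have h3 := hp2 b hb
          have h4 : ¬ (getN π a = i) := by omega
          have h5 : ¬ (getN π b = i) := by omega
          simp [h4, h5]))
        simp only [decide_true] at h1
        exact (of_decide_eq_true h1.symm).symm
      · have hj : 12 ≤ j := by omega
        have h1 := h (fun k => decide (k = j)) ((hsat' (fun k => decide (k = j))).2 (by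
          intro a b ha hb _
          have h2 := hp2 a ha
          have h3 := hp2 b hb
          have h4 : ¬ (getN π a = j) := by omega
          have h5 : ¬ (getN π b = j) := by omega
          simp [h4, h5]))
        simp only [decide_true] at h1
        have := of_decide_eq_true h1
        omega
    · rintro ⟨_, rfl⟩ d _
      rfl

theorem eq_relab {g : ℕ → ℕ} {π inv : List ℕ} (hg : IsBP g (getN inv)) (hp : permOk π inv)
    {s : ℕ} (hs : RP s) : g s = relab 19 RN CN π scR s :=
  Nat.eq_of_testBit_eq fun k => Bool.eq_iff_iff.2 ((hg s k).trans (relab_bits hp hs k).symm)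

theorem rp_relab {π inv : List ℕ} (hp : permOk π inv) {s : ℕ} (hs : RP s) :
    RP (relab 19 RN CN π scR s) := by
  refine ⟨eqv_relab pwN (getN_lt (by norm_num) hp.2.2) scR s, ?_⟩
  have h : Nat.land (relab 19 RN CN π scR s) MN = JN := by
    apply Nat.eq_of_testBit_eq
    intro k
    show ((relab 19 RN CN π scR s) &&& MN).testBit k = JN.testBit k
    rw [Nat.testBit_and, Bool.eq_iff_iff, Bool.and_eq_true, relab_bits hp hs, MN_bits, JN_bits]
    constructor
    · rintro ⟨⟨h1, ⟨h2, _⟩ | h2⟩, _, h3⟩
      · omega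
      · exact ⟨h1, h2⟩
    · rintro ⟨h1, h2, h3⟩
      exact ⟨⟨h1, Or.inr ⟨h2, h3⟩⟩, h1, h2⟩
  unfold ringB
  rw [h]
  exact Nat.beq_refl JN

theorem rp_bp {g : ℕ → ℕ} {π inv : List ℕ} (hg : IsBP g (getN inv)) (hp : permOk π inv)
    {s : ℕ} (hs : RP s) : RP (g s) := by
  rw [eq_relab hg hp hs]
  exact rp_relab hp hs

end Pool.Agent.U5C
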