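import Pool.Agent.U5C.Bits

/-!
# Soundness of the calculus
-/

set_option autoImplicit false

namespace Pool.Agent.U5C

/-- interpretation of the coefficients in a commutative ring with an element `q` -/
structure Ip {K A : Type} [CommRing A] (neg mq : K → K) (add : K → K → K) (ι : K → A) (q : A) :
    Prop where
  neg : ∀ c, ι (neg c) = - ι c
  mq : ∀ c, ι (mq c) = q * ι c
  add : ∀ c d, ι (add c d) = ι c + ι d

section

variable {K A : Type} [CommRing A] (ι : K → A) (Λ : ℕ → A)

/-- value of a linear functional -/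
def lin : FL K → A
  | .nil => 0
  | .cons s c L => ι c * Λ s + lin L

def linT : Tr K → A
  | .lf L => lin ι Λ L
  | .nd l r => linT l + linT r

/-- all codes satisfy `P` -/
def AllL (P : ℕ → Prop) : FL K → Prop
  | .nil => True
  | .cons s _ L => P s ∧ AllL P L

def AllT (P : ℕ → Prop) : Tr K → Prop
  | .lf L => AllL P L
  | .nd l r => AllT P l ∧ AllT P r

@[simp] theorem lin_nil : lin ι Λ FL.nil = 0 := rfl
@[simp] theorem lin_cons (s : ℕ) (c : K) (L : FL K) :
    lin ι Λ (FL.cons s c L) = ι c * Λ s + lin ι Λ L := rfl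
@[simp] theorem linT_lf (L : FL K) : linT ι Λ (Tr.lf L) = lin ι Λ L := rfl
@[simp] theorem linT_nd (l r : Tr K) : linT ι Λ (Tr.nd l r) = linT ι Λ l + linT ι Λ r := rfl

variable {neg mq : K → K} {add : K → K → K} {q : A}

theorem addA_cons (s t : ℕ) (c c' : K) (tl : FL K) : addA add s c (FL.cons t c' tl) =
    @Bool.rec (fun _ => FL K) (FL.cons t c' (addA add s c tl)) (FL.cons t (add c' c) tl)
      (Nat.beq s t) := rfl

theorem lin_addA (h : Ip neg mq add ι q) (s : ℕ) (c : K) (L : FL K) :
    lin ι Λ (addA add s c L) = lin ι Λ L + ι c * Λ s := by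
  induction L with
  | nil => show ι c * Λ s + 0 = 0 + ι c * Λ s; ring
  | cons t c' tl ih =>
    rw [addA_cons]
    cases hb : Nat.beq s t with
    | true =>
      have : s = t := Nat.eq_of_beq_eq_true hb
      subst this
      simp only [lin_cons, h.add]; ring
    | false =>
      simp only [lin_cons, ih]; ring

theorem allL_addA {P : ℕ → Prop} {s : ℕ} (c : K) (hs : P s) {L : FL K} (hL : AllL P L) :
    AllL P (addA add s c L) := by
  induction L with
  | nil => exact ⟨hs, trivial⟩
  | cons t c' tl ih =>
    rw [addA_cons]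
    cases hb : Nat.beq s t with
    | true => exact ⟨hL.1, hL.2⟩
    | false => exact ⟨hL.1, ih hL.2⟩

theorem ins_nd (s : ℕ) (c : K) (l r : Tr K) (h : ℕ) : (Tr.nd l r).ins add s c h =
    @Bool.rec (fun _ => Tr K) (Tr.nd l (r.ins add s c (Nat.div h 2)))
        (Tr.nd (l.ins add s c (Nat.div h 2)) r) (Nat.beq (Nat.mod h 2) 0) :=
  frc_eq h fun h => @Bool.rec (fun _ => Tr K) (Tr.nd l (r.ins add s c (Nat.div h 2)))
        (Tr.nd (l.ins add s c (Nat.div h 2)) r) (Nat.beq (Nat.mod h 2) 0)

theorem linT_ins (hI : Ip neg mq add ι q) (s : ℕ) (c : K) (T : Tr K) (h : ℕ) :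
    linT ι Λ (T.ins add s c h) = linT ι Λ T + ι c * Λ s := by
  induction T generalizing h with
  | lf L => exact lin_addA ι Λ hI s c L
  | nd l r ihl ihr =>
    rw [ins_nd]
    cases Nat.beq (Nat.mod h 2) 0 with
    | true => simp only [linT_nd, ihl]; ring
    | false => simp only [linT_nd, ihr]; ring

theorem allT_ins {P : ℕ → Prop} {s : ℕ} (c : K) (hs : P s) {T : Tr K} (hT : AllT P T) (h : ℕ) :
    AllT P (T.ins add s c h) := by
  induction T generalizing h with
  | lf L => exact allL_addA c hs hT
  | nd l r ihl ihr =>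
    rw [ins_nd]
    cases Nat.beq (Nat.mod h 2) 0 with
    | true => exact ⟨ihl hT.1 _, hT.2⟩
    | false => exact ⟨hT.1, ihr hT.2 _⟩

theorem linT_insAll (hI : Ip neg mq add ι q) (p : ℕ) (L : FL K) (T : Tr K) :
    linT ι Λ (insAll add p L T) = linT ι Λ T + lin ι Λ L := by
  induction L generalizing T with
  | nil => show linT ι Λ T = _; simp
  | cons s c L ih =>
    show linT ι Λ (insAll add p L (T.ins add s c (Nat.mod s p))) = _
    rw [ih, linT_ins ι Λ hI, lin_cons]; ring

theorem allT_insAll {P : ℕ → Prop} (p : ℕ) {L : FL K} (hL : AllL P L) {T : Tr K}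
    (hT : AllT P T) : AllT P (insAll add p L T) := by
  induction L generalizing T with
  | nil => exact hT
  | cons s c L ih => exact ih hL.2 (allT_ins c hL.1 hT _)

theorem linT_emp (n : ℕ) : linT ι Λ (Tr.emp K n) = 0 := by
  induction n with
  | zero => rfl
  | succ n ih => show linT ι Λ (Tr.emp K n) + linT ι Λ (Tr.emp K n) = 0; rw [ih, add_zero]

theorem allT_emp (P : ℕ → Prop) (n : ℕ) : AllT P (Tr.emp K n) := by
  induction n with
  | zero => trivial
  | succ n ih => exact ⟨ih, ih⟩

end

/-! ### multiplication by `1 - e_ab` -/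

section

variable {K A κ : Type} [CommRing A] (ι : K → A) {neg mq : K → K} {add : K → K → K} {q : A}
variable {w R C : ℕ}

open scoped Classical in
/-- the functional of a colouring -/
noncomputable def lc (A : Type) [CommRing A] (w : ℕ) (d : ℕ → κ) (s : ℕ) : A :=
  if Sat w s d then 1 else 0

theorem mulNE_cons (adj a b s : ℕ) (c : K) (L : FL K) :
    mulNE neg w R C adj a b (FL.cons s c L) = @Bool.rec (fun _ => FL K)
      (@Bool.rec (fun _ => FL K) (FL.cons s c (mulNE neg w R C adj a b L))
        (FL.cons s c (FL.cons (mrg w R C a b s) (neg c) (mulNE neg w R C adj a b L)))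
          (Nat.beq (Nat.land (mrg w R C a b s) adj) 0))
      (mulNE neg w R C adj a b L)
      (Nat.beq (Nat.land (Nat.shiftRight s (Nat.add (Nat.mul w a) b)) 1) 1) := by
  show @Bool.rec (fun _ => FL K) (frc _ _) _ _ = _
  rw [frc_eq]
  rfl

theorem beq_bit (s k : ℕ) :
    Nat.beq (Nat.land (Nat.shiftRight s k) 1) 1 = s.testBit k := by
  have h1 : Nat.land (Nat.shiftRight s k) 1 = (s >>> k) % 2 := by
    show (s >>> k) &&& 1 = _
    exact Nat.and_one_is_mod _
  rw [h1]
  have h2 : s.testBit k = decide ((s >>> k) % 2 = 1) := by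
    have := Nat.testBit_shiftRight s (i := k) (j := 0)
    rw [add_zero] at this
    rw [← this, Nat.testBit_zero]
  rw [h2]
  rcases Nat.mod_two_eq_zero_or_one (s >>> k) with h | h <;> rw [h] <;> rfl

theorem allL_mulNE (h : PW w R C) {adj a b : ℕ} (ha : a < w) (hb : b < w) {L : FL K}
    (hL : AllL (Eqv w) L) : AllL (Eqv w) (mulNE neg w R C adj a b L) := by
  induction L with
  | nil => trivial
  | cons s c L ih =>
    rw [mulNE_cons]
    cases Nat.beq (Nat.land (Nat.shiftRight s (Nat.add (Nat.mul w a) b)) 1) 1 with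
    | true => exact ih hL.2
    | false =>
      cases Nat.beq (Nat.land (mrg w R C a b s) adj) 0 with
      | true => exact ⟨hL.1, hL.1.mrg h ha hb, ih hL.2⟩
      | false => exact ⟨hL.1, ih hL.2⟩

open scoped Classical in
theorem lin_mulNE (h : PW w R C) (hI : Ip neg mq add ι q) {adj a b : ℕ} (ha : a < w)
    (hb : b < w) {d : ℕ → κ} (hd : Prp w adj d) {L : FL K} (hL : AllL (Eqv w) L) :
    lin ι (lc A w d) (mulNE neg w R C adj a b L) =
      if d a = d b then 0 else lin ι (lc A w d) L := by
  induction L with
  | nil => show (0 : A) = _; simp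
  | cons s c L ih =>
    rw [mulNE_cons]
    have ih' := ih hL.2
    cases h1 : Nat.beq (Nat.land (Nat.shiftRight s (Nat.add (Nat.mul w a) b)) 1) 1 with
    | true =>
      rw [beq_bit] at h1
      simp only [ih', lin_cons]
      by_cases hab : d a = d b
      · rw [if_pos hab, if_pos hab]
      · rw [if_neg hab, if_neg hab]
        have : lc A w d s = 0 := if_neg fun hs => hab (sat_ij hs hb h1)
        rw [this]; ring
    | false =>
      cases h2 : Nat.beq (Nat.land (mrg w R C a b s) adj) 0 with
      | true =>
        simp only [ih', lin_cons, hI.neg]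
        have e : lc A w d (mrg w R C a b s) = if d a = d b then lc A w d s else 0 := by
          unfold lc
          by_cases hab : d a = d b
          · rw [if_pos hab]
            exact if_congr (by rw [sat_mrg h hL.1 ha hb]; tauto) rfl rfl
          · rw [if_neg hab]
            exact if_neg fun hc => hab ((sat_mrg h hL.1 ha hb d).1 hc).2
        rw [e]
        by_cases hab : d a = d b
        · simp only [if_pos hab]; ring
        · simp only [if_neg hab]; ring
      | false =>
        simp only [ih', lin_cons]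
        have h3 : ¬ Sat w (mrg w R C a b s) d := by
          apply not_sat_of_adj hd
          intro h0
          rw [h0] at h2
          exact absurd h2 (by decide)
        rw [sat_mrg h hL.1 ha hb] at h3
        by_cases hab : d a = d b
        · rw [if_pos hab, if_pos hab]
          have : lc A w d s = 0 := if_neg fun hs => h3 ⟨hs, hab⟩
          rw [this]; ring
        · rw [if_neg hab, if_neg hab]

theorem allL_mulNEs (h : PW w R C) {adj b : ℕ} (hb : b < w) {us : List ℕ}
    (hus : ∀ u ∈ us, u < w) {L : FL K} (hL : AllL (Eqv w) L) :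
    AllL (Eqv w) (mulNEs neg w R C adj b us L) := by
  induction us generalizing L with
  | nil => exact hL
  | cons u us ih =>
    exact ih (fun x hx => hus x (List.mem_cons_of_mem _ hx))
      (allL_mulNE h hb (hus u List.mem_cons_self) hL)

open scoped Classical in
theorem lin_mulNEs (h : PW w R C) (hI : Ip neg mq add ι q) {adj b : ℕ} (hb : b < w)
    {us : List ℕ} (hus : ∀ u ∈ us, u < w) {d : ℕ → κ} (hd : Prp w adj d) {L : FL K}
    (hL : AllL (Eqv w) L) :
    lin ι (lc A w d) (mulNEs neg w R C adj b us L) =
      if (∀ u ∈ us, d b ≠ d u) then lin ι (lc A w d) L else 0 := by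
  induction us generalizing L with
  | nil => show lin ι (lc A w d) L = _; simp
  | cons u us ih =>
    show lin ι (lc A w d) (mulNEs neg w R C adj b us (mulNE neg w R C adj b u L)) = _
    have hu := hus u List.mem_cons_self
    rw [ih (fun x hx => hus x (List.mem_cons_of_mem _ hx)) (allL_mulNE h hb hu hL),
      lin_mulNE ι h hI hb hu hd hL]
    by_cases h1 : d b = d u
    · simp [h1]
    · simp [h1]

end

end Pool.Agent.U5C
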